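import Pool.Agent.R563.RRam.Lists

set_option autoImplicit false

/-! # The algorithm

Matrices are lists of rows.  The number `m` is the precision parameter; `2 ^ m` is called `W` in the
comments.  Matrices with integer entries are multiplied by packing: the digits in base `W ^ 19` of
one real number are the entries of one row of the product. -/

noncomputable section

namespace Pool.Agent.R563.RRam

namespace PC

variable {α β γ δ ε : Type} {a b : ℕ}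

theorem zipWith {g : (ℕ × ℕ) × (ε × (β × γ)) → δ} {e : (ℕ × ℕ) × α → ε}
    {u : (ℕ × ℕ) × α → List β} {v : (ℕ × ℕ) × α → List γ} (hg : PC a b g)
    (he : PC (a + 1) b e) (hu : PC (a + 1) b u) (hv : PC (a + 1) b v) :
    PC (a + 1) b (fun p => List.zipWith (fun x y => g (p.1, (e p, (x, y))))
      ((u p).take p.1.1) (v p)) := by
  -- state: (rest of `v`, reversed output)
  have hstep : PC a b (fun q : (ℕ × ℕ) × (ε × ((List γ × List δ) × β)) =>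
      RRam.caseList q.2.2.1.1 q.2.2.1
        (fun y r => (r, g (q.1, (q.2.1, (q.2.2.2, y))) :: q.2.2.1.2))) :=
    PC.caseL (f := fun q : (ℕ × ℕ) × (ε × ((List γ × List δ) × β)) => q.2.2.1.1)
      (g := fun q : (ℕ × ℕ) × (ε × ((List γ × List δ) × β)) => q.2.2.1)
      (h := fun r : (ℕ × ℕ) × ((ε × ((List γ × List δ) × β)) × γ × List γ) =>
        (r.2.2.2, g (r.1, (r.2.1.1, (r.2.1.2.2, r.2.2.1))) :: r.2.1.2.1.2))
      PC.arg.snd.fst.fst PC.arg.snd.fst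
      (PC.arg.snd.snd.pair ((PC.comp
        (f := fun r : (ℕ × ℕ) × ((ε × ((List γ × List δ) × β)) × γ × List γ) =>
          (r.2.1.1, (r.2.1.2.2, r.2.2.1))) (g := g)
        (PC.arg.fst.fst.pair (PC.arg.fst.snd.snd.pair PC.arg.snd.fst)) hg).cons
          PC.arg.fst.snd.fst.snd))
  have h := (PC.foldl hstep he hu (hv.pair PC.nil)).snd
  refine (reverseTake h).congr fun p => ?_
  have key : ∀ (l : List β) (v : List γ) (out : List δ),
      (l.foldl (fun (y : List γ × List δ) x => RRam.caseList y.1 y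
        (fun z r => (r, g (p.1, (e p, (x, z))) :: y.2))) (v, out)).2
      = (List.zipWith (fun x y => g (p.1, (e p, (x, y)))) l v).reverse ++ out := by
    intro l
    induction l with
    | nil => intro v out; simp
    | cons x t ih =>
      intro v out
      cases v with
      | nil =>
        simp only [List.foldl_cons, caseList_nil, List.zipWith_nil_right, List.reverse_nil,
          List.nil_append]
        rw [ih]
        simp
      | cons z r =>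
        simp only [List.foldl_cons, caseList_cons, List.zipWith_cons_cons, List.reverse_cons,
          List.append_assoc, List.singleton_append]
        rw [ih]
  have h5 := key ((u p).take p.1.1) (v p) []
  simp only [List.append_nil] at h5
  rw [h5, List.take_of_length_le, List.reverse_reverse]
  simp only [List.length_reverse, List.length_zipWith, List.length_take]
  omega

end PC

/-- `W = 2 ^ m` -/
def pw (m : ℕ) : ℝ := (fun x : ℝ => x + x)^[m] 1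

/-- one step of the computation of an integer part: state `(z, w, acc)` -/
def flStep (s : ℝ × ℝ × ℝ) : ℝ × ℝ × ℝ :=
  if 0 ≤ s.1 - s.2.1 then (s.1 - s.2.1, s.2.1 / 2, s.2.2 + s.2.1) else (s.1, s.2.1 / 2, s.2.2)

/-- the integer part of `z`, for `0 ≤ z < W ^ 19` -/
def fl (m : ℕ) (z : ℝ) : ℝ := (((flStep^[19])^[m]) (z, pw m ^ 19 / 2, 0)).2.2

/-- the sum of a list (of length at most `n`) -/
def sumL (n : ℕ) (l : List ℝ) : ℝ := (l.take n).foldl (fun x y => x + y) 0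

/-- scalar product -/
def dot (n : ℕ) (u v : List ℝ) : ℝ := sumL n (List.zipWith (fun x y => x * y) (u.take n) v)

/-- `c u + v` -/
def axpy (n : ℕ) (c : ℝ) (u v : List ℝ) : List ℝ :=
  List.zipWith (fun x y => c * x + y) (u.take n) v

/-- the zero vector -/
def zeros (n : ℕ) : List ℝ := (fun l : List ℝ => 0 :: l)^[n] []

/-- one step of the extraction of the digits -/
def unStep (m : ℕ) (s : ℝ × List ℝ) : ℝ × List ℝ :=
  ((s.1 - fl m s.1) * pw m ^ 19, fl m s.1 :: s.2)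

/-- the digits of `z` -/
def unpack (n m : ℕ) (z : ℝ) : List ℝ := ((((unStep m)^[n] (z, [])).2).take n).reverse

/-- `⌊d / W ^ 8⌋`, from `d + W ^ 18` -/
def scale (m : ℕ) (d : ℝ) : ℝ := fl m (d / pw m ^ 8) - pw m ^ 18 / pw m ^ 8

/-- the rows are packed into one row -/
def packW (n m : ℕ) (rows : List (List ℝ)) : List ℝ :=
  ((rows.take n).foldl (fun (s : List ℝ × ℝ) r => (axpy n s.2 r s.1, s.2 / pw m ^ 19))
    (zeros n, 1)).1

/-- the packed offset -/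
def offs (n m : ℕ) : ℝ :=
  ((fun s : ℝ × ℝ => (s.1 + pw m ^ 18 * s.2, s.2 / pw m ^ 19))^[n] (0, 1)).1

/-- one row of the product; `w` is the packed matrix, `h` the packed offset -/
def newRow (n m : ℕ) (w : List ℝ) (h sg q c : ℝ) (r : List ℝ) : List ℝ :=
  ((unpack n m (sg * dot n r w + q * c + h)).take n).map (scale m)

/-- `⌊(sg R Rᵀ + q I) / W ^ 8⌋` -/
def prodRows (n m : ℕ) (sg q : ℝ) (rows : List (List ℝ)) : List (List ℝ) :=
  ((((rows.take n).foldl (fun (s : List (List ℝ) × ℝ) r =>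
    (newRow n m (packW n m rows) (offs n m) sg q s.2 r :: s.1, s.2 / pw m ^ 19))
    ([], 1)).1).take n).reverse

/-- `y + R y / W ^ 8` -/
def upd (n m : ℕ) (rows : List (List ℝ)) (y : List ℝ) : List ℝ :=
  List.zipWith (fun r t => t + dot n r y / pw m ^ 8) (rows.take n) y

/-- one squaring step on `(R, y)` -/
def mainStep (n m : ℕ) (s : List (List ℝ) × List ℝ) : List (List ℝ) × List ℝ :=
  (prodRows n m 1 0 s.1, upd n m s.1 s.2)

/-- rounding of the entries of a matrix -/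
def roundRows (n m : ℕ) (rows : List (List ℝ)) : List (List ℝ) :=
  (rows.take n).map fun r => (r.take n).map fun x => fl m (pw m ^ 8 * x + pw m ^ 8) - pw m ^ 8

/-- `R₀ = ⌊(W ^ 16 I - P Pᵀ) / W ^ 8⌋` where `P` is the rounded matrix, then `m` squarings -/
def core (n m : ℕ) (rows : List (List ℝ)) (b : List ℝ) : List (List ℝ) × List ℝ :=
  (mainStep n m)^[m] (prodRows n m (-1) (pw m ^ 16) (roundRows n m rows), b)

/-- `c Aᵀ y` -/
def tmul (n : ℕ) (c : ℝ) (rows : List (List ℝ)) (y : List ℝ) : List ℝ :=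
  ((List.zipWith (fun r t => (r, t)) (rows.take n) y).take n).foldl
    (fun x (p : List ℝ × ℝ) => axpy n (c * p.2) p.1 x) (zeros n)

/-! ### Costs -/

variable {α : Type} {a b : ℕ}

theorem pc_pw : PC a (b + 1) (fun p : (ℕ × ℕ) × α => pw p.1.2) :=
  PC.loopM (s := fun p : (ℕ × ℕ) × (ℕ × ℝ) => p.2.2 + p.2.2) (e := fun _ => 0)
    (x := fun _ => (1 : ℝ)) (PC.arg.snd.add PC.arg.snd) PC.natZero PC.one

theorem pc_flStep : PC 0 0 (fun p : (ℕ × ℕ) × (ℕ × (ℝ × ℝ × ℝ)) => flStep p.2.2) :=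
  PC.branch (h := fun p : (ℕ × ℕ) × (ℕ × (ℝ × ℝ × ℝ)) => p.2.2.1 - p.2.2.2.1)
    (PC.arg.snd.fst.sub PC.arg.snd.snd.fst)
    ((PC.arg.snd.fst.sub PC.arg.snd.snd.fst).pair
      ((PC.arg.snd.snd.fst.div PC.two).pair (PC.arg.snd.snd.snd.add PC.arg.snd.snd.fst)))
    (PC.arg.snd.fst.pair ((PC.arg.snd.snd.fst.div PC.two).pair PC.arg.snd.snd.snd))

theorem pc_fl0 : PC 0 1 (fun p : (ℕ × ℕ) × ℝ => fl p.1.2 p.2) := by
  have h1 : PC 0 0 (fun p : (ℕ × ℕ) × (ℕ × (ℝ × ℝ × ℝ)) => flStep^[19] p.2.2) :=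
    PC.iter pc_flStep 19
  exact (PC.loopM (e := fun _ : (ℕ × ℕ) × ℝ => (0 : ℕ))
    (x := fun p : (ℕ × ℕ) × ℝ => (p.2, pw p.1.2 ^ 19 / 2, (0 : ℝ))) h1 PC.natZero
    (PC.arg.pair (((pc_pw.pow 19).div PC.two).pair PC.zero))).snd.snd

theorem pc_fl {f : (ℕ × ℕ) × α → ℝ} (hf : PC a (b + 1) f) :
    PC a (b + 1) (fun p => fl p.1.2 (f p)) :=
  PC.comp hf (pc_fl0.mono (by omega) (by omega))

theorem pc_sumL {l : (ℕ × ℕ) × α → List ℝ} (hl : PC (a + 1) b l) :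
    PC (a + 1) b (fun p => sumL p.1.1 (l p)) :=
  PC.foldl (step := fun q : (ℕ × ℕ) × (ℕ × (ℝ × ℝ)) => q.2.2.1 + q.2.2.2) (e := fun _ => 0)
    (c := fun _ => (0 : ℝ)) (PC.arg.snd.fst.add PC.arg.snd.snd) PC.natZero hl PC.zero

theorem pc_dot {u v : (ℕ × ℕ) × α → List ℝ} (hu : PC (a + 1) b u) (hv : PC (a + 1) b v) :
    PC (a + 1) b (fun p => dot p.1.1 (u p) (v p)) :=
  pc_sumL (PC.zipWith (g := fun q : (ℕ × ℕ) × (ℕ × (ℝ × ℝ)) => q.2.2.1 * q.2.2.2)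
    (e := fun _ => 0) (PC.arg.snd.fst.mul PC.arg.snd.snd) PC.natZero hu hv)

theorem pc_axpy {c : (ℕ × ℕ) × α → ℝ} {u v : (ℕ × ℕ) × α → List ℝ} (hc : PC (a + 1) b c)
    (hu : PC (a + 1) b u) (hv : PC (a + 1) b v) :
    PC (a + 1) b (fun p => axpy p.1.1 (c p) (u p) (v p)) :=
  PC.zipWith (g := fun q : (ℕ × ℕ) × (ℝ × (ℝ × ℝ)) => q.2.1 * q.2.2.1 + q.2.2.2) (e := c)
    ((PC.arg.fst.mul PC.arg.snd.fst).add PC.arg.snd.snd) hc hu hv

theorem pc_zeros : PC (a + 1) b (fun p : (ℕ × ℕ) × α => zeros p.1.1) :=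
  PC.loopN (s := fun q : (ℕ × ℕ) × (ℕ × List ℝ) => (0 : ℝ) :: q.2.2) (e := fun _ => 0)
    (x := fun _ => ([] : List ℝ)) (PC.zero.cons PC.arg.snd) PC.natZero PC.nil

theorem pc_unStep : PC 0 1 (fun p : (ℕ × ℕ) × (ℕ × (ℝ × List ℝ)) => unStep p.1.2 p.2.2) :=
  ((PC.arg.snd.fst.sub (pc_fl PC.arg.snd.fst)).mul (pc_pw.pow 19)).pair
    ((pc_fl PC.arg.snd.fst).cons PC.arg.snd.snd)

theorem pc_unpack0 : PC 1 1 (fun p : (ℕ × ℕ) × ℝ => unpack p.1.1 p.1.2 p.2) :=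
  PC.reverseTake (PC.loopN (e := fun _ : (ℕ × ℕ) × ℝ => (0 : ℕ))
    (x := fun p : (ℕ × ℕ) × ℝ => (p.2, ([] : List ℝ))) pc_unStep PC.natZero
    (PC.arg.pair PC.nil)).snd

theorem pc_unpack {f : (ℕ × ℕ) × α → ℝ} (hf : PC (a + 1) (b + 1) f) :
    PC (a + 1) (b + 1) (fun p => unpack p.1.1 p.1.2 (f p)) :=
  PC.comp hf (pc_unpack0.mono (by omega) (by omega))

theorem pc_scale : PC 0 1 (fun p : (ℕ × ℕ) × (ℕ × ℝ) => scale p.1.2 p.2.2) :=
  (pc_fl (PC.arg.snd.div (pc_pw.pow 8))).sub ((pc_pw.pow 18).div (pc_pw.pow 8))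

theorem pc_packW0 : PC 2 1 (fun p : (ℕ × ℕ) × List (List ℝ) => packW p.1.1 p.1.2 p.2) :=
  (PC.foldl (step := fun q : (ℕ × ℕ) × (ℝ × ((List ℝ × ℝ) × List ℝ)) =>
      (axpy q.1.1 q.2.2.1.2 q.2.2.2 q.2.2.1.1, q.2.2.1.2 / q.2.1))
    (e := fun p => pw p.1.2 ^ 19) (l := fun p : (ℕ × ℕ) × List (List ℝ) => p.2)
    (c := fun p => (zeros p.1.1, (1 : ℝ))) (a := 1) (b := 1)
    ((pc_axpy PC.arg.snd.fst.snd PC.arg.snd.snd PC.arg.snd.fst.fst).pair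
      (PC.arg.snd.fst.snd.div PC.arg.fst))
    (pc_pw.pow 19) PC.arg (pc_zeros.pair PC.one)).fst

theorem pc_offs : PC (a + 1) (b + 1) (fun p : (ℕ × ℕ) × α => offs p.1.1 p.1.2) :=
  (PC.loopN (s := fun q : (ℕ × ℕ) × ((ℝ × ℝ) × (ℝ × ℝ)) =>
      (q.2.2.1 + q.2.1.1 * q.2.2.2, q.2.2.2 / q.2.1.2))
    (e := fun p : (ℕ × ℕ) × α => (pw p.1.2 ^ 18, pw p.1.2 ^ 19))
    (x := fun _ => ((0 : ℝ), (1 : ℝ)))
    ((PC.arg.snd.fst.add (PC.arg.fst.fst.mul PC.arg.snd.snd)).pair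
      (PC.arg.snd.snd.div PC.arg.fst.snd))
    ((pc_pw.pow 18).pair (pc_pw.pow 19)) (PC.zero.pair PC.one)).fst

theorem pc_newRow : PC 1 1 (fun p : (ℕ × ℕ) × (List ℝ × ℝ × ℝ × ℝ × ℝ × List ℝ) =>
    newRow p.1.1 p.1.2 p.2.1 p.2.2.1 p.2.2.2.1 p.2.2.2.2.1 p.2.2.2.2.2.1 p.2.2.2.2.2.2) :=
  PC.mapTake (f := fun p : (ℕ × ℕ) × (ℕ × ℝ) => scale p.1.2 p.2.2)
    (e := fun _ => 0) pc_scale PC.natZero
    (pc_unpack (((PC.arg.snd.snd.fst.mul (pc_dot PC.arg.snd.snd.snd.snd.snd PC.arg.fst)).add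
      (PC.arg.snd.snd.snd.fst.mul PC.arg.snd.snd.snd.snd.fst)).add PC.arg.snd.fst))

theorem pc_prodRows0 : PC 2 1 (fun p : (ℕ × ℕ) × (ℝ × ℝ × List (List ℝ)) =>
    prodRows p.1.1 p.1.2 p.2.1 p.2.2.1 p.2.2.2) := by
  have hstep : PC 1 1 (fun q : (ℕ × ℕ) × ((List ℝ × ℝ × ℝ × ℝ × ℝ) ×
      ((List (List ℝ) × ℝ) × List ℝ)) =>
      (newRow q.1.1 q.1.2 q.2.1.1 q.2.1.2.1 q.2.1.2.2.1 q.2.1.2.2.2.1 q.2.2.1.2 q.2.2.2
        :: q.2.2.1.1, q.2.2.1.2 / q.2.1.2.2.2.2)) :=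
    ((PC.comp (f := fun q : (ℕ × ℕ) × ((List ℝ × ℝ × ℝ × ℝ × ℝ) ×
        ((List (List ℝ) × ℝ) × List ℝ)) =>
        (q.2.1.1, q.2.1.2.1, q.2.1.2.2.1, q.2.1.2.2.2.1, q.2.2.1.2, q.2.2.2))
      (PC.arg.fst.fst.pair (PC.arg.fst.snd.fst.pair (PC.arg.fst.snd.snd.fst.pair
        (PC.arg.fst.snd.snd.snd.fst.pair (PC.arg.snd.fst.snd.pair PC.arg.snd.snd)))))
      pc_newRow).cons PC.arg.snd.fst.fst).pair
      (PC.arg.snd.fst.snd.div PC.arg.fst.snd.snd.snd.snd)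
  exact PC.reverseTake (PC.foldl
    (e := fun p : (ℕ × ℕ) × (ℝ × ℝ × List (List ℝ)) =>
      (packW p.1.1 p.1.2 p.2.2.2, offs p.1.1 p.1.2, p.2.1, p.2.2.1, pw p.1.2 ^ 19))
    (l := fun p : (ℕ × ℕ) × (ℝ × ℝ × List (List ℝ)) => p.2.2.2)
    (c := fun _ => (([] : List (List ℝ)), (1 : ℝ))) hstep
    ((PC.comp (f := fun p : (ℕ × ℕ) × (ℝ × ℝ × List (List ℝ)) => p.2.2.2) PC.arg.snd.snd
      pc_packW0).pair (pc_offs.pair (PC.arg.fst.pair (PC.arg.snd.fst.pair (pc_pw.pow 19)))))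
    PC.arg.snd.snd (PC.nil.pair PC.one)).fst

theorem pc_upd0 : PC 2 1 (fun p : (ℕ × ℕ) × (List (List ℝ) × List ℝ) =>
    upd p.1.1 p.1.2 p.2.1 p.2.2) :=
  PC.zipWith (g := fun q : (ℕ × ℕ) × ((List ℝ × ℝ) × (List ℝ × ℝ)) =>
      q.2.2.2 + dot q.1.1 q.2.2.1 q.2.1.1 / q.2.1.2)
    (e := fun p : (ℕ × ℕ) × (List (List ℝ) × List ℝ) => (p.2.2, pw p.1.2 ^ 8))
    (PC.arg.snd.snd.add ((pc_dot PC.arg.snd.fst PC.arg.fst.fst).div PC.arg.fst.snd))
    (PC.arg.snd.pair (pc_pw.pow 8)) PC.arg.fst PC.arg.snd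

theorem pc_mainStep : PC 2 1 (fun p : (ℕ × ℕ) × (ℕ × (List (List ℝ) × List ℝ)) =>
    mainStep p.1.1 p.1.2 p.2.2) :=
  (PC.comp (f := fun p : (ℕ × ℕ) × (ℕ × (List (List ℝ) × List ℝ)) =>
      ((1 : ℝ), (0 : ℝ), p.2.2.1)) (PC.one.pair (PC.zero.pair PC.arg.snd.fst))
    pc_prodRows0).pair (PC.comp (f := fun p : (ℕ × ℕ) × (ℕ × (List (List ℝ) × List ℝ)) =>
      p.2.2) PC.arg.snd pc_upd0)

theorem pc_roundRows : PC 2 1 (fun p : (ℕ × ℕ) × List (List ℝ) =>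
    roundRows p.1.1 p.1.2 p.2) := by
  have h1 : PC 0 1 (fun q : (ℕ × ℕ) × (ℝ × ℝ) => fl q.1.2 (q.2.1 * q.2.2 + q.2.1) - q.2.1) :=
    (pc_fl ((PC.arg.fst.mul PC.arg.snd).add PC.arg.fst)).sub PC.arg.fst
  have h2 : PC 1 1 (fun q : (ℕ × ℕ) × (ℝ × List ℝ) =>
      (q.2.2.take q.1.1).map fun x => fl q.1.2 (q.2.1 * x + q.2.1) - q.2.1) :=
    PC.mapTake h1 PC.arg.fst PC.arg.snd
  exact PC.mapTake h2 (pc_pw.pow 8) PC.arg

/-- the cost of the core of the algorithm -/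
theorem pc_core : PC 2 2 (fun p : (ℕ × ℕ) × (List (List ℝ) × List ℝ) =>
    core p.1.1 p.1.2 p.2.1 p.2.2) :=
  PC.loopM (e := fun _ : (ℕ × ℕ) × (List (List ℝ) × List ℝ) => (0 : ℕ))
    (x := fun p => (prodRows p.1.1 p.1.2 (-1) (pw p.1.2 ^ 16) (roundRows p.1.1 p.1.2 p.2.1),
      p.2.2)) pc_mainStep PC.natZero
    ((PC.comp (f := fun p : (ℕ × ℕ) × (List (List ℝ) × List ℝ) =>
        (-(1 : ℝ), pw p.1.2 ^ 16, roundRows p.1.1 p.1.2 p.2.1))
      (PC.one.neg.pair ((pc_pw.pow 16).pair (PC.comp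
        (f := fun p : (ℕ × ℕ) × (List (List ℝ) × List ℝ) => p.2.1) PC.arg.fst
        (pc_roundRows.mono le_rfl (by omega)))))
      (pc_prodRows0.mono le_rfl (by omega))).pair PC.arg.snd)

theorem pc_tmul {c : (ℕ × ℕ) × α → ℝ} {rows : (ℕ × ℕ) × α → List (List ℝ)}
    {y : (ℕ × ℕ) × α → List ℝ} (hc : PC (a + 2) b c) (hr : PC (a + 2) b rows)
    (hy : PC (a + 2) b y) : PC (a + 2) b (fun p => tmul p.1.1 (c p) (rows p) (y p)) :=
  PC.foldl (step := fun q : (ℕ × ℕ) × (ℝ × (List ℝ × (List ℝ × ℝ))) =>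
      axpy q.1.1 (q.2.1 * q.2.2.2.2) q.2.2.2.1 q.2.2.1) (e := c)
    (c := fun p => zeros p.1.1)
    (pc_axpy (PC.arg.fst.mul PC.arg.snd.snd.snd) PC.arg.snd.snd.fst PC.arg.snd.fst) hc
    (PC.zipWith (g := fun q : (ℕ × ℕ) × (ℕ × (List ℝ × ℝ)) => (q.2.2.1, q.2.2.2))
      (e := fun _ => 0) (PC.arg.snd.fst.pair PC.arg.snd.snd) PC.natZero hr hy) pc_zeros

end Pool.Agent.R563.RRam
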