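import Mathlib

set_option autoImplicit false

/-! # Singular values and averaged condition numbers -/

noncomputable section

namespace Pool.Agent.R563.RRam

/-- the `(i+1)`-st largest singular value -/
def sing {n : ℕ} (A : Matrix (Fin n) (Fin n) ℝ) (i : ℕ) : ℝ :=
  (Matrix.toEuclideanLin A).singularValues i

/-- the `p`-averaged condition number -/
def avgCond (p : ℝ) {n : ℕ} (A : Matrix (Fin n) (Fin n) ℝ) : ℝ :=
  (1 / (n : ℝ) * ∑ i ∈ Finset.range n, (sing A i / sing A (n - 1)) ^ p) ^ (1 / p)

end Pool.Agent.R563.RRam
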