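import Mathlib

set_option autoImplicit false

/-! # Norms of vectors and matrices -/

noncomputable section

namespace Pool.Agent.R563.RRam

open scoped Matrix.Norms.L2Operator
open Matrix

variable {n : ℕ}

/-- the Euclidean norm -/
def nv {n : ℕ} (v : Fin n → ℝ) : ℝ := ‖(WithLp.toLp 2 v : EuclideanSpace ℝ (Fin n))‖

theorem nv_nonneg (v : Fin n → ℝ) : 0 ≤ nv v := norm_nonneg _

theorem nv_add (u v : Fin n → ℝ) : nv (u + v) ≤ nv u + nv v := by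
  unfold nv
  rw [WithLp.toLp_add]
  exact norm_add_le _ _

theorem nv_neg (v : Fin n → ℝ) : nv (-v) = nv v := by
  unfold nv
  rw [WithLp.toLp_neg]
  exact norm_neg _

theorem nv_smul (c : ℝ) (v : Fin n → ℝ) : nv (c • v) = |c| * nv v := by
  unfold nv
  rw [WithLp.toLp_smul, norm_smul, Real.norm_eq_abs]

theorem nv_sub (u v : Fin n → ℝ) : nv (u - v) ≤ nv u + nv v := by
  rw [sub_eq_add_neg]
  exact (nv_add _ _).trans_eq (by rw [nv_neg])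

theorem nv_sq (v : Fin n → ℝ) : nv v ^ 2 = ∑ i, v i ^ 2 := by
  unfold nv
  rw [EuclideanSpace.norm_sq_eq]
  simp

theorem nv_sq' (v : Fin n → ℝ) : nv v ^ 2 = v ⬝ᵥ v := by
  rw [nv_sq]
  unfold dotProduct
  exact Finset.sum_congr rfl fun i _ => by ring

theorem nv_le {v : Fin n → ℝ} {c : ℝ} (hc : 0 ≤ c) (h : ∑ i, v i ^ 2 ≤ c ^ 2) : nv v ≤ c := by
  rw [← nv_sq] at h
  exact le_of_sq_le_sq h hc

theorem le_nv {v : Fin n → ℝ} {c : ℝ} (h : c ^ 2 ≤ ∑ i, v i ^ 2) : c ≤ nv v := by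
  rw [← nv_sq] at h
  exact le_of_sq_le_sq h (nv_nonneg v)

theorem abs_le_nv (v : Fin n → ℝ) (i : Fin n) : |v i| ≤ nv v := by
  apply le_nv
  rw [sq_abs]
  exact Finset.single_le_sum (f := fun i => v i ^ 2) (fun i _ => sq_nonneg _) (Finset.mem_univ i)

theorem nv_mulVec (A : Matrix (Fin n) (Fin n) ℝ) (v : Fin n → ℝ) :
    nv (A *ᵥ v) ≤ ‖A‖ * nv v := by
  have := Matrix.l2_opNorm_mulVec A (WithLp.toLp 2 v : EuclideanSpace ℝ (Fin n))
  exact this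

theorem opNorm_le {A : Matrix (Fin n) (Fin n) ℝ} {c : ℝ} (hc : 0 ≤ c)
    (h : ∀ v, nv (A *ᵥ v) ≤ c * nv v) : ‖A‖ ≤ c := by
  rw [Matrix.l2_opNorm_def]
  refine ContinuousLinearMap.opNorm_le_bound _ hc fun x => ?_
  exact h (WithLp.ofLp x)

theorem entry_le (A : Matrix (Fin n) (Fin n) ℝ) (i j : Fin n) : |A i j| ≤ ‖A‖ := by
  have h1 := nv_mulVec A (Pi.single j 1)
  have h2 : nv (Pi.single j (1 : ℝ) : Fin n → ℝ) = 1 := by
    have : nv (Pi.single j (1 : ℝ) : Fin n → ℝ) ^ 2 = 1 := by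
      rw [nv_sq, Finset.sum_eq_single j]
      · simp
      · intro k _ hk
        simp [Pi.single_apply, hk]
      · simp
    have h0 := nv_nonneg (Pi.single j (1 : ℝ) : Fin n → ℝ)
    nlinarith
  rw [h2, mul_one] at h1
  have h3 := abs_le_nv (A *ᵥ Pi.single j 1) i
  rw [Matrix.mulVec_single_one] at h3 h1
  exact h3.trans h1

theorem opNorm_le_of_entries {A : Matrix (Fin n) (Fin n) ℝ} {c : ℝ} (hc : 0 ≤ c)
    (h : ∀ i j, |A i j| ≤ c) : ‖A‖ ≤ n * c := by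
  refine opNorm_le (by positivity) fun v => ?_
  apply nv_le (mul_nonneg (by positivity) (nv_nonneg v))
  have h1 : ∀ i, (A *ᵥ v) i ^ 2 ≤ n * c ^ 2 * nv v ^ 2 := by
    intro i
    have h2 : (A *ᵥ v) i = ∑ j, A i j * v j := rfl
    rw [h2, nv_sq]
    calc (∑ j, A i j * v j) ^ 2 ≤ (∑ j, A i j ^ 2) * ∑ j, v j ^ 2 :=
          Finset.sum_mul_sq_le_sq_mul_sq _ _ _
      _ ≤ (n * c ^ 2) * ∑ j, v j ^ 2 := by
          refine mul_le_mul_of_nonneg_right ?_ (Finset.sum_nonneg fun j _ => sq_nonneg _)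
          calc ∑ j, A i j ^ 2 ≤ ∑ _j : Fin n, c ^ 2 := by
                refine Finset.sum_le_sum fun j _ => ?_
                rw [← sq_abs]
                exact pow_le_pow_left₀ (abs_nonneg _) (h i j) 2
            _ = n * c ^ 2 := by simp
  calc ∑ i, (A *ᵥ v) i ^ 2 ≤ ∑ _i : Fin n, n * c ^ 2 * nv v ^ 2 :=
        Finset.sum_le_sum fun i _ => h1 i
    _ = (n * c * nv v) ^ 2 := by
        simp
        ring

/-- a symmetric matrix with quadratic form between `0` and `c` has norm at most `c` -/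
theorem opNorm_le_of_form {S : Matrix (Fin n) (Fin n) ℝ} (hS : Sᵀ = S) {c : ℝ} (hc : 0 ≤ c)
    (h0 : ∀ x, 0 ≤ x ⬝ᵥ (S *ᵥ x)) (h1 : ∀ x, x ⬝ᵥ (S *ᵥ x) ≤ c * nv x ^ 2) : ‖S‖ ≤ c := by
  refine opNorm_le hc fun x => ?_
  have hsymm : ∀ u v : Fin n → ℝ, u ⬝ᵥ (S *ᵥ v) = v ⬝ᵥ (S *ᵥ u) := by
    intro u v
    rw [Matrix.dotProduct_mulVec, ← Matrix.mulVec_transpose, hS, dotProduct_comm]
  have hcs : ∀ u v : Fin n → ℝ, (u ⬝ᵥ (S *ᵥ v)) ^ 2 ≤ (u ⬝ᵥ (S *ᵥ u)) * (v ⬝ᵥ (S *ᵥ v)) := by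
    intro u v
    have hq : ∀ t : ℝ, 0 ≤ (v ⬝ᵥ (S *ᵥ v)) * (t * t) + (2 * (u ⬝ᵥ (S *ᵥ v))) * t
        + (u ⬝ᵥ (S *ᵥ u)) := by
      intro t
      have := h0 (u + t • v)
      rw [Matrix.mulVec_add, Matrix.mulVec_smul, dotProduct_add, add_dotProduct,
        add_dotProduct, dotProduct_smul, dotProduct_smul, smul_dotProduct, smul_dotProduct,
        hsymm v u] at this
      simp only [smul_eq_mul] at this
      linarith
    have hd := discrim_le_zero hq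
    unfold discrim at hd
    nlinarith
  have h2 := hcs (S *ᵥ x) x
  have h3 : (S *ᵥ x) ⬝ᵥ (S *ᵥ x) = nv (S *ᵥ x) ^ 2 := (nv_sq' _).symm
  rw [h3] at h2
  have h4 := h1 (S *ᵥ x)
  have h5 := h1 x
  have h6 := h0 x
  have h7 := h0 (S *ᵥ x)
  set a := nv (S *ᵥ x) with ha
  set b := nv x with hb
  have ha0 : 0 ≤ a := nv_nonneg _
  have hb0 : 0 ≤ b := nv_nonneg _
  have h8 : (a ^ 2) ^ 2 ≤ (c * a ^ 2) * (c * b ^ 2) :=
    h2.trans (mul_le_mul h4 h5 h6 (by positivity))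
  rcases eq_or_lt_of_le ha0 with h9 | h9
  · rw [← h9]
    positivity
  · have h10 : a ^ 2 ≤ (c * b) ^ 2 := by
      have h11 : 0 < a ^ 2 := by positivity
      have h12 : a ^ 2 * a ^ 2 ≤ a ^ 2 * (c * b) ^ 2 := by nlinarith
      exact le_of_mul_le_mul_left h12 h11
    exact le_of_sq_le_sq h10 (by positivity)

theorem norm_transpose (A : Matrix (Fin n) (Fin n) ℝ) : ‖Aᵀ‖ = ‖A‖ := by
  rw [← Matrix.conjTranspose_eq_transpose_of_trivial]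
  exact Matrix.l2_opNorm_conjTranspose A

theorem nv_transpose_sq (M : Matrix (Fin n) (Fin n) ℝ) (x : Fin n → ℝ) :
    x ⬝ᵥ ((M * Mᵀ) *ᵥ x) = nv (Mᵀ *ᵥ x) ^ 2 := by
  rw [nv_sq', ← Matrix.mulVec_mulVec, Matrix.dotProduct_mulVec, ← Matrix.mulVec_transpose]

/-- the norm of `1 - M Mᵀ` -/
theorem norm_one_sub {M : Matrix (Fin n) (Fin n) ℝ} {s : ℝ} (hs : s ≤ 1) (hM : ‖M‖ ≤ 1)
    (h : ∀ x, s * nv x ^ 2 ≤ nv (Mᵀ *ᵥ x) ^ 2) : ‖1 - M * Mᵀ‖ ≤ 1 - s := by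
  have e : ∀ x : Fin n → ℝ, x ⬝ᵥ ((1 - M * Mᵀ) *ᵥ x) = nv x ^ 2 - nv (Mᵀ *ᵥ x) ^ 2 := by
    intro x
    rw [Matrix.sub_mulVec, Matrix.one_mulVec, dotProduct_sub, nv_transpose_sq, nv_sq' x]
  refine opNorm_le_of_form ?_ (by linarith) (fun x => ?_) fun x => ?_
  · simp [Matrix.transpose_mul]
  · rw [e]
    have h1 := nv_mulVec Mᵀ x
    rw [norm_transpose] at h1
    have h2 : nv (Mᵀ *ᵥ x) ≤ nv x := h1.trans (by nlinarith [nv_nonneg x])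
    nlinarith [nv_nonneg x, nv_nonneg (Mᵀ *ᵥ x)]
  · rw [e]
    linarith [h x]

end Pool.Agent.R563.RRam
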