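import Pool.Agent.R563.RRam.Spec
import Pool.Agent.R563.RRam.Norms

set_option autoImplicit false

/-! # Correctness of the core of the algorithm -/

noncomputable section

namespace Pool.Agent.R563.RRam

open scoped Matrix.Norms.L2Operator
open Matrix

variable {n : ℕ}

/-- the rounded matrix -/
def Pz (m : ℕ) (M : Matrix (Fin n) (Fin n) ℝ) : Matrix (Fin n) (Fin n) ℤ :=
  Matrix.of fun i j => ⌊pw m ^ 8 * M i j⌋

/-- integer matrix as a real matrix -/
def rc (R : Matrix (Fin n) (Fin n) ℤ) : Matrix (Fin n) (Fin n) ℝ := Matrix.of fun i j => (R i j : ℝ)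

/-- the integer matrices computed by the algorithm -/
def Rz (m : ℕ) (M : Matrix (Fin n) (Fin n) ℝ) : ℕ → Matrix (Fin n) (Fin n) ℤ
  | 0 => Matrix.of fun i j => ⌊(((if i = j then (2 : ℤ) ^ (16 * m) else 0)
      - ∑ k, Pz m M i k * Pz m M j k : ℤ) : ℝ) / pw m ^ 8⌋
  | (j + 1) => Matrix.of fun i i' =>
      ⌊((∑ k, Rz m M j i k * Rz m M j i' k : ℤ) : ℝ) / pw m ^ 8⌋

/-- the scaled matrices -/
def rho (m : ℕ) (M : Matrix (Fin n) (Fin n) ℝ) (j : ℕ) : Matrix (Fin n) (Fin n) ℝ :=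
  (pw m ^ 8)⁻¹ • rc (Rz m M j)

/-- the vectors -/
def yv (m : ℕ) (M : Matrix (Fin n) (Fin n) ℝ) (b : Fin n → ℝ) : ℕ → Fin n → ℝ
  | 0 => b
  | (j + 1) => yv m M b j + rho m M j *ᵥ yv m M b j

/-- the exact vectors -/
def ys (M : Matrix (Fin n) (Fin n) ℝ) (b : Fin n → ℝ) : ℕ → Fin n → ℝ
  | 0 => b
  | (j + 1) => ys M b j + ((1 - M * Mᵀ) ^ (2 ^ j)) *ᵥ ys M b j

theorem Rz_symm (m : ℕ) (M : Matrix (Fin n) (Fin n) ℝ) (j : ℕ) : (Rz m M j)ᵀ = Rz m M j := by
  cases j with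
  | zero =>
    ext i i'
    simp only [Rz, Matrix.transpose_apply, Matrix.of_apply]
    have h1 : (if i' = i then (2 : ℤ) ^ (16 * m) else 0) = if i = i' then 2 ^ (16 * m) else 0 := by
      simp only [eq_comm]
    have h2 : ∑ k, Pz m M i' k * Pz m M i k = ∑ k, Pz m M i k * Pz m M i' k :=
      Finset.sum_congr rfl fun k _ => mul_comm _ _
    rw [h1, h2]
  | succ j =>
    ext i i'
    simp only [Rz, Matrix.transpose_apply, Matrix.of_apply]
    have h2 : ∑ k, Rz m M j i' k * Rz m M j i k = ∑ k, Rz m M j i k * Rz m M j i' k :=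
      Finset.sum_congr rfl fun k _ => mul_comm _ _
    rw [h2]

theorem rc_symm (m : ℕ) (M : Matrix (Fin n) (Fin n) ℝ) (j : ℕ) :
    (rho m M j)ᵀ = rho m M j := by
  unfold rho
  rw [Matrix.transpose_smul]
  congr 1
  ext i i'
  have := congrFun (congrFun (Rz_symm m M j) i) i'
  rw [Matrix.transpose_apply] at this
  simp [rc, this]

/-- error of one rounded squaring -/
theorem floor_entry (g : ℤ) {Q : ℝ} (hQ : 0 < Q) :
    |Q⁻¹ * ((⌊(g : ℝ) / Q⌋ : ℤ) : ℝ) - (g : ℝ) / Q ^ 2| ≤ Q⁻¹ := by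
  have h1 := Int.floor_le ((g : ℝ) / Q)
  have h2 := Int.lt_floor_add_one ((g : ℝ) / Q)
  have e : Q⁻¹ * ((⌊(g : ℝ) / Q⌋ : ℤ) : ℝ) - (g : ℝ) / Q ^ 2
      = Q⁻¹ * (((⌊(g : ℝ) / Q⌋ : ℤ) : ℝ) - (g : ℝ) / Q) := by
    field_simp
  rw [e, abs_mul, abs_of_pos (inv_pos.2 hQ)]
  have h3 : |((⌊(g : ℝ) / Q⌋ : ℤ) : ℝ) - (g : ℝ) / Q| ≤ 1 := by
    rw [abs_le]
    constructor <;> linarith
  calc Q⁻¹ * |((⌊(g : ℝ) / Q⌋ : ℤ) : ℝ) - (g : ℝ) / Q| ≤ Q⁻¹ * 1 := by
        apply mul_le_mul_of_nonneg_left h3 (by positivity)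
    _ = Q⁻¹ := mul_one _

theorem rho_zero {m : ℕ} (M : Matrix (Fin n) (Fin n) ℝ) (hM : ‖M‖ ≤ 1)
    (hnm : (n : ℝ) ≤ pw m) : ‖rho m M 0 - (1 - M * Mᵀ)‖ ≤ 4 * (n * (pw m ^ 8)⁻¹) := by
  set Q := pw m ^ 8 with hQ
  have hp := pw_pos m
  have hQ0 : 0 < Q := by positivity
  have hQ1 : 1 ≤ pw m := by rw [pw_eq]; exact one_le_pow₀ (by norm_num)
  set H : Matrix (Fin n) (Fin n) ℝ := Q⁻¹ • rc (Pz m M) - M with hH
  have h1 : ‖H‖ ≤ n * Q⁻¹ := by
    refine opNorm_le_of_entries (by positivity) fun i j => ?_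
    have e : H i j = Q⁻¹ * ((⌊Q * M i j⌋ : ℤ) - Q * M i j) := by
      simp only [hH, rc, Pz, Matrix.sub_apply, Matrix.smul_apply, Matrix.of_apply, smul_eq_mul]
      rw [← hQ]
      field_simp
    rw [e, abs_mul, abs_of_pos (inv_pos.2 hQ0)]
    have h2 := Int.floor_le (Q * M i j)
    have h3 := Int.lt_floor_add_one (Q * M i j)
    have h4 : |((⌊Q * M i j⌋ : ℤ) : ℝ) - Q * M i j| ≤ 1 := by
      rw [abs_le]; constructor <;> linarith
    calc Q⁻¹ * |((⌊Q * M i j⌋ : ℤ) : ℝ) - Q * M i j| ≤ Q⁻¹ * 1 :=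
          mul_le_mul_of_nonneg_left h4 (by positivity)
      _ = Q⁻¹ := mul_one _
  -- the error of the floor
  have h5 : ‖rho m M 0 - (1 - (M + H) * (M + H)ᵀ)‖ ≤ n * Q⁻¹ := by
    refine opNorm_le_of_entries (by positivity) fun i j => ?_
    have e1 : M + H = Q⁻¹ • rc (Pz m M) := by rw [hH]; abel
    have e2 : (1 - (M + H) * (M + H)ᵀ) i j
        = (((if i = j then (2 : ℤ) ^ (16 * m) else 0)
          - ∑ k, Pz m M i k * Pz m M j k : ℤ) : ℝ) / Q ^ 2 := by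
      rw [e1]
      simp only [Matrix.sub_apply, Matrix.mul_apply, Matrix.transpose_apply, Matrix.smul_apply,
        smul_eq_mul, rc, Matrix.of_apply, Matrix.one_apply]
      push_cast
      rw [sub_div, Finset.sum_div]
      congr 1
      · have e3 : (2 : ℝ) ^ (16 * m) = Q ^ 2 := by
          rw [hQ, pw_eq, ← pow_mul, ← pow_mul]
          congr 1
          ring
        split_ifs
        · rw [e3, div_self (by positivity)]
        · simp
      · refine Finset.sum_congr rfl fun k _ => ?_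
        field_simp
    rw [Matrix.sub_apply, e2]
    have e4 : rho m M 0 i j = Q⁻¹ * ((⌊(((if i = j then (2 : ℤ) ^ (16 * m) else 0)
      - ∑ k, Pz m M i k * Pz m M j k : ℤ) : ℝ) / Q⌋ : ℤ) : ℝ) := by
      simp only [rho, rc, Rz, Matrix.smul_apply, Matrix.of_apply, smul_eq_mul]
      rw [← hQ]
    rw [e4]
    exact floor_entry _ hQ0
  have e5 : rho m M 0 - (1 - M * Mᵀ) = (rho m M 0 - (1 - (M + H) * (M + H)ᵀ))
      - (M * Hᵀ + H * Mᵀ + H * Hᵀ) := by
    rw [Matrix.transpose_add]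
    noncomm_ring
  rw [e5]
  have h6 : (n : ℝ) * Q⁻¹ ≤ 1 := by
    rw [← div_eq_mul_inv, div_le_one hQ0, hQ]
    calc (n : ℝ) ≤ pw m := hnm
      _ = pw m ^ 1 := (pow_one _).symm
      _ ≤ pw m ^ 8 := pow_le_pow_right₀ hQ1 (by norm_num)
  have hH0 := norm_nonneg H
  have hM0 := norm_nonneg M
  have h7 : ‖M * Hᵀ + H * Mᵀ + H * Hᵀ‖ ≤ 3 * (n * Q⁻¹) := by
    calc ‖M * Hᵀ + H * Mᵀ + H * Hᵀ‖ ≤ ‖M * Hᵀ‖ + ‖H * Mᵀ‖ + ‖H * Hᵀ‖ := norm_add₃_le
      _ ≤ ‖M‖ * ‖Hᵀ‖ + ‖H‖ * ‖Mᵀ‖ + ‖H‖ * ‖Hᵀ‖ := by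
          gcongr <;> exact norm_mul_le _ _
      _ = ‖M‖ * ‖H‖ + ‖H‖ * ‖M‖ + ‖H‖ * ‖H‖ := by rw [norm_transpose, norm_transpose]
      _ ≤ 3 * (n * Q⁻¹) := by nlinarith
  calc _ ≤ ‖rho m M 0 - (1 - (M + H) * (M + H)ᵀ)‖ + ‖M * Hᵀ + H * Mᵀ + H * Hᵀ‖ :=
        norm_sub_le _ _
    _ ≤ n * Q⁻¹ + 3 * (n * Q⁻¹) := add_le_add h5 h7
    _ = 4 * (n * Q⁻¹) := by ring

theorem rho_succ {m : ℕ} (M : Matrix (Fin n) (Fin n) ℝ) (j : ℕ) :
    ‖rho m M (j + 1) - rho m M j * rho m M j‖ ≤ n * (pw m ^ 8)⁻¹ := by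
  set Q := pw m ^ 8 with hQ
  have hp := pw_pos m
  have hQ0 : 0 < Q := by positivity
  refine opNorm_le_of_entries (by positivity) fun i i' => ?_
  have e2 : (rho m M j * rho m M j) i i'
      = ((∑ k, Rz m M j i k * Rz m M j i' k : ℤ) : ℝ) / Q ^ 2 := by
    nth_rewrite 2 [← rc_symm m M j]
    simp only [rho, Matrix.mul_apply, Matrix.transpose_apply, Matrix.smul_apply,
      smul_eq_mul, rc, Matrix.of_apply]
    push_cast
    rw [Finset.sum_div]
    refine Finset.sum_congr rfl fun k _ => ?_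
    rw [← hQ]
    field_simp
  rw [Matrix.sub_apply, e2]
  have e4 : rho m M (j + 1) i i' = Q⁻¹ * ((⌊((∑ k, Rz m M j i k * Rz m M j i' k : ℤ) : ℝ)
      / Q⌋ : ℤ) : ℝ) := by
    simp only [rho, rc, Rz, Matrix.smul_apply, Matrix.of_apply, smul_eq_mul]
    rw [← hQ]
  rw [e4]
  exact floor_entry _ hQ0

theorem norm_S {M : Matrix (Fin n) (Fin n) ℝ} (hM : ‖M‖ ≤ 1) : ‖1 - M * Mᵀ‖ ≤ 1 := by
  have := norm_one_sub (s := 0) zero_le_one hM (fun x => by
    rw [zero_mul]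
    positivity)
  simpa using this

theorem norm_S_pow {M : Matrix (Fin n) (Fin n) ℝ} (hM : ‖M‖ ≤ 1) (k : ℕ) :
    ‖(1 - M * Mᵀ) ^ (k + 1)‖ ≤ 1 := by
  calc ‖(1 - M * Mᵀ) ^ (k + 1)‖ ≤ ‖1 - M * Mᵀ‖ ^ (k + 1) := norm_pow_le' _ (by omega)
    _ ≤ 1 := pow_le_one₀ (norm_nonneg _) (norm_S hM)

/-- the error after `j` squarings -/
theorem rho_err {m : ℕ} (M : Matrix (Fin n) (Fin n) ℝ) (hM : ‖M‖ ≤ 1) (hm : 2 ≤ m)
    (hnm : (n : ℝ) ≤ pw m) : ∀ j ≤ m,
    ‖rho m M j - (1 - M * Mᵀ) ^ (2 ^ j)‖ ≤ 4 ^ (j + 1) * (n * (pw m ^ 8)⁻¹) := by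
  have hp := pw_pos m
  have h4 : (4 : ℝ) ≤ pw m := by
    rw [pw_eq]
    calc (4 : ℝ) = 2 ^ 2 := by norm_num
      _ ≤ 2 ^ m := pow_le_pow_right₀ (by norm_num) hm
  set e := (n : ℝ) * (pw m ^ 8)⁻¹ with he
  have he0 : 0 ≤ e := by positivity
  -- all the errors are at most `1`
  have hsmall : ∀ j ≤ m, 4 ^ (j + 1) * e ≤ 1 := by
    intro j hj
    have h1 : (4 : ℝ) ^ (j + 1) ≤ 4 * pw m ^ 2 := by
      rw [pow_succ, mul_comm]
      apply mul_le_mul_of_nonneg_left _ (by norm_num)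
      rw [pw_eq, ← pow_mul, mul_comm, pow_mul]
      norm_num
      exact pow_le_pow_right₀ (by norm_num) hj
    rw [he, ← mul_assoc, ← div_eq_mul_inv, div_le_one (by positivity)]
    calc (4 : ℝ) ^ (j + 1) * n ≤ 4 * pw m ^ 2 * pw m := by gcongr
      _ ≤ pw m * pw m ^ 2 * pw m := by gcongr
      _ = pw m ^ 4 := by ring
      _ ≤ pw m ^ 8 := pow_le_pow_right₀ (by linarith) (by norm_num)
  intro j
  induction j with
  | zero =>
    intro _
    simpa using rho_zero M hM hnm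
  | succ j ih =>
    intro hj
    have h1 := ih (by omega)
    have h2 := hsmall j (by omega)
    set S := (1 - M * Mᵀ) ^ (2 ^ j) with hS
    have hS1 : ‖S‖ ≤ 1 := by
      obtain ⟨k, hk⟩ : ∃ k, 2 ^ j = k + 1 := ⟨2 ^ j - 1, by
        have := Nat.one_le_two_pow (n := j); omega⟩
      rw [hS, hk]
      exact norm_S_pow hM k
    have e1 : (1 - M * Mᵀ) ^ (2 ^ (j + 1)) = S * S := by
      rw [hS, ← pow_add]
      congr 1
      ring
    rw [e1]
    set E := rho m M j - S with hE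
    have e2 : rho m M (j + 1) - S * S
        = (rho m M (j + 1) - rho m M j * rho m M j) + (S * E + E * S + E * E) := by
      rw [hE]
      noncomm_ring
    rw [e2]
    have hE0 := norm_nonneg E
    have hS0 := norm_nonneg S
    have h3 : ‖S * E + E * S + E * E‖ ≤ 3 * (4 ^ (j + 1) * e) := by
      calc ‖S * E + E * S + E * E‖ ≤ ‖S * E‖ + ‖E * S‖ + ‖E * E‖ := norm_add₃_le
        _ ≤ ‖S‖ * ‖E‖ + ‖E‖ * ‖S‖ + ‖E‖ * ‖E‖ := by gcongr <;> exact norm_mul_le _ _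
        _ ≤ 3 * (4 ^ (j + 1) * e) := by
            have hE1 : ‖E‖ ≤ 1 := h1.trans h2
            nlinarith
    calc _ ≤ ‖rho m M (j + 1) - rho m M j * rho m M j‖ + ‖S * E + E * S + E * E‖ :=
          norm_add_le _ _
      _ ≤ e + 3 * (4 ^ (j + 1) * e) := add_le_add (rho_succ M j) h3
      _ ≤ 4 ^ (j + 1 + 1) * e := by
          have h5 : (1 : ℝ) ≤ 4 ^ (j + 1) := one_le_pow₀ (by norm_num)
          rw [pow_succ (4 : ℝ) (j + 1)]
          nlinarith

theorem four_pow_le {m : ℕ} : (4 : ℝ) ^ m = pw m ^ 2 := by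
  rw [pw_eq, ← pow_mul, mul_comm, pow_mul]
  norm_num

/-- the error at the end -/
theorem err_small {m : ℕ} (hm : 2 ≤ m) (hnm : (n : ℝ) ≤ pw m) :
    4 ^ (m + 1) * (n * (pw m ^ 8)⁻¹) ≤ (pw m ^ 4)⁻¹ := by
  have hp := pw_pos m
  have h4 : (4 : ℝ) ≤ pw m := by
    rw [pw_eq]
    calc (4 : ℝ) = 2 ^ 2 := by norm_num
      _ ≤ 2 ^ m := pow_le_pow_right₀ (by norm_num) hm
  rw [pow_succ, four_pow_le]
  have e : (pw m ^ 4)⁻¹ = pw m * pw m ^ 2 * pw m * (pw m ^ 8)⁻¹ := by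
    field_simp
  rw [e]
  calc pw m ^ 2 * 4 * (n * (pw m ^ 8)⁻¹) = 4 * pw m ^ 2 * n * (pw m ^ 8)⁻¹ := by ring
    _ ≤ pw m * pw m ^ 2 * pw m * (pw m ^ 8)⁻¹ := by gcongr

theorem Rz_bound {m : ℕ} (M : Matrix (Fin n) (Fin n) ℝ) (hM : ‖M‖ ≤ 1) (hm : 2 ≤ m)
    (hnm : (n : ℝ) ≤ pw m) (j : ℕ) (hj : j ≤ m) (i i' : Fin n) :
    |(Rz m M j i i' : ℝ)| ≤ 2 * pw m ^ 8 := by
  have hp := pw_pos m
  have h1 := rho_err M hM hm hnm j hj
  have h2 : (4 : ℝ) ^ (j + 1) * (n * (pw m ^ 8)⁻¹) ≤ 1 := by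
    calc (4 : ℝ) ^ (j + 1) * (n * (pw m ^ 8)⁻¹) ≤ 4 ^ (m + 1) * (n * (pw m ^ 8)⁻¹) := by
          apply mul_le_mul_of_nonneg_right _ (by positivity)
          exact pow_le_pow_right₀ (by norm_num) (by omega)
      _ ≤ (pw m ^ 4)⁻¹ := err_small hm hnm
      _ ≤ 1 := by
          apply inv_le_one_of_one_le₀
          rw [pw_eq]
          exact one_le_pow₀ (one_le_pow₀ (by norm_num))
  obtain ⟨k, hk⟩ : ∃ k, 2 ^ j = k + 1 := ⟨2 ^ j - 1, by
    have := Nat.one_le_two_pow (n := j); omega⟩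
  have h3 : ‖rho m M j‖ ≤ 2 := by
    calc ‖rho m M j‖ = ‖(rho m M j - (1 - M * Mᵀ) ^ (2 ^ j)) + (1 - M * Mᵀ) ^ (2 ^ j)‖ := by
          rw [sub_add_cancel]
      _ ≤ ‖rho m M j - (1 - M * Mᵀ) ^ (2 ^ j)‖ + ‖(1 - M * Mᵀ) ^ (2 ^ j)‖ := norm_add_le _ _
      _ ≤ 1 + 1 := by
          apply add_le_add (h1.trans h2)
          rw [hk]
          exact norm_S_pow hM k
      _ = 2 := by norm_num
  have h4 := (entry_le (rho m M j) i i').trans h3
  simp only [rho, rc, Matrix.smul_apply, Matrix.of_apply, smul_eq_mul] at h4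
  rw [abs_mul, abs_of_pos (by positivity)] at h4
  rw [inv_mul_le_iff₀ (by positivity)] at h4
  linarith

/-- the lists computed by the algorithm -/
theorem mainStep_iter {m : ℕ} (M : Matrix (Fin n) (Fin n) ℝ) (hM : ‖M‖ ≤ 1) (hm : 2 ≤ m)
    (hnm : (n : ℝ) ≤ pw m) (b : Fin n → ℝ) : ∀ j ≤ m,
    (mainStep n m)^[j] (prodRows n m (-1) (pw m ^ 16) (roundRows n m (rowsOf M)), List.ofFn b)
      = (rowsOf (rc (Rz m M j)), List.ofFn (yv m M b j)) := by
  have hp := pw_pos m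
  have h4 : (4 : ℝ) ≤ pw m := by
    rw [pw_eq]
    calc (4 : ℝ) = 2 ^ 2 := by norm_num
      _ ≤ 2 ^ m := pow_le_pow_right₀ (by norm_num) hm
  have hent : ∀ i j, |M i j| ≤ 1 := fun i j => (entry_le M i j).trans hM
  have h818 : (n : ℝ) * (2 * pw m ^ 8) ^ 2 ≤ pw m ^ 18 := by
    calc (n : ℝ) * (2 * pw m ^ 8) ^ 2 = 4 * n * pw m ^ 16 := by ring
      _ ≤ pw m * pw m * pw m ^ 16 := by gcongr
      _ = pw m ^ 18 := by ring
  intro j
  induction j with
  | zero =>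
    intro _
    simp only [Function.iterate_zero, id]
    refine Prod.ext ?_ rfl
    simp only
    rw [roundRows_spec (by omega) M hent]
    have h1 := prodRows_spec hm (-1) (pw m ^ 16)
      (Matrix.of fun i j => ((⌊pw m ^ 8 * M i j⌋ : ℤ) : ℝ))
      (fun i j => (if i = j then (2 : ℤ) ^ (16 * m) else 0) - ∑ k, Pz m M i k * Pz m M j k)
      (fun i j => by
        push_cast
        simp only [Pz, Matrix.of_apply]
        have e3 : (2 : ℝ) ^ (16 * m) = pw m ^ 16 := by rw [pw_eq, ← pow_mul, mul_comm]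
        rw [e3]
        ring)
      (fun i j => by
        have hPz : ∀ i k, |(Pz m M i k : ℝ)| ≤ 2 * pw m ^ 8 := by
          intro i k
          simp only [Pz, Matrix.of_apply]
          have h8 : 1 ≤ pw m ^ 8 := one_le_pow₀ (by linarith)
          have h2 := Int.floor_le (pw m ^ 8 * M i k)
          have h3 := Int.lt_floor_add_one (pw m ^ 8 * M i k)
          obtain ⟨h5, h6⟩ := abs_le.1 (hent i k)
          rw [abs_le]
          constructor <;> nlinarith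
        push_cast
        have e3 : (2 : ℝ) ^ (16 * m) = pw m ^ 16 := by rw [pw_eq, ← pow_mul, mul_comm]
        rw [e3]
        have h7 : |(if i = j then pw m ^ 16 else (0 : ℝ))| ≤ pw m ^ 16 := by
          split_ifs
          · rw [abs_of_pos (by positivity)]
          · rw [abs_zero]; positivity
        have hPz1 : ∀ i k, |(Pz m M i k : ℝ)| ≤ pw m ^ 8 := by
          intro i k
          simp only [Pz, Matrix.of_apply]
          obtain ⟨h5, h6⟩ := abs_le.1 (hent i k)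
          have e8 : pw m ^ 8 = ((2 ^ (8 * m) : ℤ) : ℝ) := by
            push_cast
            rw [pw_eq, ← pow_mul, mul_comm m 8]
          have hpos : 0 < pw m ^ 8 := by positivity
          rw [abs_le]
          constructor
          · have : -(2 ^ (8 * m) : ℤ) ≤ ⌊pw m ^ 8 * M i k⌋ := by
              rw [Int.le_floor]
              push_cast
              rw [show (2 : ℝ) ^ (8 * m) = pw m ^ 8 by rw [pw_eq, ← pow_mul, mul_comm m 8]]
              nlinarith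
            have h10 : ((-(2 ^ (8 * m)) : ℤ) : ℝ) ≤ ((⌊pw m ^ 8 * M i k⌋ : ℤ) : ℝ) :=
              Int.cast_le.2 this
            rw [Int.cast_neg, ← e8] at h10
            exact h10
          · have h9 : ((⌊pw m ^ 8 * M i k⌋ : ℤ) : ℝ) ≤ pw m ^ 8 * M i k := Int.floor_le _
            nlinarith
        have h8 : |∑ k, (Pz m M i k : ℝ) * (Pz m M j k : ℝ)| ≤ n * pw m ^ 16 := by
          calc |∑ k, (Pz m M i k : ℝ) * (Pz m M j k : ℝ)|
              ≤ ∑ k, |(Pz m M i k : ℝ) * (Pz m M j k : ℝ)| := Finset.abs_sum_le_sum_abs _ _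
            _ ≤ ∑ _k : Fin n, pw m ^ 16 := by
                refine Finset.sum_le_sum fun k _ => ?_
                rw [abs_mul]
                calc |(Pz m M i k : ℝ)| * |(Pz m M j k : ℝ)| ≤ pw m ^ 8 * pw m ^ 8 :=
                      mul_le_mul (hPz1 i k) (hPz1 j k) (abs_nonneg _) (by positivity)
                  _ = pw m ^ 16 := by ring
            _ = n * pw m ^ 16 := by simp
        calc _ ≤ |(if i = j then pw m ^ 16 else (0 : ℝ))|
              + |∑ k, (Pz m M i k : ℝ) * (Pz m M j k : ℝ)| := abs_sub _ _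
          _ ≤ pw m ^ 16 + n * pw m ^ 16 := add_le_add h7 h8
          _ ≤ pw m ^ 18 := by
              have : pw m ^ 18 = pw m * pw m * pw m ^ 16 := by ring
              rw [this]
              have h16 : 0 < pw m ^ 16 := by positivity
              nlinarith [mul_pos hp h16])
    rw [h1]
    rfl
  | succ j ih =>
    intro hj
    rw [Function.iterate_succ_apply', ih (by omega)]
    unfold mainStep
    refine Prod.ext ?_ ?_
    · simp only
      have hb := Rz_bound M hM hm hnm j (by omega)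
      have h1 := prodRows_spec hm 1 0 (rc (Rz m M j))
        (fun i i' => ∑ k, Rz m M j i k * Rz m M j i' k)
        (fun i i' => by
          push_cast
          simp [rc])
        (fun i i' => by
          push_cast
          calc |∑ k, (Rz m M j i k : ℝ) * (Rz m M j i' k : ℝ)|
              ≤ ∑ k, |(Rz m M j i k : ℝ) * (Rz m M j i' k : ℝ)| := Finset.abs_sum_le_sum_abs _ _
            _ ≤ ∑ _k : Fin n, (2 * pw m ^ 8) ^ 2 := by
                refine Finset.sum_le_sum fun k _ => ?_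
                rw [abs_mul, sq]
                exact mul_le_mul (hb i k) (hb i' k) (abs_nonneg _) (by positivity)
            _ = n * (2 * pw m ^ 8) ^ 2 := by simp
            _ ≤ pw m ^ 18 := h818)
      rw [h1]
      rfl
    · simp only
      rw [upd_spec]
      congr 1
      funext i
      simp only [yv, Pi.add_apply, rho, Matrix.mulVec, dotProduct, Matrix.smul_apply,
        smul_eq_mul]
      congr 1
      rw [Finset.sum_div]
      refine Finset.sum_congr rfl fun k _ => ?_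
      ring

theorem ys_spec (M : Matrix (Fin n) (Fin n) ℝ) (b : Fin n → ℝ) (j : ℕ) :
    (M * Mᵀ) *ᵥ ys M b j = b - ((1 - M * Mᵀ) ^ (2 ^ j)) *ᵥ b := by
  induction j with
  | zero => simp [ys, Matrix.sub_mulVec]
  | succ j ih =>
    simp only [ys]
    generalize M * Mᵀ = T at *
    set S := (1 - T) with hS
    have e1 : T = 1 - S := by rw [hS]; abel
    have e2 : T * S ^ (2 ^ j) = S ^ (2 ^ j) * T := by
      rw [e1]
      have : Commute (1 - S) (S ^ 2 ^ j) :=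
        (Commute.sub_left (Commute.one_left _) ((Commute.refl S).pow_right _))
      exact this
    rw [Matrix.mulVec_add, Matrix.mulVec_mulVec, e2, ← Matrix.mulVec_mulVec, ih,
      Matrix.mulVec_sub, Matrix.mulVec_mulVec, ← pow_add]
    have e3 : 2 ^ j + 2 ^ j = 2 ^ (j + 1) := by ring
    rw [e3]
    abel

theorem nv_ys {M : Matrix (Fin n) (Fin n) ℝ} (hM : ‖M‖ ≤ 1) (b : Fin n → ℝ) (j : ℕ) :
    nv (ys M b j) ≤ 2 ^ j * nv b := by
  induction j with
  | zero => simp [ys]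
  | succ j ih =>
    simp only [ys]
    obtain ⟨k, hk⟩ : ∃ k, 2 ^ j = k + 1 := ⟨2 ^ j - 1, by
      have := Nat.one_le_two_pow (n := j); omega⟩
    have h1 : nv (((1 - M * Mᵀ) ^ (2 ^ j)) *ᵥ ys M b j) ≤ nv (ys M b j) := by
      refine (nv_mulVec _ _).trans ?_
      have := norm_S_pow hM k
      rw [← hk] at this
      nlinarith [nv_nonneg (ys M b j)]
    calc _ ≤ nv (ys M b j) + nv (((1 - M * Mᵀ) ^ (2 ^ j)) *ᵥ ys M b j) := nv_add _ _
      _ ≤ 2 ^ j * nv b + 2 ^ j * nv b := add_le_add ih (h1.trans ih)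
      _ = 2 ^ (j + 1) * nv b := by ring

theorem yv_err {m : ℕ} (M : Matrix (Fin n) (Fin n) ℝ) (hM : ‖M‖ ≤ 1) (hm : 2 ≤ m)
    (hnm : (n : ℝ) ≤ pw m) (b : Fin n → ℝ) : ∀ j ≤ m,
    nv (yv m M b j - ys M b j) ≤ 4 ^ j * (pw m ^ 4)⁻¹ * nv b := by
  have hp := pw_pos m
  have hp1 : 1 ≤ pw m := by rw [pw_eq]; exact one_le_pow₀ (by norm_num)
  set e := (pw m ^ 4)⁻¹ with he
  have he0 : 0 < e := by positivity
  have he1 : e ≤ 1 := inv_le_one_of_one_le₀ (one_le_pow₀ hp1)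
  have hb0 := nv_nonneg b
  intro j
  induction j with
  | zero =>
    intro _
    simp only [yv, ys, sub_self]
    have : nv (0 : Fin n → ℝ) = 0 := by simp [nv]
    rw [this]
    positivity
  | succ j ih =>
    intro hj
    have h1 := ih (by omega)
    have h2 : ‖rho m M j - (1 - M * Mᵀ) ^ (2 ^ j)‖ ≤ e := by
      refine (rho_err M hM hm hnm j (by omega)).trans (le_trans ?_ (err_small hm hnm))
      apply mul_le_mul_of_nonneg_right _ (by positivity)
      exact pow_le_pow_right₀ (by norm_num) (by omega)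
    obtain ⟨k, hk⟩ : ∃ k, 2 ^ j = k + 1 := ⟨2 ^ j - 1, by
      have := Nat.one_le_two_pow (n := j); omega⟩
    have hS := norm_S_pow hM k
    rw [← hk] at hS
    set S := (1 - M * Mᵀ) ^ (2 ^ j) with hSd
    set u := yv m M b j with hu
    set w := ys M b j with hw
    have e1 : yv m M b (j + 1) - ys M b (j + 1)
        = (u - w) + (S *ᵥ (u - w) + (rho m M j - S) *ᵥ u) := by
      simp only [yv, ys]
      rw [← hu, ← hw, ← hSd, Matrix.mulVec_sub, Matrix.sub_mulVec]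
      abel
    rw [e1]
    have h3 : nv (S *ᵥ (u - w)) ≤ nv (u - w) := by
      refine (nv_mulVec _ _).trans ?_
      nlinarith [nv_nonneg (u - w)]
    have h4 : nv ((rho m M j - S) *ᵥ u) ≤ e * nv u :=
      (nv_mulVec _ _).trans (mul_le_mul_of_nonneg_right h2 (nv_nonneg u))
    have h5 : nv u ≤ 2 ^ j * nv b + 4 ^ j * e * nv b := by
      have : u = w + (u - w) := by abel
      calc nv u = nv (w + (u - w)) := by rw [← this]
        _ ≤ nv w + nv (u - w) := nv_add _ _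
        _ ≤ _ := add_le_add (nv_ys hM b j) h1
    have h24 : (2 : ℝ) ^ j ≤ 4 ^ j := pow_le_pow_left₀ (by norm_num) (by norm_num) j
    have h40 : (0 : ℝ) < 4 ^ j := by positivity
    calc _ ≤ nv (u - w) + nv (S *ᵥ (u - w) + (rho m M j - S) *ᵥ u) := nv_add _ _
      _ ≤ nv (u - w) + (nv (S *ᵥ (u - w)) + nv ((rho m M j - S) *ᵥ u)) := by
          gcongr
          exact nv_add _ _
      _ ≤ nv (u - w) + (nv (u - w) + e * nv u) := by gcongr
      _ ≤ 4 ^ j * e * nv b + (4 ^ j * e * nv b + e * (4 ^ j * nv b + 4 ^ j * 1 * nv b)) := by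
          gcongr
          refine h5.trans ?_
          gcongr
      _ = 4 ^ (j + 1) * e * nv b := by ring

/-- **Correctness of the core.** -/
theorem core_spec {m : ℕ} (M : Matrix (Fin n) (Fin n) ℝ) (hM : ‖M‖ ≤ 1) (hm : 2 ≤ m)
    (hnm : (n : ℝ) ≤ pw m) (b : Fin n → ℝ) :
    ∃ (R : Matrix (Fin n) (Fin n) ℝ) (y z : Fin n → ℝ),
      core n m (rowsOf M) (List.ofFn b) = (rowsOf R, List.ofFn y) ∧
      (M * Mᵀ) *ᵥ z = b - ((1 - M * Mᵀ) ^ (2 ^ m)) *ᵥ b ∧
      nv (y - z) ≤ (pw m ^ 2)⁻¹ * nv b ∧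
      ‖(pw m ^ 8)⁻¹ • R - (1 - M * Mᵀ) ^ (2 ^ m)‖ ≤ (pw m ^ 4)⁻¹ := by
  have hp := pw_pos m
  refine ⟨rc (Rz m M m), yv m M b m, ys M b m, ?_, ys_spec M b m, ?_, ?_⟩
  · exact mainStep_iter M hM hm hnm b m le_rfl
  · refine (yv_err M hM hm hnm b m le_rfl).trans (le_of_eq ?_)
    rw [four_pow_le]
    congr 1
    field_simp
  · exact (rho_err M hM hm hnm m le_rfl).trans (err_small hm hnm)

end Pool.Agent.R563.RRam
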