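import Pool.Agent.R563.RRam.Solve

set_option autoImplicit false

/-! # The algorithm for arbitrary invertible matrices: costs -/

noncomputable section

namespace Pool.Agent.R563.RRam

open Matrix

/-- absolute value -/
def absR (x : ℝ) : ℝ := if 0 ≤ x then x else -x

theorem absR_eq (x : ℝ) : absR x = |x| := by
  unfold absR
  split_ifs with h
  · rw [abs_of_nonneg h]
  · rw [abs_of_neg (not_le.1 h)]

/-- the sum of the absolute values of the entries -/
def sumAbs (n : ℕ) (rows : List (List ℝ)) : ℝ :=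
  sumL n ((rows.take n).map fun r => sumL n ((r.take n).map absR))

/-- the sum of the squares of the entries -/
def sumSq (n : ℕ) (rows : List (List ℝ)) : ℝ :=
  sumL n ((rows.take n).map fun r => dot n r r)

variable {α : Type} {a b : ℕ}

theorem pc_absR : PC 0 0 (fun p : (ℕ × ℕ) × (ℕ × ℝ) => absR p.2.2) :=
  PC.branch PC.arg.snd PC.arg.snd PC.arg.snd.neg

theorem pc_sumAbs {rows : (ℕ × ℕ) × α → List (List ℝ)} (hr : PC (a + 2) b rows) :
    PC (a + 2) b (fun p => sumAbs p.1.1 (rows p)) := by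
  have h2 : PC (a + 1) b (fun q : (ℕ × ℕ) × (ℕ × List ℝ) =>
      sumL q.1.1 ((q.2.2.take q.1.1).map absR)) :=
    pc_sumL (PC.mapTake (f := fun q : (ℕ × ℕ) × (ℕ × ℝ) => absR q.2.2) (e := fun _ => 0)
      (pc_absR.mono (by omega) (by omega)) PC.natZero PC.arg.snd)
  exact pc_sumL (PC.mapTake (e := fun _ => 0) h2 PC.natZero hr)

theorem pc_sumSq {rows : (ℕ × ℕ) × α → List (List ℝ)} (hr : PC (a + 2) b rows) :
    PC (a + 2) b (fun p => sumSq p.1.1 (rows p)) := by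
  have h2 : PC (a + 1) b (fun q : (ℕ × ℕ) × (ℕ × List ℝ) => dot q.1.1 q.2.2 q.2.2) :=
    pc_dot PC.arg.snd PC.arg.snd
  exact pc_sumL (PC.mapTake (e := fun _ => 0) h2 PC.natZero hr)

/-- the state: `((n, m), ((scaled rows, b), (c, rows, ε)))` -/
abbrev St := (ℕ × ℕ) × ((List (List ℝ) × List ℝ) × (ℝ × List (List ℝ) × ℝ))

/-- increase the precision -/
def stepM (p : St) : St := ((p.1.1, p.1.2 + 1), p.2)

/-- negative if the precision suffices -/
def testM (p : St) : ℝ :=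
  2 * 2 * 2 * 2 * sumSq p.1.1 (core p.1.1 p.1.2 p.2.1.1 p.2.1.2).1 - pw p.1.2 ^ 16

theorem stepM_iter (k : ℕ) (p : St) : stepM^[k] p = ((p.1.1, p.1.2 + k), p.2) := by
  induction k with
  | zero => rfl
  | succ k ih => rw [Function.iterate_succ_apply', ih]; rfl

theorem pc_testM : PC 2 2 testM :=
  ((((PC.two.mul PC.two).mul PC.two).mul PC.two).mul (pc_sumSq (a := 0)
    (PC.comp (f := fun p : St => p.2.1) PC.arg.fst pc_core).fst)).sub (pc_pw.pow 16)

open Classical in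
/-- number of rounds -/
def loopNum (p : St) : ℕ := if h : ∃ k, testM (stepM^[k] p) < 0 then Nat.find h else 0

/-- the states for which the loop stops -/
def loopDom : Set St := {p | ∃ k, testM (stepM^[k] p) < 0}

theorem loopNum_spec {p : St} (hp : p ∈ loopDom) :
    (∀ i < loopNum p, 0 ≤ testM (stepM^[i] p)) ∧ testM (stepM^[loopNum p] p) < 0 := by
  classical
  have h : ∃ k, testM (stepM^[k] p) < 0 := hp
  unfold loopNum
  rw [dif_pos h]
  exact ⟨fun i hi => not_lt.1 (Nat.find_min h hi), Nat.find_spec h⟩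

theorem loopNum_le {p : St} {k : ℕ} (hk : testM (stepM^[k] p) < 0) : loopNum p ≤ k := by
  classical
  have h : ∃ k, testM (stepM^[k] p) < 0 := ⟨k, hk⟩
  unfold loopNum
  rw [dif_pos h]
  exact Nat.find_min' h hk

/-- the search for the precision -/
def searchM (p : St) : St := stepM^[loopNum p] p

open Classical in
theorem computes_searchM : ∃ K : ℕ, Computes searchM (fun p => if p ∈ loopDom then
    ((K * ((p.1.1 + 1) ^ 2 * (p.1.2 + loopNum p + 1) ^ 3) : ℕ) : ℕ∞) else ⊤) := by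
  obtain ⟨K, hK⟩ := pc_testM
  have hs : CN stepM (fun _ => 10) := by
    refine CN.le (CN.pair (CN.pair (CN.comp CN.fst CN.fst)
      (CN.comp (CN.comp CN.fst CN.snd) (CN.of_one Computes.succ))) CN.snd)
      fun _ => by norm_num
  have hw := Computes.whileLoop loopNum loopDom hs hK fun p hp => loopNum_spec hp
  refine ⟨K + 12, Computes.le hw fun p => ?_⟩
  by_cases hp : p ∈ loopDom
  · rw [if_pos hp, if_pos hp]
    simp only [stepM_iter]
    obtain ⟨⟨n, m⟩, x⟩ := p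
    simp only
    generalize loopNum ((n, m), x) = N
    have h1 : ∀ i ∈ Finset.range N, (((K * ((n + 1) ^ 2 * (m + i + 1) ^ 2) : ℕ) : ℕ∞) + 1
        + ((10 : ℕ) : ℕ∞)) ≤ (((K + 11) * ((n + 1) ^ 2 * (m + N + 1) ^ 2) : ℕ) : ℕ∞) := by
      intro i hi
      rw [Finset.mem_range] at hi
      have h2 : (m + i + 1) ^ 2 ≤ (m + N + 1) ^ 2 := Nat.pow_le_pow_left (by omega) 2
      have h3 : K * ((n + 1) ^ 2 * (m + i + 1) ^ 2) ≤ K * ((n + 1) ^ 2 * (m + N + 1) ^ 2) :=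
        Nat.mul_le_mul_left _ (Nat.mul_le_mul_left _ h2)
      have h4 := PC.sz_pos 2 2 n (m + N)
      have h5 : K * ((n + 1) ^ 2 * (m + i + 1) ^ 2) + 1 + 10
          ≤ (K + 11) * ((n + 1) ^ 2 * (m + N + 1) ^ 2) := by nlinarith
      exact_mod_cast h5
    refine (add_le_add (Finset.sum_le_sum h1) le_rfl).trans ?_
    rw [Finset.sum_const, Finset.card_range, nsmul_eq_mul]
    have h4 := PC.sz_pos 2 2 n (m + N)
    have h6 : N * ((K + 11) * ((n + 1) ^ 2 * (m + N + 1) ^ 2))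
        + (K * ((n + 1) ^ 2 * (m + N + 1) ^ 2) + 1)
        ≤ (K + 12) * ((n + 1) ^ 2 * (m + N + 1) ^ 3) := by
      have e1 : (m + N + 1) ^ 3 = (m + N + 1) * (m + N + 1) ^ 2 := by ring
      rw [e1]
      generalize (m + N + 1) ^ 2 = Y at *
      generalize (n + 1) ^ 2 = X at *
      have e2 : (K + 12) * (X * ((m + N + 1) * Y)) = (m + N + 1) * ((K + 12) * (X * Y)) := by
        ring
      rw [e2]
      calc N * ((K + 11) * (X * Y)) + (K * (X * Y) + 1)
          ≤ N * ((K + 12) * (X * Y)) + (K + 12) * (X * Y) := by nlinarith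
        _ = (N + 1) * ((K + 12) * (X * Y)) := by ring
        _ ≤ (m + N + 1) * ((K + 12) * (X * Y)) := Nat.mul_le_mul_right _ (by omega)
    exact_mod_cast h6
  · rw [if_neg hp, if_neg hp]

/-- the final computation with given precision -/
def withPrec (p : St) : List ℝ :=
  tmul p.1.1 (1 / p.2.2.1 ^ 2) p.2.2.2.1 (core p.1.1 p.1.2 p.2.1.1 p.2.1.2).2

theorem pc_withPrec : PC 2 2 withPrec :=
  pc_tmul (a := 0) (PC.one.div (PC.arg.snd.fst.pow 2)) PC.arg.snd.snd.fst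
    (PC.comp (f := fun p : St => p.2.1) PC.arg.fst pc_core).snd

/-- the second precision -/
def prec2 (p : St) : ℕ := prec (2 * 2 * 2 * 2 * pw p.1.2 ^ 3 / p.2.2.2.2)

/-- the final computation -/
def finM (p : St) : List ℝ := withPrec ((p.1.1, prec2 p), p.2)

theorem computes_finM : ∃ K : ℕ, CN finM
    (fun p => K * ((p.1.1 + 1) ^ 2 * (p.1.2 + prec2 p + 1) ^ 2)) := by
  have h1 : PC 0 1 (fun p : St => 2 * 2 * 2 * 2 * pw p.1.2 ^ 3 / p.2.2.2.2) :=
    ((((PC.two.mul PC.two).mul PC.two).mul PC.two).mul (pc_pw.pow 3)).div PC.arg.snd.snd.snd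
  obtain ⟨K1, hK1⟩ := h1
  obtain ⟨K2, hK2⟩ := pc_withPrec
  have h2 : CN prec2 (fun p => K1 * ((p.1.1 + 1) ^ 0 * (p.1.2 + 1) ^ 1) + 60 * prec2 p) :=
    CN.comp (g := prec) (d := fun T => 60 * prec T) hK1 computes_prec
  have h3 := CN.comp (CN.pair (CN.pair (CN.comp CN.fst CN.fst) h2) CN.snd) hK2
  refine ⟨K1 + K2 + 70, CN.le h3 fun p => ?_⟩
  obtain ⟨⟨n, m⟩, x⟩ := p
  simp only
  generalize prec2 ((n, m), x) = N
  have h4 : 1 ≤ (n + 1) ^ 2 := Nat.one_le_pow _ _ (by omega)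
  have h5 : (N + 1) ^ 2 ≤ (m + N + 1) ^ 2 := Nat.pow_le_pow_left (by omega) 2
  have h6 : m + N + 1 ≤ (m + N + 1) ^ 2 := by nlinarith
  have h7 : K2 * ((n + 1) ^ 2 * (N + 1) ^ 2) ≤ K2 * ((n + 1) ^ 2 * (m + N + 1) ^ 2) :=
    Nat.mul_le_mul_left _ (Nat.mul_le_mul_left _ h5)
  have h8 : m + N + 1 ≤ (n + 1) ^ 2 * (m + N + 1) ^ 2 := by nlinarith
  have h9 : K1 * (m + 1) ≤ K1 * ((n + 1) ^ 2 * (m + N + 1) ^ 2) :=
    Nat.mul_le_mul_left _ (by omega)
  have e1 : (K1 + K2 + 70) * ((n + 1) ^ 2 * (m + N + 1) ^ 2)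
      = K1 * ((n + 1) ^ 2 * (m + N + 1) ^ 2) + K2 * ((n + 1) ^ 2 * (m + N + 1) ^ 2)
        + 70 * ((n + 1) ^ 2 * (m + N + 1) ^ 2) := by ring
  rw [e1]
  simp only [pow_zero, pow_one, one_mul]
  omega

/-- the input: dimension, rows of the matrix, right-hand side, accuracy -/
abbrev Inp := ℕ × List (List ℝ) × List ℝ × ℝ

/-- the scaling factor -/
def scl (n : ℕ) (rows : List (List ℝ)) : ℝ := natR n * sumAbs n rows

/-- the initial state -/
def initM (q : Inp) : St :=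
  ((q.1, prec (natR q.1)), ((divRows q.1 (scl q.1 q.2.1) q.2.1, q.2.2.1),
    (scl q.1 q.2.1, q.2.1, q.2.2.2)))

theorem computes_initM : ∃ K : ℕ, CN initM
    (fun q => K * ((q.1 + 1) ^ 2 * (prec (natR q.1) + 1))) := by
  have hc : PC 2 0 (fun p : (ℕ × ℕ) × (List (List ℝ) × List ℝ × ℝ) => scl p.1.1 p.2.1) :=
    (pc_natR.mono (a := 1) (by omega) le_rfl).mul (pc_sumAbs (a := 0) PC.arg.fst)
  have hp : PC 2 0 (fun p : (ℕ × ℕ) × (List (List ℝ) × List ℝ × ℝ) =>
      ((divRows p.1.1 (scl p.1.1 p.2.1) p.2.1, p.2.2.1), (scl p.1.1 p.2.1, p.2.1, p.2.2.2))) :=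
    ((pc_divRows (a := 0) hc PC.arg.fst).pair PC.arg.snd.fst).pair
      (hc.pair (PC.arg.fst.pair PC.arg.snd.snd))
  have hn : PC 1 0 (fun p : (ℕ × ℕ) × (List (List ℝ) × List ℝ × ℝ) => natR p.1.1) := pc_natR
  obtain ⟨K1, hK1⟩ := hp
  obtain ⟨K2, hK2⟩ := hn
  have hin : CN (fun q : Inp => ((q.1, (0 : ℕ)), q.2)) (fun _ => 10) := by
    refine CN.le (CN.pair (CN.pair CN.fst (CN.of_one Computes.zero)) CN.snd)
      fun _ => by norm_num
  have h1 := CN.comp hin hK1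
  have h2 := CN.comp (CN.comp hin hK2) computes_prec
  have h3 : CN initM _ := CN.pair (CN.pair CN.fst h2) h1
  refine ⟨K1 + K2 + 100, CN.le h3 fun q => ?_⟩
  obtain ⟨n, x⟩ := q
  simp only
  generalize prec (natR n) = N
  simp only [pow_zero, pow_one, mul_one, Nat.zero_add]
  have h4 : n + 1 ≤ (n + 1) ^ 2 := by nlinarith
  have h4' : 1 ≤ (n + 1) ^ 2 := Nat.one_le_pow _ _ (by omega)
  have h5 : (n + 1) ^ 2 ≤ (n + 1) ^ 2 * (N + 1) := Nat.le_mul_of_pos_right _ (by omega)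
  have h5' : N + 1 ≤ (n + 1) ^ 2 * (N + 1) := Nat.le_mul_of_pos_left _ (by omega)
  have h6 : K1 * (n + 1) ^ 2 ≤ K1 * ((n + 1) ^ 2 * (N + 1)) := Nat.mul_le_mul_left _ h5
  have h7 : K2 * (n + 1) ≤ K2 * ((n + 1) ^ 2 * (N + 1)) :=
    Nat.mul_le_mul_left _ (h4.trans h5)
  have e1 : (K1 + K2 + 100) * ((n + 1) ^ 2 * (N + 1))
      = K1 * ((n + 1) ^ 2 * (N + 1)) + K2 * ((n + 1) ^ 2 * (N + 1))
        + 100 * ((n + 1) ^ 2 * (N + 1)) := by ring
  rw [e1]
  omega

/-- the algorithm -/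
def gsolve (q : Inp) : List ℝ := finM (searchM (initM q))

open Classical in
/-- the number of operations -/
def gcost (K : ℕ) (q : Inp) : ℕ∞ := if initM q ∈ loopDom then
  ((K * ((q.1 + 1) ^ 2 * ((searchM (initM q)).1.2 + prec2 (searchM (initM q)) + 1) ^ 3) : ℕ) : ℕ∞)
  else ⊤

theorem computes_gsolve : ∃ K : ℕ, Computes gsolve (gcost K) := by
  obtain ⟨K1, hK1⟩ := computes_initM
  obtain ⟨K2, hK2⟩ := computes_searchM
  obtain ⟨K3, hK3⟩ := computes_finM
  have h0 := Computes.comp hK1 hK2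
  have h00 : Computes gsolve _ := Computes.comp (f := fun q => searchM (initM q)) (g := finM) h0 hK3
  refine ⟨K1 + K2 + K3, Computes.le h00 fun q => ?_⟩
  unfold gcost
  by_cases hq : initM q ∈ loopDom
  · rw [if_pos hq, if_pos hq]
    have e1 : (searchM (initM q)).1.1 = q.1 := by
      unfold searchM; rw [stepM_iter]; rfl
    have e2 : (initM q).1.2 + loopNum (initM q) = (searchM (initM q)).1.2 := by
      unfold searchM; rw [stepM_iter]
    have e3 : (initM q).1.1 = q.1 := rfl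
    have e4 : prec (natR q.1) ≤ (searchM (initM q)).1.2 := by
      rw [← e2]; exact Nat.le_add_right _ _
    beta_reduce
    rw [e1, e3, e2]
    generalize prec (natR q.1) = m0 at *
    generalize (searchM (initM q)).1.2 = m at *
    generalize prec2 (searchM (initM q)) = m'
    generalize q.1 = n
    have h1 : m0 + 1 ≤ (m + m' + 1) ^ 3 := by
      calc m0 + 1 ≤ m + m' + 1 := by omega
        _ ≤ (m + m' + 1) ^ 3 := Nat.le_self_pow (by norm_num) _
    have h2 : (m + 1) ^ 3 ≤ (m + m' + 1) ^ 3 := Nat.pow_le_pow_left (by omega) 3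
    have h3 : (m + m' + 1) ^ 2 ≤ (m + m' + 1) ^ 3 := Nat.pow_le_pow_right (by omega) (by norm_num)
    have h4 : K1 * ((n + 1) ^ 2 * (m0 + 1)) + K2 * ((n + 1) ^ 2 * (m + 1) ^ 3)
        + K3 * ((n + 1) ^ 2 * (m + m' + 1) ^ 2)
        ≤ (K1 + K2 + K3) * ((n + 1) ^ 2 * (m + m' + 1) ^ 3) := by
      have e5 : (K1 + K2 + K3) * ((n + 1) ^ 2 * (m + m' + 1) ^ 3)
          = K1 * ((n + 1) ^ 2 * (m + m' + 1) ^ 3) + K2 * ((n + 1) ^ 2 * (m + m' + 1) ^ 3)
            + K3 * ((n + 1) ^ 2 * (m + m' + 1) ^ 3) := by ring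
      rw [e5]
      gcongr
    exact_mod_cast h4
  · rw [if_neg hq, if_neg hq]
    exact le_top

end Pool.Agent.R563.RRam
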