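import Pool.Agent.R563.RRam.Gen1

set_option autoImplicit false

/-! # The algorithm for arbitrary invertible matrices: correctness and termination -/

noncomputable section

namespace Pool.Agent.R563.RRam

open scoped Matrix.Norms.L2Operator
open Matrix

variable {n : ℕ}

theorem sumAbs_spec (M : Matrix (Fin n) (Fin n) ℝ) :
    sumAbs n (rowsOf M) = ∑ i, ∑ j, |M i j| := by
  unfold sumAbs rowsOf
  rw [take_ofFn, List.map_ofFn]
  have h : (fun r => sumL n ((List.take n r).map absR)) ∘ (fun i => List.ofFn fun j => M i j)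
      = fun i => ∑ j, |M i j| := by
    funext i
    simp only [Function.comp]
    rw [take_ofFn, List.map_ofFn, sumL_ofFn]
    simp only [Function.comp, absR_eq]
  rw [h, sumL_ofFn]

theorem sumSq_spec (M : Matrix (Fin n) (Fin n) ℝ) :
    sumSq n (rowsOf M) = ∑ i, ∑ j, M i j ^ 2 := by
  unfold sumSq rowsOf
  rw [take_ofFn, List.map_ofFn]
  have h : (fun r => dot n r r) ∘ (fun i => List.ofFn fun j => M i j)
      = fun i => ∑ j, M i j ^ 2 := by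
    funext i
    simp only [Function.comp]
    rw [dot_ofFn]
    exact Finset.sum_congr rfl fun j _ => by ring
  rw [h, sumL_ofFn]

/-- the operator norm is at most the Frobenius norm -/
theorem opNorm_sq_le (A : Matrix (Fin n) (Fin n) ℝ) {c : ℝ} (hc : 0 ≤ c)
    (h : ∑ i, ∑ j, A i j ^ 2 ≤ c ^ 2) : ‖A‖ ≤ c := by
  refine opNorm_le hc fun x => ?_
  apply nv_le (mul_nonneg hc (nv_nonneg x))
  calc ∑ i, (A *ᵥ x) i ^ 2 ≤ ∑ i, (∑ j, A i j ^ 2) * (∑ j, x j ^ 2) := by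
        apply Finset.sum_le_sum
        intro i _
        show (∑ j, A i j * x j) ^ 2 ≤ _
        exact Finset.sum_mul_sq_le_sq_mul_sq _ _ _
    _ = (∑ i, ∑ j, A i j ^ 2) * nv x ^ 2 := by rw [← Finset.sum_mul, nv_sq]
    _ ≤ c ^ 2 * nv x ^ 2 := by gcongr
    _ = (c * nv x) ^ 2 := by ring

/-- the Frobenius norm is at most `√n` times the operator norm -/
theorem frob_le (A : Matrix (Fin n) (Fin n) ℝ) : ∑ i, ∑ j, A i j ^ 2 ≤ n * ‖A‖ ^ 2 := by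
  rw [Finset.sum_comm]
  have h : ∀ j, ∑ i, A i j ^ 2 ≤ ‖A‖ ^ 2 := by
    intro j
    have h1 : nv (A *ᵥ Pi.single j 1) ^ 2 = ∑ i, A i j ^ 2 := by
      rw [nv_sq]
      refine Finset.sum_congr rfl fun i _ => ?_
      simp
    have h2 : nv (Pi.single j 1 : Fin n → ℝ) = 1 := by
      have h3 : nv (Pi.single j (1 : ℝ) : Fin n → ℝ) ^ 2 = 1 := by
        rw [nv_sq, Finset.sum_eq_single j]
        · simp
        · intro k _ hk
          simp [hk]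
        · simp
      have h0 := nv_nonneg (Pi.single j (1 : ℝ) : Fin n → ℝ)
      nlinarith
    have h3 := nv_mulVec A (Pi.single j 1)
    rw [h2, mul_one] at h3
    rw [← h1]
    exact pow_le_pow_left₀ (nv_nonneg _) h3 2
  calc _ ≤ ∑ _j : Fin n, ‖A‖ ^ 2 := Finset.sum_le_sum fun j _ => h j
    _ = n * ‖A‖ ^ 2 := by simp

theorem norm_one_le : ‖(1 : Matrix (Fin n) (Fin n) ℝ)‖ ≤ 1 :=
  opNorm_le zero_le_one fun x => by rw [Matrix.one_mulVec, one_mul]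

/-- powers are small -/
theorem pow_small {M : Matrix (Fin n) (Fin n) ℝ} (hM1 : ‖M‖ ≤ 1) {s : ℝ} (hs0 : 0 < s)
    (hs1 : s ≤ 1) (hsM : ∀ x, s * nv x ^ 2 ≤ nv (Mᵀ *ᵥ x) ^ 2) (m : ℕ) :
    ‖(1 - M * Mᵀ) ^ (2 ^ m)‖ ≤ 1 / (s * pw m) := by
  have hp := pw_pos m
  have h5 : ‖1 - M * Mᵀ‖ ≤ 1 - s := norm_one_sub hs1 hM1 hsM
  calc ‖(1 - M * Mᵀ) ^ (2 ^ m)‖ ≤ ‖1 - M * Mᵀ‖ ^ (2 ^ m) := norm_pow_le' _ (by positivity)
    _ ≤ (1 - s) ^ (2 ^ m) := pow_le_pow_left₀ (norm_nonneg _) h5 _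
    _ ≤ (Real.exp (-s)) ^ (2 ^ m) := by
        apply pow_le_pow_left₀ (by linarith)
        have := Real.add_one_le_exp (-s)
        linarith
    _ = Real.exp (-(s * pw m)) := by
        rw [← Real.exp_nat_mul, pw_eq]
        congr 1
        push_cast
        ring
    _ ≤ 1 / (s * pw m) := by
        rw [Real.exp_neg, ← one_div]
        apply one_div_le_one_div_of_le (by positivity)
        have := Real.add_one_le_exp (s * pw m)
        linarith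

theorem s_le_one {M : Matrix (Fin n) (Fin n) ℝ} (hn : 1 ≤ n) (hM1 : ‖M‖ ≤ 1) {s : ℝ}
    (hsM : ∀ x, s * nv x ^ 2 ≤ nv (Mᵀ *ᵥ x) ^ 2) : s ≤ 1 := by
  have h5 := hsM (Pi.single ⟨0, hn⟩ 1)
  have h6 := nv_mulVec Mᵀ (Pi.single ⟨0, hn⟩ 1)
  have h7 : nv (Pi.single (⟨0, hn⟩ : Fin n) (1 : ℝ) : Fin n → ℝ) = 1 := by
    have : nv (Pi.single (⟨0, hn⟩ : Fin n) (1 : ℝ) : Fin n → ℝ) ^ 2 = 1 := by
      rw [nv_sq, Finset.sum_eq_single (⟨0, hn⟩ : Fin n)]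
      · simp
      · intro k _ hk
        simp [hk]
      · simp
    have h0 := nv_nonneg (Pi.single (⟨0, hn⟩ : Fin n) (1 : ℝ) : Fin n → ℝ)
    nlinarith
  rw [h7, norm_transpose] at h6
  rw [h7] at h5
  have h8 := nv_nonneg (Mᵀ *ᵥ (Pi.single (⟨0, hn⟩ : Fin n) (1 : ℝ)))
  nlinarith

/-- the test is passed when the precision is large -/
theorem test_pass {m : ℕ} (hn : 1 ≤ n) (M : Matrix (Fin n) (Fin n) ℝ) (hM : ‖M‖ ≤ 1)
    (hm : 2 ≤ m) (hnm : (n : ℝ) ≤ pw m) (b : Fin n → ℝ) {s : ℝ} (hs0 : 0 < s)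
    (hsM : ∀ x, s * nv x ^ 2 ≤ nv (Mᵀ *ᵥ x) ^ 2) (hbig : 16 * n / s ≤ pw m) (x) :
    testM ((n, m), ((rowsOf M, List.ofFn b), x)) < 0 := by
  have hp := pw_pos m
  have hn' : (1 : ℝ) ≤ n := by exact_mod_cast hn
  obtain ⟨R, y, z, hc1, -, -, hc4⟩ := core_spec M hM hm hnm b
  have hs1 := s_le_one hn hM hsM
  unfold testM
  simp only
  rw [hc1]
  simp only
  rw [sumSq_spec]
  set ρ : Matrix (Fin n) (Fin n) ℝ := (pw m ^ 8)⁻¹ • R with hρ
  have e1 : ∑ i, ∑ j, R i j ^ 2 = pw m ^ 16 * ∑ i, ∑ j, ρ i j ^ 2 := by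
    rw [Finset.mul_sum]
    refine Finset.sum_congr rfl fun i _ => ?_
    rw [Finset.mul_sum]
    refine Finset.sum_congr rfl fun j _ => ?_
    simp only [hρ, Matrix.smul_apply, smul_eq_mul]
    field_simp
  have h16 : 16 * (n : ℝ) ≤ s * pw m := by
    rw [div_le_iff₀ hs0] at hbig
    linarith
  have h1 : ‖(1 - M * Mᵀ) ^ (2 ^ m)‖ ≤ 1 / (16 * n) :=
    (pow_small hM hs0 hs1 hsM m).trans (one_div_le_one_div_of_le (by positivity) h16)
  have h2 : (pw m ^ 4)⁻¹ ≤ 1 / (16 * n) := by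
    rw [inv_eq_one_div]
    apply one_div_le_one_div_of_le (by positivity)
    have h3 : 16 * (n : ℝ) ≤ pw m := by nlinarith
    calc 16 * (n : ℝ) ≤ pw m := h3
      _ ≤ pw m ^ 4 := le_self_pow₀ (by linarith) (by norm_num)
  have h3 : ‖ρ‖ ≤ 1 / (8 * n) := by
    have e2 : ρ = (ρ - (1 - M * Mᵀ) ^ (2 ^ m)) + (1 - M * Mᵀ) ^ (2 ^ m) := by abel
    calc ‖ρ‖ = ‖(ρ - (1 - M * Mᵀ) ^ (2 ^ m)) + (1 - M * Mᵀ) ^ (2 ^ m)‖ := by rw [← e2]
      _ ≤ ‖ρ - (1 - M * Mᵀ) ^ (2 ^ m)‖ + ‖(1 - M * Mᵀ) ^ (2 ^ m)‖ := norm_add_le _ _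
      _ ≤ 1 / (16 * n) + 1 / (16 * n) := add_le_add (hc4.trans h2) h1
      _ = 1 / (8 * n) := by field_simp; norm_num
  have h4 : ∑ i, ∑ j, ρ i j ^ 2 ≤ 1 / 64 := by
    refine (frob_le ρ).trans ?_
    calc (n : ℝ) * ‖ρ‖ ^ 2 ≤ (n : ℝ) * (1 / (8 * (n : ℝ))) ^ 2 := by
          gcongr
      _ = 1 / (64 * (n : ℝ)) := by field_simp; norm_num
      _ ≤ 1 / 64 := by
          apply one_div_le_one_div_of_le (by norm_num)
          linarith
  rw [e1]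
  have hp16 : 0 < pw m ^ 16 := by positivity
  nlinarith

/-- when the test is passed, the smallest singular value is not small -/
theorem test_sound {m : ℕ} (M : Matrix (Fin n) (Fin n) ℝ) (hM : ‖M‖ ≤ 1)
    (hm : 2 ≤ m) (hnm : (n : ℝ) ≤ pw m) (b : Fin n → ℝ) (x)
    (ht : testM ((n, m), ((rowsOf M, List.ofFn b), x)) < 0) :
    ∀ v, nv v ≤ 2 * pw m * nv (Mᵀ *ᵥ v) := by
  have hp := pw_pos m
  have h4 : (4 : ℝ) ≤ pw m := by
    rw [pw_eq]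
    calc (4 : ℝ) = 2 ^ 2 := by norm_num
      _ ≤ 2 ^ m := pow_le_pow_right₀ (by norm_num) hm
  obtain ⟨R, y, z, hc1, -, -, hc4⟩ := core_spec M hM hm hnm b
  unfold testM at ht
  simp only at ht
  rw [hc1] at ht
  simp only at ht
  rw [sumSq_spec] at ht
  set ρ : Matrix (Fin n) (Fin n) ℝ := (pw m ^ 8)⁻¹ • R with hρ
  have e1 : ∑ i, ∑ j, R i j ^ 2 = pw m ^ 16 * ∑ i, ∑ j, ρ i j ^ 2 := by
    rw [Finset.mul_sum]
    refine Finset.sum_congr rfl fun i _ => ?_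
    rw [Finset.mul_sum]
    refine Finset.sum_congr rfl fun j _ => ?_
    simp only [hρ, Matrix.smul_apply, smul_eq_mul]
    field_simp
  rw [e1] at ht
  have hp16 : 0 < pw m ^ 16 := by positivity
  have h1 : ∑ i, ∑ j, ρ i j ^ 2 ≤ (1 / 4) ^ 2 := by
    by_contra hcon
    rw [not_le] at hcon
    nlinarith
  have h2 : ‖ρ‖ ≤ 1 / 4 := opNorm_sq_le ρ (by norm_num) h1
  set S := 1 - M * Mᵀ with hS
  have h3 : (pw m ^ 4)⁻¹ ≤ 1 / 4 := by
    rw [inv_eq_one_div]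
    apply one_div_le_one_div_of_le (by norm_num)
    calc (4 : ℝ) ≤ pw m := h4
      _ ≤ pw m ^ 4 := le_self_pow₀ (by linarith) (by norm_num)
  have h5 : ‖S ^ (2 ^ m)‖ ≤ 1 / 2 := by
    have e2 : S ^ (2 ^ m) = ρ - (ρ - S ^ (2 ^ m)) := by abel
    calc ‖S ^ (2 ^ m)‖ = ‖ρ - (ρ - S ^ (2 ^ m))‖ := by rw [← e2]
      _ ≤ ‖ρ‖ + ‖ρ - S ^ (2 ^ m)‖ := norm_sub_le _ _
      _ ≤ 1 / 4 + 1 / 4 := add_le_add h2 (hc4.trans h3)
      _ = 1 / 2 := by norm_num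
  -- the geometric sum
  set P : Matrix (Fin n) (Fin n) ℝ := ∑ i ∈ Finset.range (2 ^ m), S ^ i with hP
  have h6 : P * (M * Mᵀ) = 1 - S ^ (2 ^ m) := by
    have := geom_sum_mul S (2 ^ m)
    rw [← hP] at this
    have e3 : M * Mᵀ = -(S - 1) := by rw [hS]; abel
    rw [e3, mul_neg, this]
    abel
  have h7 : ‖P‖ ≤ pw m := by
    calc ‖P‖ ≤ ∑ i ∈ Finset.range (2 ^ m), ‖S ^ i‖ := norm_sum_le _ _
      _ ≤ ∑ _i ∈ Finset.range (2 ^ m), (1 : ℝ) := by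
          apply Finset.sum_le_sum
          intro i _
          rcases i with _ | k
          · rw [pow_zero]; exact norm_one_le
          · exact norm_S_pow hM k
      _ = pw m := by simp [pw_eq]
  intro v
  have h8 : v = P *ᵥ (M *ᵥ (Mᵀ *ᵥ v)) + (S ^ (2 ^ m)) *ᵥ v := by
    rw [Matrix.mulVec_mulVec, Matrix.mulVec_mulVec, Matrix.mul_assoc, h6, Matrix.sub_mulVec,
      Matrix.one_mulVec]
    abel
  have h9 : nv v ≤ pw m * nv (Mᵀ *ᵥ v) + 1 / 2 * nv v := by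
    have h10 : nv (P *ᵥ (M *ᵥ (Mᵀ *ᵥ v))) ≤ pw m * nv (Mᵀ *ᵥ v) := by
      calc nv (P *ᵥ (M *ᵥ (Mᵀ *ᵥ v))) ≤ ‖P‖ * nv (M *ᵥ (Mᵀ *ᵥ v)) := nv_mulVec _ _
        _ ≤ pw m * (1 * nv (Mᵀ *ᵥ v)) := by
            apply mul_le_mul h7 _ (nv_nonneg _) hp.le
            exact (nv_mulVec _ _).trans (mul_le_mul_of_nonneg_right hM (nv_nonneg _))
        _ = pw m * nv (Mᵀ *ᵥ v) := by ring
    calc nv v = nv (P *ᵥ (M *ᵥ (Mᵀ *ᵥ v)) + (S ^ (2 ^ m)) *ᵥ v) := by rw [← h8]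
      _ ≤ nv (P *ᵥ (M *ᵥ (Mᵀ *ᵥ v))) + nv ((S ^ (2 ^ m)) *ᵥ v) := nv_add _ _
      _ ≤ pw m * nv (Mᵀ *ᵥ v) + 1 / 2 * nv v := by
          apply add_le_add h10
          exact (nv_mulVec _ _).trans (mul_le_mul_of_nonneg_right h5 (nv_nonneg _))
  linarith

/-- the result of the final computation -/
theorem final_spec {m : ℕ} (hm : 2 ≤ m) (hn : 1 ≤ n) (A M : Matrix (Fin n) (Fin n) ℝ)
    {c : ℝ} (hc : 0 < c) (hMA : M = c⁻¹ • A) (hM1 : ‖M‖ ≤ 1) (hdet : A.det ≠ 0)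
    (b : Fin n → ℝ) {ε K : ℝ} (hε : 0 < ε) (hε1 : ε < 1) (hK : 1 ≤ K)
    (hKM : ∀ v, nv v ≤ 2 * K * nv (Mᵀ *ᵥ v))
    (hnm : (n : ℝ) ≤ pw m) (hbig : 16 * K ^ 3 / ε ≤ pw m) :
    ∃ x : Fin n → ℝ,
      withPrec ((n, m), ((rowsOf M, List.ofFn b), (c, rowsOf A, ε))) = List.ofFn x ∧
      nv (x - A⁻¹ *ᵥ b) ≤ ε * nv (A⁻¹ *ᵥ b) := by
  have hp := pw_pos m
  obtain ⟨R, y, z, hc1, hc2, hc3, -⟩ := core_spec M hM1 hm hnm b
  have hA : A = c • M := by rw [hMA, smul_smul, mul_inv_cancel₀ hc.ne', one_smul]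
  have hdetM : M.det ≠ 0 := by
    rw [hMA, Matrix.det_smul]
    exact mul_ne_zero (pow_ne_zero _ (inv_ne_zero hc.ne')) hdet
  have hMu : IsUnit M.det := isUnit_iff_ne_zero.2 hdetM
  have hAu : IsUnit A.det := isUnit_iff_ne_zero.2 hdet
  set x' : Fin n → ℝ := M⁻¹ *ᵥ b with hx'
  have hMx : M *ᵥ x' = b := by
    rw [hx', Matrix.mulVec_mulVec, Matrix.mul_nonsing_inv _ hMu, Matrix.one_mulVec]
  have hAx : A⁻¹ *ᵥ b = c⁻¹ • x' := by
    have h1 : A *ᵥ (c⁻¹ • x') = b := by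
      rw [Matrix.mulVec_smul, hA, Matrix.smul_mulVec, hMx, smul_smul, inv_mul_cancel₀ hc.ne',
        one_smul]
    conv_lhs => rw [← h1]
    rw [Matrix.mulVec_mulVec, Matrix.nonsing_inv_mul _ hAu, Matrix.one_mulVec]
  refine ⟨fun k => ∑ i, 1 / c ^ 2 * y i * A i k, ?_, ?_⟩
  · unfold withPrec
    simp only
    rw [hc1, tmul_spec]
  · have e1 : (fun k => ∑ i, 1 / c ^ 2 * y i * A i k) = c⁻¹ • (Mᵀ *ᵥ y) := by
      funext k
      rw [hMA]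
      simp only [Pi.smul_apply, smul_eq_mul, Matrix.mulVec, dotProduct, Matrix.transpose_apply,
        Matrix.smul_apply]
      rw [Finset.mul_sum]
      refine Finset.sum_congr rfl fun i _ => ?_
      field_simp
    rw [e1, hAx, ← smul_sub, nv_smul, nv_smul, abs_of_pos (inv_pos.2 hc)]
    -- lower bounds
    set s : ℝ := (1 / (2 * K)) ^ 2 with hs
    have hs0 : 0 < s := by positivity
    have hsM : ∀ v, s * nv v ^ 2 ≤ nv (Mᵀ *ᵥ v) ^ 2 := by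
      intro v
      rw [hs, ← mul_pow]
      apply pow_le_pow_left₀ (mul_nonneg (by positivity) (nv_nonneg v))
      rw [one_div, inv_mul_le_iff₀ (by positivity)]
      exact hKM v
    have hs1 := s_le_one hn hM1 hsM
    have hinv : ‖M⁻¹‖ ≤ 2 * K := by
      rw [← norm_transpose, Matrix.transpose_nonsing_inv]
      refine opNorm_le (by positivity) fun v => ?_
      refine (hKM _).trans (le_of_eq ?_)
      rw [Matrix.mulVec_mulVec, Matrix.mul_nonsing_inv _ (by rwa [Matrix.det_transpose]),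
        Matrix.one_mulVec]
    have hpow := pow_small hM1 hs0 hs1 hsM m
    set S := 1 - M * Mᵀ with hS
    -- the error
    have e2 : Mᵀ *ᵥ z = x' - M⁻¹ *ᵥ ((S ^ (2 ^ m)) *ᵥ b) := by
      have h1 : M⁻¹ *ᵥ ((M * Mᵀ) *ᵥ z) = Mᵀ *ᵥ z := by
        rw [Matrix.mulVec_mulVec, ← Matrix.mul_assoc, Matrix.nonsing_inv_mul _ hMu,
          Matrix.one_mul]
      rw [← h1, hc2, Matrix.mulVec_sub]
    have e3 : Mᵀ *ᵥ y - x' = Mᵀ *ᵥ (y - z) - M⁻¹ *ᵥ ((S ^ (2 ^ m)) *ᵥ b) := by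
      rw [Matrix.mulVec_sub, e2]
      abel
    have hb : nv b ≤ nv x' := by
      rw [← hMx]
      exact (nv_mulVec _ _).trans (mul_le_of_le_one_left (nv_nonneg _) hM1)
    have hx0 := nv_nonneg x'
    have hb0 := nv_nonneg b
    have hbig' : 16 * K ^ 3 ≤ pw m * ε := by rwa [div_le_iff₀ hε] at hbig
    have hK3 : 1 ≤ K ^ 3 := one_le_pow₀ hK
    have hp16 : 16 ≤ pw m := by nlinarith
    have h1 : nv (Mᵀ *ᵥ (y - z)) ≤ ε / 2 * nv x' := by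
      calc nv (Mᵀ *ᵥ (y - z)) ≤ ‖Mᵀ‖ * nv (y - z) := nv_mulVec _ _
        _ ≤ 1 * ((pw m ^ 2)⁻¹ * nv b) := by
            rw [norm_transpose]
            exact mul_le_mul hM1 hc3 (nv_nonneg _) zero_le_one
        _ ≤ 1 * ((pw m ^ 2)⁻¹ * nv x') := by gcongr
        _ = (pw m ^ 2)⁻¹ * nv x' := one_mul _
        _ ≤ ε / 2 * nv x' := by
            apply mul_le_mul_of_nonneg_right _ hx0
            rw [inv_le_comm₀ (by positivity) (by positivity), inv_div]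
            rw [div_le_iff₀ hε]
            nlinarith
    have h2 : nv (M⁻¹ *ᵥ ((S ^ (2 ^ m)) *ᵥ b)) ≤ ε / 2 * nv x' := by
      calc nv (M⁻¹ *ᵥ ((S ^ (2 ^ m)) *ᵥ b)) ≤ ‖M⁻¹‖ * nv ((S ^ (2 ^ m)) *ᵥ b) := nv_mulVec _ _
        _ ≤ (2 * K) * (1 / (s * pw m) * nv x') := by
            apply mul_le_mul hinv _ (nv_nonneg _) (by positivity)
            refine (nv_mulVec _ _).trans ?_
            exact mul_le_mul hpow hb hb0 (by positivity)
        _ = (8 * K ^ 3 / pw m) * nv x' := by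
            rw [hs]
            field_simp
            ring
        _ ≤ ε / 2 * nv x' := by
            apply mul_le_mul_of_nonneg_right _ hx0
            rw [div_le_div_iff₀ hp (by norm_num)]
            linarith
    have h3 : nv (Mᵀ *ᵥ y - x') ≤ ε * nv x' := by
      rw [e3]
      calc _ ≤ nv (Mᵀ *ᵥ (y - z)) + nv (M⁻¹ *ᵥ ((S ^ (2 ^ m)) *ᵥ b)) := nv_sub _ _
        _ ≤ ε / 2 * nv x' + ε / 2 * nv x' := add_le_add h1 h2
        _ = ε * nv x' := by ring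
    calc c⁻¹ * nv (Mᵀ *ᵥ y - x') ≤ c⁻¹ * (ε * nv x') :=
          mul_le_mul_of_nonneg_left h3 (inv_pos.2 hc).le
      _ = ε * (c⁻¹ * nv x') := by ring

end Pool.Agent.R563.RRam
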