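import Pool.Agent.R563.RRam.Gen2

set_option autoImplicit false

/-! # The algorithm for arbitrary invertible matrices: the main statement -/

noncomputable section

namespace Pool.Agent.R563.RRam

open scoped Matrix.Norms.L2Operator
open Matrix

variable {n : ℕ}

theorem prec_le_log {T : ℝ} (hT : 1 ≤ T) : ((prec T : ℕ) : ℝ) ≤ 2 + 2 * Real.log T := by
  obtain ⟨h1, -, h3⟩ := prec_spec T
  have hlog : 0 ≤ Real.log T := Real.log_nonneg hT
  rcases h3 with h3 | h3
  · rw [h3]; push_cast; linarith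
  · have h5 : Real.log (2 ^ (prec T - 1)) ≤ Real.log T := Real.log_le_log (by positivity) h3
    rw [Real.log_pow] at h5
    have h6 : ((prec T - 1 : ℕ) : ℝ) = (prec T : ℝ) - 1 := by
      rw [Nat.cast_sub (by omega)]
      simp
    rw [h6] at h5
    have h7 : (0 : ℝ) ≤ (prec T : ℝ) - 1 := by
      have : 2 ≤ prec T := by omega
      have : (2 : ℝ) ≤ (prec T : ℝ) := by exact_mod_cast this
      linarith
    have hlog2 : (1 / 2 : ℝ) ≤ Real.log 2 := by
      have := Real.log_two_gt_d9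
      linarith
    nlinarith

theorem lt_pw_prec (T : ℝ) : T < pw (prec T) := by
  rw [pw_eq]; exact (prec_spec T).2.1

theorem two_le_prec (T : ℝ) : 2 ≤ prec T := by
  rw [(prec_spec T).1]; omega

/-- everything but the estimate of the logarithms -/
theorem gsolve_spec (hn : 1 ≤ n) (A : Matrix (Fin n) (Fin n) ℝ) (hdet : A.det ≠ 0)
    (b : Fin n → ℝ) {ε : ℝ} (hε : 0 < ε) (hε1 : ε < 1) {c r : ℝ}
    (hc : c = n * ∑ i, ∑ j, |A i j|) (hr : 0 < r) (hAr : ∀ x, r * nv x ≤ nv (Aᵀ *ᵥ x)) :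
    0 < c ∧ initM (n, rowsOf A, List.ofFn b, ε) ∈ loopDom ∧
    (∃ x, gsolve (n, rowsOf A, List.ofFn b, ε) = List.ofFn x ∧
      nv (x - A⁻¹ *ᵥ b) ≤ ε * nv (A⁻¹ *ᵥ b)) ∧
    ∃ m : ℕ, (searchM (initM (n, rowsOf A, List.ofFn b, ε))).1.2 = m ∧
      m ≤ prec n + prec (16 * n * (c / r) ^ 2) ∧
      prec2 (searchM (initM (n, rowsOf A, List.ofFn b, ε))) = prec (16 * pw m ^ 3 / ε) := by
  have hn' : (1 : ℝ) ≤ n := by exact_mod_cast hn
  have hn0 : (0 : ℝ) < n := by linarith
  -- positivity of the sum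
  have hsum : 0 < ∑ i, ∑ j, |A i j| := by
    have h0 : 0 ≤ ∑ i, ∑ j, |A i j| :=
      Finset.sum_nonneg fun i _ => Finset.sum_nonneg fun j _ => abs_nonneg _
    rcases h0.lt_or_eq with h | h
    · exact h
    · exfalso
      apply hdet
      have h1 : ∀ i j, A i j = 0 := by
        intro i j
        have h2 := (Finset.sum_eq_zero_iff_of_nonneg
          (fun i _ => Finset.sum_nonneg fun j _ => abs_nonneg (A i j))).1 h.symm i
            (Finset.mem_univ i)
        have h3 := (Finset.sum_eq_zero_iff_of_nonneg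
          (fun j _ => abs_nonneg (A i j))).1 h2 j (Finset.mem_univ j)
        exact abs_eq_zero.1 h3
      have h4 : A = 0 := by ext i j; simp [h1]
      rw [h4]
      haveI : Nonempty (Fin n) := ⟨⟨0, hn⟩⟩
      exact Matrix.det_zero
  have hc0 : 0 < c := by rw [hc]; positivity
  set M : Matrix (Fin n) (Fin n) ℝ := c⁻¹ • A with hM
  have hM1 : ‖M‖ ≤ 1 := by
    have : ‖M‖ ≤ n * (n : ℝ)⁻¹ := by
      refine opNorm_le_of_entries (by positivity) fun i j => ?_
      simp only [hM, Matrix.smul_apply, smul_eq_mul]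
      rw [abs_mul, abs_of_pos (inv_pos.2 hc0), inv_mul_le_iff₀ hc0, hc]
      have h5 : |A i j| ≤ ∑ i, ∑ j, |A i j| := by
        calc |A i j| ≤ ∑ j, |A i j| :=
              Finset.single_le_sum (f := fun j => |A i j|) (fun j _ => abs_nonneg _)
                (Finset.mem_univ j)
          _ ≤ ∑ i, ∑ j, |A i j| :=
              Finset.single_le_sum (f := fun i => ∑ j, |A i j|)
                (fun i _ => Finset.sum_nonneg fun j _ => abs_nonneg _) (Finset.mem_univ i)
      calc |A i j| ≤ ∑ i, ∑ j, |A i j| := h5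
        _ = n * (∑ i, ∑ j, |A i j|) * (n : ℝ)⁻¹ := by field_simp
    rwa [mul_inv_cancel₀ hn0.ne'] at this
  -- the scaling factor
  have hscl : scl n (rowsOf A) = c := by
    unfold scl
    rw [natR_eq, sumAbs_spec, hc]
  have hinit : initM (n, rowsOf A, List.ofFn b, ε)
      = ((n, prec n), ((rowsOf M, List.ofFn b), (c, rowsOf A, ε))) := by
    unfold initM
    simp only
    rw [hscl, natR_eq, divRows_spec, ← hM]
  set m0 := prec n with hm0
  have hm0n : (n : ℝ) ≤ pw m0 := (lt_pw_prec n).le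
  have hpwmono : ∀ {a b : ℕ}, a ≤ b → pw a ≤ pw b := by
    intro a b hab
    rw [pw_eq, pw_eq]
    exact pow_le_pow_right₀ (by norm_num) hab
  -- termination
  set s : ℝ := (r / c) ^ 2 with hs
  have hs0 : 0 < s := by positivity
  have hsM : ∀ x, s * nv x ^ 2 ≤ nv (Mᵀ *ᵥ x) ^ 2 := by
    intro x
    rw [hM, Matrix.transpose_smul, Matrix.smul_mulVec, nv_smul, abs_of_pos (inv_pos.2 hc0), hs,
      ← mul_pow]
    apply pow_le_pow_left₀ (mul_nonneg (by positivity) (nv_nonneg x))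
    calc r / c * nv x = c⁻¹ * (r * nv x) := by field_simp
      _ ≤ c⁻¹ * nv (Aᵀ *ᵥ x) := mul_le_mul_of_nonneg_left (hAr x) (inv_pos.2 hc0).le
  set k0 := prec (16 * n * (c / r) ^ 2) with hk0
  have hpass : testM (stepM^[k0] ((n, m0), ((rowsOf M, List.ofFn b), (c, rowsOf A, ε)))) < 0 := by
    rw [stepM_iter]
    apply test_pass hn M hM1 (le_trans (two_le_prec n) (Nat.le_add_right _ _))
      (hm0n.trans (hpwmono (Nat.le_add_right _ _))) b hs0 hsM
    have h1 : 16 * n / s = 16 * n * (c / r) ^ 2 := by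
      rw [hs]
      field_simp
    rw [h1]
    exact (lt_pw_prec _).le.trans (hpwmono (Nat.le_add_left _ _))
  have hdom : initM (n, rowsOf A, List.ofFn b, ε) ∈ loopDom := by
    rw [hinit]
    exact ⟨k0, hpass⟩
  refine ⟨hc0, hdom, ?_, ?_⟩
  · -- correctness
    unfold gsolve searchM
    rw [hinit] at hdom ⊢
    have hspec := (loopNum_spec hdom).2
    rw [stepM_iter] at hspec ⊢
    set N := loopNum ((n, m0), ((rowsOf M, List.ofFn b), (c, rowsOf A, ε))) with hN
    simp only at hspec ⊢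
    have h2m : 2 ≤ m0 + N := le_trans (two_le_prec n) (Nat.le_add_right _ _)
    have hnm : (n : ℝ) ≤ pw (m0 + N) := hm0n.trans (hpwmono (Nat.le_add_right _ _))
    have hsound := test_sound M hM1 h2m hnm b _ hspec
    unfold finM prec2
    simp only
    have h16 : (2 : ℝ) * 2 * 2 * 2 = 16 := by norm_num
    rw [h16]
    have hK1 : 1 ≤ pw (m0 + N) := hn'.trans hnm
    have hlt := lt_pw_prec (16 * pw (m0 + N) ^ 3 / ε)
    refine final_spec (two_le_prec _) hn A M hc0 hM hM1 hdet b hε hε1 hK1 hsound ?_ hlt.le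
    refine le_trans ?_ hlt.le
    rw [le_div_iff₀ hε]
    have h3 : pw (m0 + N) ≤ pw (m0 + N) ^ 3 := le_self_pow₀ hK1 (by norm_num)
    nlinarith
  · refine ⟨_, rfl, ?_, ?_⟩
    · unfold searchM
      rw [stepM_iter, hinit]
      simp only
      have := loopNum_le hpass
      omega
    · unfold prec2
      have h16 : (2 : ℝ) * 2 * 2 * 2 = 16 := by norm_num
      rw [h16]
      congr 2
      unfold searchM
      rw [stepM_iter, hinit]

/-- the cost in terms of a bound for the condition number -/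
theorem gcost_le (K : ℕ) (hn : 1 ≤ n) (A : Matrix (Fin n) (Fin n) ℝ) (hdet : A.det ≠ 0)
    (b : Fin n → ℝ) {ε : ℝ} (hε : 0 < ε) (hε1 : ε < 1) {r κ : ℝ} (hr : 0 < r)
    (hAr : ∀ x, r * nv x ≤ nv (Aᵀ *ᵥ x)) (hκ : 1 ≤ κ) (hAκ : ∀ i j, |A i j| ≤ κ * r) :
    ∃ k : ℕ, gcost K (n, rowsOf A, List.ofFn b, ε) = k ∧
      (k : ℝ) ≤ K * 4 * 200 ^ 3 * (n : ℝ) ^ 2 * (1 + Real.log (n / ε) + Real.log κ) ^ 3 := by
  have hn' : (1 : ℝ) ≤ n := by exact_mod_cast hn
  have hn0 : (0 : ℝ) < n := by linarith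
  obtain ⟨hc0, hdom, -, m, hm1, hm2, hm3⟩ := gsolve_spec hn A hdet b hε hε1 rfl hr hAr
  unfold gcost
  rw [if_pos hdom]
  refine ⟨_, rfl, ?_⟩
  simp only
  rw [hm3, hm1]
  set m' := prec (16 * pw m ^ 3 / ε) with hm'
  set c : ℝ := n * ∑ i, ∑ j, |A i j| with hc
  set ℓ : ℝ := 1 + Real.log (n / ε) + Real.log κ with hℓ
  have hlogn : 0 ≤ Real.log n := Real.log_nonneg hn'
  have hlogε : 0 ≤ Real.log (1 / ε) := Real.log_nonneg (by
    rw [le_div_iff₀ hε]; linarith)
  have hlogκ : 0 ≤ Real.log κ := Real.log_nonneg hκ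
  have hlognε : Real.log (n / ε) = Real.log n + Real.log (1 / ε) := by
    rw [← Real.log_mul (by positivity) (by positivity)]
    congr 1
    field_simp
  have hℓ1 : 1 ≤ ℓ := by rw [hℓ, hlognε]; linarith
  have hlog2 : Real.log 2 ≤ 0.7 := by
    have := Real.log_two_lt_d9
    linarith
  have hlog20 : 0 ≤ Real.log 2 := Real.log_nonneg (by norm_num)
  have hlog16 : Real.log 16 ≤ 3 := by
    have : (16 : ℝ) = 2 ^ 4 := by norm_num
    rw [this, Real.log_pow]
    push_cast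
    linarith
  have hlog160 : 0 ≤ Real.log 16 := Real.log_nonneg (by norm_num)
  -- first precision
  have h1 : (prec n : ℝ) ≤ 2 + 2 * Real.log n := prec_le_log hn'
  have hcle : c ≤ (n : ℝ) ^ 3 * (κ * r) := by
    rw [hc]
    calc (n : ℝ) * ∑ i, ∑ j, |A i j| ≤ n * ∑ _i : Fin n, ∑ _j : Fin n, (κ * r) := by
          gcongr with i _ j _
          exact hAκ i j
      _ = (n : ℝ) ^ 3 * (κ * r) := by simp; ring
  have hcr : c / r ≤ (n : ℝ) ^ 3 * κ := by
    rw [div_le_iff₀ hr]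
    linarith
  have hcr1 : 1 ≤ c / r := by
    -- `r` is at most the norm
    rw [le_div_iff₀ hr, one_mul]
    have h5 := hAr (Pi.single ⟨0, hn⟩ 1)
    have h7 : nv (Pi.single (⟨0, hn⟩ : Fin n) (1 : ℝ) : Fin n → ℝ) = 1 := by
      have : nv (Pi.single (⟨0, hn⟩ : Fin n) (1 : ℝ) : Fin n → ℝ) ^ 2 = 1 := by
        rw [nv_sq, Finset.sum_eq_single (⟨0, hn⟩ : Fin n)]
        · simp
        · intro k _ hk
          simp [hk]
        · simp
      have h0 := nv_nonneg (Pi.single (⟨0, hn⟩ : Fin n) (1 : ℝ) : Fin n → ℝ)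
      nlinarith
    rw [h7, mul_one] at h5
    have h8 : nv (Aᵀ *ᵥ (Pi.single (⟨0, hn⟩ : Fin n) (1 : ℝ))) ≤ ∑ i, ∑ j, |A i j| := by
      apply nv_le (Finset.sum_nonneg fun i _ => Finset.sum_nonneg fun j _ => abs_nonneg _)
      have h9 : ∀ j, (Aᵀ *ᵥ (Pi.single (⟨0, hn⟩ : Fin n) (1 : ℝ))) j = A ⟨0, hn⟩ j := by
        intro j; simp
      simp only [h9]
      have h10 : ∑ j, |A ⟨0, hn⟩ j| ≤ ∑ i, ∑ j, |A i j| :=
        Finset.single_le_sum (f := fun i => ∑ j, |A i j|)
          (fun i _ => Finset.sum_nonneg fun j _ => abs_nonneg _) (Finset.mem_univ _)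
      calc ∑ j, A ⟨0, hn⟩ j ^ 2 = ∑ j, |A ⟨0, hn⟩ j| ^ 2 := by simp
        _ ≤ (∑ j, |A ⟨0, hn⟩ j|) ^ 2 :=
            Finset.sum_sq_le_sq_sum_of_nonneg fun j _ => abs_nonneg _
        _ ≤ (∑ i, ∑ j, |A i j|) ^ 2 :=
            pow_le_pow_left₀ (Finset.sum_nonneg fun j _ => abs_nonneg _) h10 2
    have h11 : 0 ≤ ∑ i, ∑ j, |A i j| :=
      Finset.sum_nonneg fun i _ => Finset.sum_nonneg fun j _ => abs_nonneg _
    rw [hc]
    nlinarith
  have h2 : (prec (16 * n * (c / r) ^ 2) : ℝ) ≤ 8 + 14 * ℓ := by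
    have hT : 1 ≤ 16 * n * (c / r) ^ 2 := by nlinarith
    refine (prec_le_log hT).trans ?_
    have h3 : Real.log (16 * n * (c / r) ^ 2) ≤ 3 + 7 * Real.log n + 2 * Real.log κ := by
      calc Real.log (16 * n * (c / r) ^ 2) ≤ Real.log (16 * n * ((n : ℝ) ^ 3 * κ) ^ 2) := by
            apply Real.log_le_log (by positivity)
            gcongr
        _ = Real.log 16 + 7 * Real.log n + 2 * Real.log κ := by
            have : 16 * (n : ℝ) * ((n : ℝ) ^ 3 * κ) ^ 2 = 16 * (n ^ 7 * κ ^ 2) := by ring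
            rw [this, Real.log_mul (by norm_num) (by positivity),
              Real.log_mul (by positivity) (by positivity), Real.log_pow, Real.log_pow]
            push_cast
            ring
        _ ≤ _ := by linarith
    have h4 : Real.log n + Real.log κ ≤ ℓ := by rw [hℓ, hlognε]; linarith
    have h4' : 1 + Real.log n ≤ ℓ := by rw [hℓ, hlognε]; linarith
    nlinarith
  have h3 : (m : ℝ) ≤ 26 * ℓ := by
    have h5 : (m : ℝ) ≤ prec n + prec (16 * n * (c / r) ^ 2) := by exact_mod_cast hm2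
    have h4' : 1 + Real.log n ≤ ℓ := by rw [hℓ, hlognε]; linarith
    linarith
  have hm'le : (m' : ℝ) ≤ 168 * ℓ := by
    have hT : 1 ≤ 16 * pw m ^ 3 / ε := by
      rw [le_div_iff₀ hε]
      have : 1 ≤ pw m ^ 3 := one_le_pow₀ (by rw [pw_eq]; exact one_le_pow₀ (by norm_num))
      nlinarith
    refine (prec_le_log hT).trans ?_
    have h5 : Real.log (16 * pw m ^ 3 / ε) = Real.log 16 + 3 * (m * Real.log 2)
        + Real.log (1 / ε) := by
      have hp := pw_pos m
      have : 16 * pw m ^ 3 / ε = 16 * (pw m ^ 3 * (1 / ε)) := by ring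
      rw [this, Real.log_mul (by norm_num) (by positivity),
        Real.log_mul (by positivity) (by positivity), Real.log_pow, pw_eq, Real.log_pow]
      push_cast
      ring
    rw [h5]
    have h6 : (m : ℝ) * Real.log 2 ≤ 26 * ℓ := by
      calc (m : ℝ) * Real.log 2 ≤ m * 1 := by gcongr; linarith
        _ ≤ 26 * ℓ := by linarith
    have h7 : 1 + Real.log (1 / ε) ≤ ℓ := by rw [hℓ, hlognε]; linarith
    linarith
  -- conclusion
  push_cast
  have h5 : ((n : ℝ) + 1) ^ 2 ≤ 4 * (n : ℝ) ^ 2 := by nlinarith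
  have h6 : ((m : ℝ) + m' + 1) ^ 3 ≤ (200 * ℓ) ^ 3 := by
    apply pow_le_pow_left₀ (by positivity)
    linarith
  calc (K : ℝ) * (((n : ℝ) + 1) ^ 2 * ((m : ℝ) + m' + 1) ^ 3)
      ≤ K * ((4 * (n : ℝ) ^ 2) * (200 * ℓ) ^ 3) := by gcongr
    _ = _ := by ring

end Pool.Agent.R563.RRam
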