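import Pool.Agent.R563.RRam.Gen3
import Pool.Agent.R563.RRam.CondDefs

set_option autoImplicit false

/-! # Averaged condition numbers -/

noncomputable section

namespace Pool.Agent.R563.RRam

open scoped Matrix.Norms.L2Operator
open Matrix

variable {n : ℕ}


theorem norm_sq_eq_sum (T : EuclideanSpace ℝ (Fin n) →ₗ[ℝ] EuclideanSpace ℝ (Fin n))
    (v : EuclideanSpace ℝ (Fin n)) :
    ‖T v‖ ^ 2 = ∑ i : Fin n, T.singularValues i ^ 2 *
      ((T.isSymmetric_adjoint_comp_self.eigenvectorBasis (finrank_euclideanSpace_fin)).repr v i)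
        ^ 2 := by
  have hn : Module.finrank ℝ (EuclideanSpace ℝ (Fin n)) = n := finrank_euclideanSpace_fin
  set B := T.isSymmetric_adjoint_comp_self.eigenvectorBasis hn with hB
  have h1 : ‖T v‖ ^ 2 = inner ℝ v ((LinearMap.adjoint T ∘ₗ T) v) := by
    rw [LinearMap.comp_apply, LinearMap.adjoint_inner_right, real_inner_self_eq_norm_sq]
  rw [h1, ← B.repr.inner_map_map, PiLp.inner_apply]
  refine Finset.sum_congr rfl fun i _ => ?_
  have h2 := T.isSymmetric_adjoint_comp_self.eigenvectorBasis_apply_self_apply hn v i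
  rw [T.sq_singularValues_fin hn]
  rw [hB, h2]
  simp
  ring

theorem norm_sq_repr (T : EuclideanSpace ℝ (Fin n) →ₗ[ℝ] EuclideanSpace ℝ (Fin n))
    (v : EuclideanSpace ℝ (Fin n)) :
    ‖v‖ ^ 2 = ∑ i : Fin n,
      ((T.isSymmetric_adjoint_comp_self.eigenvectorBasis (finrank_euclideanSpace_fin)).repr v i)
        ^ 2 := by
  set B := T.isSymmetric_adjoint_comp_self.eigenvectorBasis
    (finrank_euclideanSpace_fin (𝕜 := ℝ) (n := n)) with hB
  rw [← B.repr.norm_map v, EuclideanSpace.norm_sq_eq]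
  simp

theorem norm_le_sv (T : EuclideanSpace ℝ (Fin n) →ₗ[ℝ] EuclideanSpace ℝ (Fin n))
    (v : EuclideanSpace ℝ (Fin n)) : ‖T v‖ ≤ T.singularValues 0 * ‖v‖ := by
  have h0 := T.singularValues_nonneg 0
  apply le_of_sq_le_sq _ (mul_nonneg h0 (norm_nonneg v))
  rw [mul_pow, norm_sq_eq_sum, norm_sq_repr T v, Finset.mul_sum]
  refine Finset.sum_le_sum fun i _ => ?_
  apply mul_le_mul_of_nonneg_right _ (sq_nonneg _)
  exact pow_le_pow_left₀ (T.singularValues_nonneg i) (T.singularValues_antitone (Nat.zero_le _)) 2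

theorem sv_le_norm (T : EuclideanSpace ℝ (Fin n) →ₗ[ℝ] EuclideanSpace ℝ (Fin n))
    (v : EuclideanSpace ℝ (Fin n)) : T.singularValues (n - 1) * ‖v‖ ≤ ‖T v‖ := by
  apply le_of_sq_le_sq _ (norm_nonneg _)
  rw [mul_pow, norm_sq_eq_sum, norm_sq_repr T v, Finset.mul_sum]
  refine Finset.sum_le_sum fun i _ => ?_
  apply mul_le_mul_of_nonneg_right _ (sq_nonneg _)
  exact pow_le_pow_left₀ (T.singularValues_nonneg _)
    (T.singularValues_antitone (by have := i.2; omega)) 2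

theorem sv_pos (A : Matrix (Fin n) (Fin n) ℝ) (hdet : A.det ≠ 0) (i : ℕ) (hi : i < n) :
    0 < (Matrix.toEuclideanLin A).singularValues i := by
  have hinj : Function.Injective (Matrix.toEuclideanLin A) := by
    rw [injective_iff_map_eq_zero]
    intro v hv
    have hu : IsUnit A.det := isUnit_iff_ne_zero.2 hdet
    have h1 : A *ᵥ (WithLp.ofLp v) = 0 := by
      have := congrArg WithLp.ofLp hv
      simpa using this
    have h2 : WithLp.ofLp v = 0 := by
      have h3 := congrArg (fun w => A⁻¹ *ᵥ w) h1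
      simp only [Matrix.mulVec_mulVec, Matrix.nonsing_inv_mul _ hu, Matrix.one_mulVec,
        Matrix.mulVec_zero] at h3
      exact h3
    have h4 : v = WithLp.toLp 2 (WithLp.ofLp v) := rfl
    rw [h4, h2]
    simp
  have h5 := (LinearMap.injective_iff_forall_lt_finrank_singularValues_pos _).1 hinj i
  apply h5
  rw [finrank_euclideanSpace_fin]
  exact hi

theorem lower_transpose (A : Matrix (Fin n) (Fin n) ℝ) (hdet : A.det ≠ 0) {r : ℝ} (hr : 0 < r)
    (h : ∀ x, r * nv x ≤ nv (A *ᵥ x)) : ∀ x, r * nv x ≤ nv (Aᵀ *ᵥ x) := by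
  have hu : IsUnit A.det := isUnit_iff_ne_zero.2 hdet
  have hinv : ‖A⁻¹‖ ≤ r⁻¹ := by
    refine opNorm_le (inv_pos.2 hr).le fun v => ?_
    rw [← div_eq_inv_mul, le_div_iff₀ hr, mul_comm]
    refine (h _).trans (le_of_eq ?_)
    rw [Matrix.mulVec_mulVec, Matrix.mul_nonsing_inv _ hu, Matrix.one_mulVec]
  intro x
  have h1 : nv x ≤ r⁻¹ * nv (Aᵀ *ᵥ x) := by
    have h2 : x = (A⁻¹)ᵀ *ᵥ (Aᵀ *ᵥ x) := by
      rw [Matrix.mulVec_mulVec, ← Matrix.transpose_mul, Matrix.mul_nonsing_inv _ hu,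
        Matrix.transpose_one, Matrix.one_mulVec]
    calc nv x = nv ((A⁻¹)ᵀ *ᵥ (Aᵀ *ᵥ x)) := by rw [← h2]
      _ ≤ ‖(A⁻¹)ᵀ‖ * nv (Aᵀ *ᵥ x) := nv_mulVec _ _
      _ ≤ r⁻¹ * nv (Aᵀ *ᵥ x) := by
          rw [norm_transpose]
          exact mul_le_mul_of_nonneg_right hinv (nv_nonneg _)
  rw [← div_eq_inv_mul, le_div_iff₀ hr] at h1
  linarith

/-- the averaged condition number and the condition number -/
theorem avgCond_spec {p : ℝ} (hp : 0 < p) (hn : 1 ≤ n) (A : Matrix (Fin n) (Fin n) ℝ)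
    (hdet : A.det ≠ 0) {κ : ℝ}
    (hκ : κ = (Matrix.toEuclideanLin A).singularValues 0
      / (Matrix.toEuclideanLin A).singularValues (n - 1)) :
    1 ≤ avgCond p A ∧ 1 ≤ κ ∧ Real.log κ ≤ 1 / p * Real.log n + Real.log (avgCond p A) := by
  have hn' : (1 : ℝ) ≤ n := by exact_mod_cast hn
  have hn0 : (0 : ℝ) < n := by linarith
  set σ := (Matrix.toEuclideanLin A).singularValues with hσ
  have hlast : 0 < σ (n - 1) := sv_pos A hdet (n - 1) (by omega)
  have hge : ∀ i ∈ Finset.range n, 1 ≤ σ i / σ (n - 1) := by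
    intro i hi
    rw [Finset.mem_range] at hi
    rw [one_le_div hlast]
    exact (Matrix.toEuclideanLin A).singularValues_antitone (by omega)
  have hκ1 : 1 ≤ κ := by
    rw [hκ]
    exact hge 0 (Finset.mem_range.2 (by omega))
  set X : ℝ := 1 / (n : ℝ) * ∑ i ∈ Finset.range n, (σ i / σ (n - 1)) ^ p with hX
  have hX1 : 1 ≤ X := by
    rw [hX, one_div, ← div_eq_inv_mul, le_div_iff₀ hn0, one_mul]
    calc (n : ℝ) = ∑ _i ∈ Finset.range n, (1 : ℝ) := by simp
      _ ≤ _ := Finset.sum_le_sum fun i hi => Real.one_le_rpow (hge i hi) hp.le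
  have hXκ : κ ^ p ≤ n * X := by
    rw [hX]
    have h1 : (n : ℝ) * (1 / (n : ℝ) * ∑ i ∈ Finset.range n, (σ i / σ (n - 1)) ^ p)
        = ∑ i ∈ Finset.range n, (σ i / σ (n - 1)) ^ p := by field_simp
    rw [h1, hκ]
    exact Finset.single_le_sum (f := fun i => (σ i / σ (n - 1)) ^ p)
      (fun i hi => Real.rpow_nonneg (zero_le_one.trans (hge i hi)) p)
      (Finset.mem_range.2 (by omega))
  have hav : avgCond p A = X ^ (1 / p) := rfl
  refine ⟨?_, hκ1, ?_⟩
  · rw [hav]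
    exact Real.one_le_rpow hX1 (by positivity)
  · rw [hav, Real.log_rpow (by linarith)]
    have h2 : Real.log (κ ^ p) ≤ Real.log (n * X) :=
      Real.log_le_log (Real.rpow_pos_of_pos (by linarith) p) hXκ
    rw [Real.log_rpow (by linarith), Real.log_mul hn0.ne' (by linarith)] at h2
    rw [← mul_add, one_div, ← div_eq_inv_mul, le_div_iff₀ hp]
    linarith

/-- **Main statement**: for every `p > 0` the cost is at most
`C n² κ_p (1 + log (n / ε))³` -/
theorem gen_main : ∃ (solve : ℕ × List (List ℝ) × List ℝ × ℝ → List ℝ)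
    (cost : ℕ × List (List ℝ) × List ℝ × ℝ → ℕ∞), Computes solve cost ∧
    ∀ p : ℝ, 0 < p → ∃ C : ℝ, ∀ (n : ℕ) (A : Matrix (Fin n) (Fin n) ℝ) (b : Fin n → ℝ) (ε : ℝ),
      1 ≤ n → A.det ≠ 0 → 0 < ε → ε < 1 →
      (∃ x : Fin n → ℝ,
        solve (n, List.ofFn (fun i => List.ofFn (A i)), List.ofFn b, ε) = List.ofFn x ∧
        nv (x - A⁻¹ *ᵥ b) ≤ ε * nv (A⁻¹ *ᵥ b)) ∧
      ∃ k : ℕ, cost (n, List.ofFn (fun i => List.ofFn (A i)), List.ofFn b, ε) = k ∧
        (k : ℝ) ≤ C * (n : ℝ) ^ 2 * avgCond p A * (1 + Real.log (n / ε)) ^ 3 := by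
  obtain ⟨K, hK⟩ := computes_gsolve
  refine ⟨gsolve, gcost K, hK, fun p hp => ⟨K * 4 * 200 ^ 3 * ((1 + 1 / p) ^ 3 * 27),
    fun n A b ε hn hdet hε hε1 => ?_⟩⟩
  have hn' : (1 : ℝ) ≤ n := by exact_mod_cast hn
  have hn0 : (0 : ℝ) < n := by linarith
  set T := Matrix.toEuclideanLin A with hT
  set r := T.singularValues (n - 1) with hr
  have hr0 : 0 < r := sv_pos A hdet (n - 1) (by omega)
  set κ := T.singularValues 0 / r with hκ
  obtain ⟨hav1, hκ1, hlogκ⟩ := avgCond_spec hp hn A hdet hκ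
  have hlow : ∀ x, r * nv x ≤ nv (A *ᵥ x) := fun x => sv_le_norm T (WithLp.toLp 2 x)
  have hlowT := lower_transpose A hdet hr0 hlow
  have hup : ∀ i j, |A i j| ≤ κ * r := by
    intro i j
    have h1 : κ * r = T.singularValues 0 := by rw [hκ]; field_simp
    rw [h1]
    refine (entry_le A i j).trans (opNorm_le (T.singularValues_nonneg 0) fun v => ?_)
    exact norm_le_sv T (WithLp.toLp 2 v)
  obtain ⟨-, -, hsol, -⟩ := gsolve_spec hn A hdet b hε hε1 rfl hr0 hlowT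
  refine ⟨hsol, ?_⟩
  obtain ⟨k, hk1, hk2⟩ := gcost_le K hn A hdet b hε hε1 hr0 hlowT hκ1 hup
  refine ⟨k, hk1, hk2.trans ?_⟩
  set a := avgCond p A with ha
  have hlogn : 0 ≤ Real.log n := Real.log_nonneg hn'
  have hlogε : 0 ≤ Real.log (1 / ε) := Real.log_nonneg (by
    rw [le_div_iff₀ hε]; linarith)
  have hlogκ0 : 0 ≤ Real.log κ := Real.log_nonneg hκ1
  have hloga0 : 0 ≤ Real.log a := Real.log_nonneg hav1
  have hlognε : Real.log (n / ε) = Real.log n + Real.log (1 / ε) := by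
    rw [← Real.log_mul (by positivity) (by positivity)]
    congr 1
    field_simp
  set L := 1 + Real.log (n / ε) with hL
  have hL1 : 1 ≤ L := by rw [hL, hlognε]; linarith
  have hp' : 0 < 1 / p := by positivity
  have h1 : L + Real.log κ ≤ (1 + 1 / p) * L * (1 + Real.log a) := by
    have h2 : Real.log n ≤ L := by rw [hL, hlognε]; linarith
    have h3 : 1 / p * Real.log n ≤ 1 / p * L := mul_le_mul_of_nonneg_left h2 hp'.le
    have h4 : Real.log a ≤ (1 + 1 / p) * L * Real.log a := by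
      have : 1 ≤ (1 + 1 / p) * L := by nlinarith
      nlinarith
    nlinarith
  have h5 : (1 + Real.log a) ^ 3 ≤ 27 * a := by
    have h6 : Real.log a = 3 * Real.log (a ^ (1 / 3 : ℝ)) := by
      rw [Real.log_rpow (by linarith)]; ring
    have hy1 : 1 ≤ a ^ (1 / 3 : ℝ) := Real.one_le_rpow hav1 (by norm_num)
    have h7 : Real.log (a ^ (1 / 3 : ℝ)) ≤ a ^ (1 / 3 : ℝ) - 1 :=
      Real.log_le_sub_one_of_pos (by linarith)
    have h8 : (a ^ (1 / 3 : ℝ)) ^ 3 = a := by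
      rw [← Real.rpow_natCast, ← Real.rpow_mul (by linarith)]
      norm_num
    calc (1 + Real.log a) ^ 3 ≤ (3 * a ^ (1 / 3 : ℝ)) ^ 3 := by
          apply pow_le_pow_left₀ (by linarith)
          linarith
      _ = 27 * a := by rw [mul_pow, h8]; norm_num
  calc (K : ℝ) * 4 * 200 ^ 3 * (n : ℝ) ^ 2 * (L + Real.log κ) ^ 3
      ≤ (K : ℝ) * 4 * 200 ^ 3 * (n : ℝ) ^ 2 * ((1 + 1 / p) * L * (1 + Real.log a)) ^ 3 := by
        gcongr
    _ = (K : ℝ) * 4 * 200 ^ 3 * (n : ℝ) ^ 2 * ((1 + 1 / p) ^ 3 * L ^ 3 * (1 + Real.log a) ^ 3) := by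
        ring
    _ ≤ (K : ℝ) * 4 * 200 ^ 3 * (n : ℝ) ^ 2 * ((1 + 1 / p) ^ 3 * L ^ 3 * (27 * a)) := by gcongr
    _ = _ := by ring

end Pool.Agent.R563.RRam
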