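import Pool.Agent.R563.RRam.PC

set_option autoImplicit false

/-! # Costs of folds and maps over lists -/

namespace Pool.Agent.R563.RRam

/-- one round of a fold -/
def foldBody {β γ : Type} (step : γ → β → γ) (s : List β × γ) : List β × γ :=
  caseList s.1 s fun x t => (t, step s.2 x)

theorem foldBody_iter {β γ : Type} (step : γ → β → γ) (k : ℕ) (l : List β) (c : γ) :
    (foldBody step)^[k] (l, c) = (l.drop k, (l.take k).foldl step c) := by
  induction k generalizing l c with
  | zero => simp
  | succ k ih =>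
    rw [Function.iterate_succ_apply]
    cases l with
    | nil =>
      have : foldBody step (([] : List β), c) = ([], c) := rfl
      rw [this, ih]
      simp
    | cons x t =>
      have : foldBody step (x :: t, c) = (t, step c x) := rfl
      rw [this, ih]
      simp

namespace PC

variable {α β γ ε : Type} {a b : ℕ}

theorem foldl {step : (ℕ × ℕ) × (ε × (γ × β)) → γ} {e : (ℕ × ℕ) × α → ε}
    {l : (ℕ × ℕ) × α → List β} {c : (ℕ × ℕ) × α → γ} (hs : PC a b step)
    (he : PC (a + 1) b e) (hl : PC (a + 1) b l) (hc : PC (a + 1) b c) :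
    PC (a + 1) b (fun p => ((l p).take p.1.1).foldl
      (fun y x => step (p.1, (e p, (y, x)))) (c p)) := by
  have h1 : PC a b (fun q : (ℕ × ℕ) × (ε × (List β × γ)) =>
      RRam.caseList q.2.2.1 q.2.2 (fun x t => (t, step (q.1, (q.2.1, (q.2.2.2, x)))))) :=
    PC.caseL (f := fun q : (ℕ × ℕ) × (ε × (List β × γ)) => q.2.2.1)
      (g := fun q : (ℕ × ℕ) × (ε × (List β × γ)) => q.2.2)
      (h := fun r : (ℕ × ℕ) × ((ε × (List β × γ)) × β × List β) =>
        (r.2.2.2, step (r.1, (r.2.1.1, (r.2.1.2.2, r.2.2.1)))))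
      PC.arg.snd.fst PC.arg.snd
      (PC.arg.snd.snd.pair (PC.comp
        (f := fun r : (ℕ × ℕ) × ((ε × (List β × γ)) × β × List β) =>
          (r.2.1.1, (r.2.1.2.2, r.2.2.1))) (g := step)
        (PC.arg.fst.fst.pair (PC.arg.fst.snd.snd.pair PC.arg.snd.fst)) hs))
  have h2 := (PC.loopN h1 he (hl.pair hc)).snd
  refine h2.congr fun p => ?_
  have h3 := foldBody_iter (fun y x => step (p.1, (e p, (y, x)))) p.1.1 (l p) (c p)
  have h4 := congrArg Prod.snd h3
  simp only at h4
  rw [← h4]
  rfl

theorem reverseTake {l : (ℕ × ℕ) × α → List β} (hl : PC (a + 1) b l) :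
    PC (a + 1) b (fun p => ((l p).take p.1.1).reverse) := by
  have h := PC.foldl (step := fun q : (ℕ × ℕ) × (ℕ × (List β × β)) => q.2.2.2 :: q.2.2.1)
    (e := fun _ => 0) (l := l) (c := fun _ => ([] : List β)) (a := a) (b := b)
    (PC.arg.snd.snd.cons PC.arg.snd.fst) PC.natZero hl PC.nil
  refine h.congr fun p => ?_
  have : ∀ (l : List β) (acc : List β), l.foldl (fun y x => x :: y) acc = l.reverse ++ acc := by
    intro l
    induction l with
    | nil => intro acc; rfl
    | cons x t ih => intro acc; simp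
  have h5 := this ((l p).take p.1.1) []
  simpa using h5

theorem mapTake {f : (ℕ × ℕ) × (ε × β) → γ} {e : (ℕ × ℕ) × α → ε}
    {l : (ℕ × ℕ) × α → List β} (hf : PC a b f)
    (he : PC (a + 1) b e) (hl : PC (a + 1) b l) :
    PC (a + 1) b (fun p => ((l p).take p.1.1).map (fun x => f (p.1, (e p, x)))) := by
  have h := PC.foldl
    (step := fun q : (ℕ × ℕ) × (ε × (List γ × β)) => f (q.1, (q.2.1, q.2.2.2)) :: q.2.2.1)
    (e := e) (l := l) (c := fun _ => ([] : List γ)) (a := a) (b := b)
    ((PC.comp (f := fun q : (ℕ × ℕ) × (ε × (List γ × β)) => (q.2.1, q.2.2.2)) (g := f)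
      (PC.arg.fst.pair PC.arg.snd.snd) hf).cons PC.arg.snd.fst) he hl PC.nil
  refine (reverseTake h).congr fun p => ?_
  have key : ∀ (l : List β) (acc : List γ), l.foldl (fun y x => f (p.1, (e p, x)) :: y) acc
      = (l.map (fun x => f (p.1, (e p, x)))).reverse ++ acc := by
    intro l
    induction l with
    | nil => intro acc; rfl
    | cons x t ih => intro acc; simp
  have h5 := key ((l p).take p.1.1) []
  simp only [List.append_nil] at h5
  rw [h5, List.take_of_length_le, List.reverse_reverse]
  simp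

end PC

end Pool.Agent.R563.RRam
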