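import Pool.Agent.R563.RRam.Solve

set_option autoImplicit false

/-! # The algorithm for well-behaved matrices: correctness and cost -/

noncomputable section

namespace Pool.Agent.R563.RRam

open scoped Matrix.Norms.L2Operator
open Matrix

/-- the input: dimension, rows of the matrix, right-hand side, accuracy -/
abbrev Input := ℕ × List (List ℝ) × List ℝ × ℝ

/-- the bound that determines the precision -/
def bnd (n : ℕ) (ε : ℝ) : ℝ := 2 ^ 23 * natR n ^ 16 / ε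

/-- the algorithm -/
def solve (q : Input) : List ℝ :=
  solveWith ((q.1, prec (bnd q.1 q.2.2.2)), (q.2.1, q.2.2.1))

theorem computes_solve : ∃ K : ℕ, Computes solve (fun q =>
    ((K * (q.1 + 1) ^ 2 * (prec (bnd q.1 q.2.2.2) + 1) ^ 2 : ℕ) : ℕ∞)) := by
  -- the bound
  have h1 : PC 1 0 (fun p : (ℕ × ℕ) × ℝ => bnd p.1.1 p.2) :=
    (((PC.two.pow 23).mul (pc_natR.pow 16)).div PC.arg)
  obtain ⟨K1, hK1⟩ := h1
  obtain ⟨K2, hK2⟩ := pc_solveWith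
  have hin : CN (fun q : Input => ((q.1, (0 : ℕ)), q.2.2.2)) (fun _ => 10) := by
    refine CN.le (CN.pair (CN.pair CN.fst (CN.of_one Computes.zero))
      (CN.comp (CN.comp CN.snd CN.snd) CN.snd)) fun _ => by norm_num
  have h2 : CN (fun q : Input => bnd q.1 q.2.2.2)
      (fun q => 10 + K1 * ((q.1 + 1) ^ 1 * (0 + 1) ^ 0)) := CN.comp hin hK1
  have h3 : CN (fun q : Input => prec (bnd q.1 q.2.2.2))
      (fun q => 10 + K1 * ((q.1 + 1) ^ 1 * (0 + 1) ^ 0) + 60 * prec (bnd q.1 q.2.2.2)) :=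
    CN.comp h2 computes_prec
  have h4 : CN (fun q : Input => ((q.1, prec (bnd q.1 q.2.2.2)), (q.2.1, q.2.2.1)))
      (fun q => 20 + K1 * ((q.1 + 1) ^ 1 * (0 + 1) ^ 0) + 60 * prec (bnd q.1 q.2.2.2)) := by
    refine CN.le (CN.pair (CN.pair CN.fst h3)
      (CN.pair (CN.comp CN.snd CN.fst) (CN.comp (CN.comp CN.snd CN.snd) CN.fst))) fun q => ?_
    omega
  have h5 := CN.comp h4 hK2
  refine ⟨K1 + K2 + 100, CN.le h5 fun q => ?_⟩
  simp only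
  generalize prec (bnd q.1 q.2.2.2) = m
  generalize q.1 = n
  have e1 : 20 + K1 * ((n + 1) ^ 1 * (0 + 1) ^ 0) + 60 * m + K2 * ((n + 1) ^ 2 * (m + 1) ^ 2)
      = 20 + K1 * (n + 1) + 60 * m + K2 * ((n + 1) ^ 2 * (m + 1) ^ 2) := by ring
  rw [e1]
  have e2 : (K1 + K2 + 100) * (n + 1) ^ 2 * (m + 1) ^ 2
      = 100 * ((n + 1) ^ 2 * (m + 1) ^ 2) + K1 * ((n + 1) ^ 2 * (m + 1) ^ 2)
        + K2 * ((n + 1) ^ 2 * (m + 1) ^ 2) := by ring
  rw [e2]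
  have h6 : 1 ≤ (m + 1) ^ 2 := Nat.one_le_pow _ _ (by omega)
  have h7 : 1 ≤ (n + 1) ^ 2 := Nat.one_le_pow _ _ (by omega)
  have h8 : m + 1 ≤ (m + 1) ^ 2 := by nlinarith
  have h9 : n + 1 ≤ (n + 1) ^ 2 := by nlinarith
  have h10 : n + 1 ≤ (n + 1) ^ 2 * (m + 1) ^ 2 := by nlinarith
  have h11 : m + 1 ≤ (n + 1) ^ 2 * (m + 1) ^ 2 := by nlinarith
  nlinarith [Nat.mul_le_mul_left K1 h10]

theorem solve_spec {n : ℕ} (hn : 1 ≤ n) (A : Matrix (Fin n) (Fin n) ℝ)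
    (b : Fin n → ℝ) (hA : ∀ i j, |A i j| ≤ n)
    (hAr : ∀ x, 1 / (2048 * (n : ℝ) ^ 6) * nv x ≤ nv (Aᵀ *ᵥ x)) {ε : ℝ} (hε : 0 < ε)
    (hε1 : ε < 1) :
    ∃ x : Fin n → ℝ, solve (n, rowsOf A, List.ofFn b, ε) = List.ofFn x ∧
      nv (A *ᵥ x - b) ≤ ε * nv b := by
  have hn' : (1 : ℝ) ≤ n := by exact_mod_cast hn
  obtain ⟨h1, h2, h3⟩ := prec_spec (bnd n ε)
  have hm : 2 ≤ prec (bnd n ε) := by omega
  have hW : bnd n ε ≤ pw (prec (bnd n ε)) := by rw [pw_eq]; exact h2.le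
  have hb : bnd n ε = 2 ^ 23 * (n : ℝ) ^ 16 / ε := by unfold bnd; rw [natR_eq]
  have hinv : 1 ≤ 1 / ε := by rw [le_div_iff₀ hε]; linarith
  have h16 : (n : ℝ) ≤ (n : ℝ) ^ 16 := by
    calc (n : ℝ) = (n : ℝ) ^ 1 := (pow_one _).symm
      _ ≤ (n : ℝ) ^ 16 := pow_le_pow_right₀ hn' (by norm_num)
  refine solveWith_spec hm hn A b hA (r := 1 / (2048 * (n : ℝ) ^ 6)) (by positivity) hAr hε
    ?_ ?_ ?_
  · refine le_trans ?_ hW
    rw [hb, le_div_iff₀ hε]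
    nlinarith
  · refine le_trans (le_of_eq ?_) hW
    rw [hb]
    field_simp
    norm_num
  · refine le_trans ?_ hW
    rw [hb]
    apply div_le_div_of_nonneg_right _ hε.le
    nlinarith

/-- the precision is logarithmic -/
theorem prec_le {n : ℕ} (hn : 2 ≤ n) {ε : ℝ} (hε : 0 < ε) (hε1 : ε < 1) :
    ((prec (bnd n ε) : ℕ) : ℝ) + 1 ≤ 100 * Real.log (n / ε) := by
  have hn' : (2 : ℝ) ≤ n := by exact_mod_cast hn
  have hn0 : (0 : ℝ) < n := by linarith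
  obtain ⟨h1, h2, h3⟩ := prec_spec (bnd n ε)
  have hb : bnd n ε = 2 ^ 23 * (n : ℝ) ^ 16 / ε := by unfold bnd; rw [natR_eq]
  have hx : (2 : ℝ) ≤ n / ε := by
    rw [le_div_iff₀ hε]; nlinarith
  have hlog2 : (1 / 2 : ℝ) ≤ Real.log 2 := by
    have := Real.log_two_gt_d9
    linarith
  have hlog2' : Real.log 2 ≤ 1 := by
    have := Real.log_two_lt_d9
    linarith
  have hL : Real.log 2 ≤ Real.log (n / ε) := Real.log_le_log (by norm_num) hx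
  rcases h3 with h3 | h3
  · rw [h3]
    push_cast
    linarith
  · have h4 : bnd n ε ≤ (n / ε) ^ 39 := by
      rw [hb]
      calc 2 ^ 23 * (n : ℝ) ^ 16 / ε ≤ (n : ℝ) ^ 23 * (n : ℝ) ^ 16 / ε := by gcongr
        _ = (n : ℝ) ^ 39 / ε := by ring
        _ ≤ (n : ℝ) ^ 39 / ε ^ 39 := by
            apply div_le_div_of_nonneg_left (by positivity) (by positivity)
            calc ε ^ 39 ≤ ε ^ 1 := pow_le_pow_of_le_one hε.le hε1.le (by norm_num)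
              _ = ε := pow_one _
        _ = (n / ε) ^ 39 := by rw [div_pow]
    have h5 : Real.log (2 ^ (prec (bnd n ε) - 1)) ≤ Real.log ((n / ε) ^ 39) :=
      Real.log_le_log (by positivity) (h3.trans h4)
    rw [Real.log_pow, Real.log_pow] at h5
    have h6 : ((prec (bnd n ε) - 1 : ℕ) : ℝ) = (prec (bnd n ε) : ℝ) - 1 := by
      rw [Nat.cast_sub (by omega)]
      simp
    rw [h6] at h5
    push_cast at h5
    have h7 : (0 : ℝ) ≤ (prec (bnd n ε) : ℝ) - 1 := by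
      have : 2 ≤ prec (bnd n ε) := by omega
      have : (2 : ℝ) ≤ (prec (bnd n ε) : ℝ) := by exact_mod_cast this
      linarith
    nlinarith

/-- the cost is `O(n² log² (n / ε))` -/
theorem solve_cost : ∃ (c : Input → ℕ) (C : ℝ), Computes solve (fun q => (c q : ℕ∞)) ∧ 0 ≤ C ∧
    ∀ (n : ℕ) (rows : List (List ℝ)) (b : List ℝ) (ε : ℝ), 2 ≤ n → 0 < ε → ε < 1 →
      (c (n, rows, b, ε) : ℝ) ≤ C * (n : ℝ) ^ 2 * Real.log (n / ε) ^ 2 := by
  obtain ⟨K, hK⟩ := computes_solve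
  refine ⟨_, (K : ℝ) * 4 * 100 ^ 2, hK, by positivity, fun n rows b ε hn hε hε1 => ?_⟩
  push_cast
  have hn' : (2 : ℝ) ≤ n := by exact_mod_cast hn
  have h1 := prec_le hn hε hε1
  have h2 : ((n : ℝ) + 1) ^ 2 ≤ 4 * (n : ℝ) ^ 2 := by nlinarith
  have h3 : ((prec (bnd n ε) : ℝ) + 1) ^ 2 ≤ (100 * Real.log (n / ε)) ^ 2 :=
    pow_le_pow_left₀ (by positivity) h1 2
  calc (K : ℝ) * ((n : ℝ) + 1) ^ 2 * ((prec (bnd n ε) : ℝ) + 1) ^ 2
      ≤ K * (4 * (n : ℝ) ^ 2) * (100 * Real.log (n / ε)) ^ 2 := by gcongr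
    _ = _ := by ring

end Pool.Agent.R563.RRam
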