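import Mathlib

set_option autoImplicit false

/-!
# A model of computation: algorithms with exact real arithmetic
-/

namespace Pool.Agent.R563.RRam

/-- Case distinction on a list (empty or not). -/
def caseList {β γ : Type} (l : List β) (g : γ) (h : β → List β → γ) : γ :=
  match l with
  | [] => g
  | b :: t => h b t

@[simp] theorem caseList_nil {β γ : Type} (g : γ) (h : β → List β → γ) :
    caseList [] g h = g := rfl

@[simp] theorem caseList_cons {β γ : Type} (b : β) (t : List β) (g : γ) (h : β → List β → γ) :
    caseList (b :: t) g h = h b t := rfl

open Classical in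
/-- **The model of computation.**  `Computes f c` says that there is a (uniform, finite,
deterministic) program with the following property: on every input `x` with `c x < ⊤` it stops
after at most `c x` operations and its output is `f x`. (If `c x = ⊤` nothing is said about the
input `x`; in particular the program need not stop on `x`.)

The programs are the terms of a small first-order language with exact real numbers, natural
numbers (used only as loop counters), pairs and lists as data.  Every operation costs one unit:

* projections and pairing;
* the natural numbers `0` and `k ↦ k + 1`;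
* the real number `1`, the arithmetic operations `+`, `-`, `*`, `/` on exact real numbers, and
  branching on a comparison `0 ≤ z`;
* the empty list, `cons`, and the case distinction (empty / head and tail) on a list;
* loops `for i in 0..k-1 do s` (here `k` is a natural number computed before the loop starts) and
  loops `while 0 ≤ h do s`; the cost is the sum of the costs of all executions of the body and of
  all evaluations of the condition, plus one for each of them.

`Computes.le` only allows to overestimate the number of operations. -/
inductive Computes : {α β : Type} → (α → β) → (α → ℕ∞) → Prop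
  | id {α : Type} : Computes (fun x : α => x) (fun _ => 0)
  | comp {α β γ : Type} {f : α → β} {g : β → γ} {c : α → ℕ∞} {d : β → ℕ∞} :
      Computes f c → Computes g d → Computes (fun x => g (f x)) (fun x => c x + d (f x))
  | pair {α β γ : Type} {f : α → β} {g : α → γ} {c d : α → ℕ∞} :
      Computes f c → Computes g d → Computes (fun x => (f x, g x)) (fun x => c x + d x + 1)
  | fst {α β : Type} : Computes (fun p : α × β => p.1) (fun _ => 1)
  | snd {α β : Type} : Computes (fun p : α × β => p.2) (fun _ => 1)
  | zero {α : Type} : Computes (fun _ : α => (0 : ℕ)) (fun _ => 1)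
  | succ : Computes (fun k : ℕ => k + 1) (fun _ => 1)
  | one {α : Type} : Computes (fun _ : α => (1 : ℝ)) (fun _ => 1)
  | add : Computes (fun p : ℝ × ℝ => p.1 + p.2) (fun _ => 1)
  | sub : Computes (fun p : ℝ × ℝ => p.1 - p.2) (fun _ => 1)
  | mul : Computes (fun p : ℝ × ℝ => p.1 * p.2) (fun _ => 1)
  | div : Computes (fun p : ℝ × ℝ => p.1 / p.2) (fun _ => 1)
  | branch {α β : Type} {h : α → ℝ} {f g : α → β} {ch cf cg : α → ℕ∞} :
      Computes h ch → Computes f cf → Computes g cg →
      Computes (fun x => if 0 ≤ h x then f x else g x)
        (fun x => ch x + 1 + if 0 ≤ h x then cf x else cg x)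
  | nil {α β : Type} : Computes (fun _ : α => ([] : List β)) (fun _ => 1)
  | cons {β : Type} : Computes (fun p : β × List β => p.1 :: p.2) (fun _ => 1)
  | caseList {α β γ : Type} {g : α → γ} {h : α × β × List β → γ} {cg : α → ℕ∞}
      {ch : α × β × List β → ℕ∞} :
      Computes g cg → Computes h ch →
      Computes (fun p : α × List β => caseList p.2 (g p.1) (fun b t => h (p.1, b, t)))
        (fun p => 1 + caseList p.2 (cg p.1) (fun b t => ch (p.1, b, t)))
  | loop {α : Type} {s : α → α} {c : α → ℕ∞} :
      Computes s c →
      Computes (fun p : ℕ × α => s^[p.1] p.2)
        (fun p => ∑ i ∈ Finset.range p.1, (c (s^[i] p.2) + 1))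
  | whileLoop {α : Type} {s : α → α} {h : α → ℝ} {c ch : α → ℕ∞} (N : α → ℕ) (D : Set α) :
      Computes s c → Computes h ch →
      (∀ x ∈ D, (∀ i < N x, 0 ≤ h (s^[i] x)) ∧ h (s^[N x] x) < 0) →
      Computes (fun x => s^[N x] x)
        (fun x => if x ∈ D then
          (∑ i ∈ Finset.range (N x), (ch (s^[i] x) + 1 + c (s^[i] x))) + (ch (s^[N x] x) + 1)
          else ⊤)
  | le {α β : Type} {f : α → β} {c d : α → ℕ∞} :
      Computes f c → (∀ x, c x ≤ d x) → Computes f d

end Pool.Agent.R563.RRam
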