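import Pool.Agent.R563.RRam.Model

set_option autoImplicit false

/-! # Finite costs, and costs `O((n+1)^a (m+1)^b)` -/

namespace Pool.Agent.R563.RRam

/-- computable with the finite cost `c` -/
def CN {α β : Type} (f : α → β) (c : α → ℕ) : Prop := Computes f (fun x => ((c x : ℕ) : ℕ∞))

namespace CN

variable {α β γ : Type}

theorem id : CN (fun x : α => x) (fun _ => 0) := by
  simpa [CN] using (Computes.id (α := α))

theorem le {f : α → β} {c d : α → ℕ} (h : CN f c) (hcd : ∀ x, c x ≤ d x) : CN f d :=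
  Computes.le h fun x => by exact_mod_cast hcd x

theorem comp {f : α → β} {g : β → γ} {c : α → ℕ} {d : β → ℕ} (hf : CN f c) (hg : CN g d) :
    CN (fun x => g (f x)) (fun x => c x + d (f x)) := by
  have := Computes.comp hf hg
  simpa [CN] using this

theorem pair {f : α → β} {g : α → γ} {c d : α → ℕ} (hf : CN f c) (hg : CN g d) :
    CN (fun x => (f x, g x)) (fun x => c x + d x + 1) := by
  have := Computes.pair hf hg
  simpa [CN] using this

theorem of_one {f : α → β} (h : Computes f (fun _ => 1)) : CN f (fun _ => 1) := by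
  simpa [CN] using h

theorem fst : CN (fun p : α × β => p.1) (fun _ => 1) := of_one Computes.fst
theorem snd : CN (fun p : α × β => p.2) (fun _ => 1) := of_one Computes.snd

theorem branch {h : α → ℝ} {f g : α → β} {ch cf cg : α → ℕ} (hh : CN h ch) (hf : CN f cf)
    (hg : CN g cg) : CN (fun x => if 0 ≤ h x then f x else g x)
      (fun x => ch x + 1 + if 0 ≤ h x then cf x else cg x) := by
  have := Computes.branch hh hf hg
  refine Computes.le this fun x => ?_
  by_cases hx : 0 ≤ h x <;> simp [hx]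

theorem caseList {g : α → γ} {h : α × β × List β → γ} {cg : α → ℕ}
    {ch : α × β × List β → ℕ} (hg : CN g cg) (hh : CN h ch) :
    CN (fun p : α × List β => RRam.caseList p.2 (g p.1) (fun b t => h (p.1, b, t)))
      (fun p => 1 + RRam.caseList p.2 (cg p.1) (fun b t => ch (p.1, b, t))) := by
  have := Computes.caseList hg hh
  refine Computes.le this fun p => ?_
  obtain ⟨a, l⟩ := p
  cases l <;> simp

theorem loop {s : α → α} {c : α → ℕ} (hs : CN s c) :
    CN (fun p : ℕ × α => s^[p.1] p.2)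
      (fun p => ∑ i ∈ Finset.range p.1, (c (s^[i] p.2) + 1)) := by
  have := Computes.loop hs
  refine Computes.le this fun p => ?_
  simp

end CN

/-- `PC a b f`: the function `f` of `((n, m), x)` is computed with `O((n+1)^a (m+1)^b)`
operations. -/
def PC (a b : ℕ) {α β : Type} (f : (ℕ × ℕ) × α → β) : Prop :=
  ∃ K : ℕ, CN f (fun p => K * ((p.1.1 + 1) ^ a * (p.1.2 + 1) ^ b))

namespace PC

variable {α β γ ε : Type} {a b : ℕ}

theorem sz_pos (a b n m : ℕ) : 1 ≤ (n + 1) ^ a * (m + 1) ^ b :=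
  Nat.one_le_iff_ne_zero.2 (by positivity)

theorem of_const {f : (ℕ × ℕ) × α → β} {K : ℕ} (h : CN f (fun _ => K)) : PC a b f :=
  ⟨K, h.le fun p => Nat.le_mul_of_pos_right _ (sz_pos a b _ _)⟩

theorem mono {a' b' : ℕ} {f : (ℕ × ℕ) × α → β} (h : PC a b f) (ha : a ≤ a') (hb : b ≤ b') :
    PC a' b' f := by
  obtain ⟨K, hK⟩ := h
  exact ⟨K, hK.le fun p => Nat.mul_le_mul_left _ (Nat.mul_le_mul
    (Nat.pow_le_pow_right (by omega) ha) (Nat.pow_le_pow_right (by omega) hb))⟩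

theorem congr {f g : (ℕ × ℕ) × α → β} (h : PC a b f) (hfg : ∀ p, f p = g p) : PC a b g := by
  have : f = g := funext hfg
  rwa [← this]

theorem env : PC a b (fun p : (ℕ × ℕ) × α => p.1) := of_const CN.fst

theorem n : PC a b (fun p : (ℕ × ℕ) × α => p.1.1) := of_const (CN.comp CN.fst CN.fst)

theorem m : PC a b (fun p : (ℕ × ℕ) × α => p.1.2) := of_const (CN.comp CN.fst CN.snd)

theorem arg : PC a b (fun p : (ℕ × ℕ) × α => p.2) := of_const CN.snd

theorem comp {f : (ℕ × ℕ) × α → β} {g : (ℕ × ℕ) × β → γ} (hf : PC a b f) (hg : PC a b g) :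
    PC a b (fun p => g (p.1, f p)) := by
  obtain ⟨K, hK⟩ := hf
  obtain ⟨L, hL⟩ := hg
  refine ⟨1 + K + 1 + L, ((CN.pair CN.fst hK).comp hL).le fun p => ?_⟩
  have h1 := sz_pos a b p.1.1 p.1.2
  simp only
  nlinarith

/-- composition with a function of constant cost -/
theorem map {f : (ℕ × ℕ) × α → β} {g : β → γ} {K : ℕ} (hf : PC a b f)
    (hg : CN g (fun _ => K)) : PC a b (fun p => g (f p)) := by
  obtain ⟨L, hL⟩ := hf
  refine ⟨L + K, (hL.comp hg).le fun p => ?_⟩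
  have h1 := sz_pos a b p.1.1 p.1.2
  nlinarith

theorem pair {f : (ℕ × ℕ) × α → β} {g : (ℕ × ℕ) × α → γ} (hf : PC a b f) (hg : PC a b g) :
    PC a b (fun p => (f p, g p)) := by
  obtain ⟨K, hK⟩ := hf
  obtain ⟨L, hL⟩ := hg
  refine ⟨K + L + 1, (hK.pair hL).le fun p => ?_⟩
  have h1 := sz_pos a b p.1.1 p.1.2
  nlinarith

theorem fst {f : (ℕ × ℕ) × α → β × γ} (hf : PC a b f) : PC a b (fun p => (f p).1) :=
  hf.map CN.fst

theorem snd {f : (ℕ × ℕ) × α → β × γ} (hf : PC a b f) : PC a b (fun p => (f p).2) :=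
  hf.map CN.snd

theorem one : PC a b (fun _ : (ℕ × ℕ) × α => (1 : ℝ)) := of_const (CN.of_one Computes.one)

theorem nil : PC a b (fun _ : (ℕ × ℕ) × α => ([] : List β)) :=
  of_const (CN.of_one Computes.nil)

theorem natZero : PC a b (fun _ : (ℕ × ℕ) × α => (0 : ℕ)) := of_const (CN.of_one Computes.zero)

theorem natSucc {f : (ℕ × ℕ) × α → ℕ} (hf : PC a b f) : PC a b (fun p => f p + 1) :=
  hf.map (CN.of_one Computes.succ)

theorem add {f g : (ℕ × ℕ) × α → ℝ} (hf : PC a b f) (hg : PC a b g) :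
    PC a b (fun p => f p + g p) :=
  (hf.pair hg).map (CN.of_one Computes.add)

theorem sub {f g : (ℕ × ℕ) × α → ℝ} (hf : PC a b f) (hg : PC a b g) :
    PC a b (fun p => f p - g p) :=
  (hf.pair hg).map (CN.of_one Computes.sub)

theorem mul {f g : (ℕ × ℕ) × α → ℝ} (hf : PC a b f) (hg : PC a b g) :
    PC a b (fun p => f p * g p) :=
  (hf.pair hg).map (CN.of_one Computes.mul)

theorem div {f g : (ℕ × ℕ) × α → ℝ} (hf : PC a b f) (hg : PC a b g) :
    PC a b (fun p => f p / g p) :=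
  (hf.pair hg).map (CN.of_one Computes.div)

theorem zero : PC a b (fun _ : (ℕ × ℕ) × α => (0 : ℝ)) :=
  (sub (α := α) one one).congr fun _ => by simp

theorem two : PC a b (fun _ : (ℕ × ℕ) × α => (2 : ℝ)) :=
  (add (α := α) one one).congr fun _ => by norm_num

theorem neg {f : (ℕ × ℕ) × α → ℝ} (hf : PC a b f) : PC a b (fun p => - f p) :=
  (zero.sub hf).congr fun _ => by simp

theorem pow {f : (ℕ × ℕ) × α → ℝ} (hf : PC a b f) (k : ℕ) : PC a b (fun p => f p ^ k) := by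
  induction k with
  | zero => simpa using (one : PC a b (fun _ : (ℕ × ℕ) × α => (1 : ℝ)))
  | succ k ih => exact (ih.mul hf).congr fun p => (pow_succ _ _).symm

theorem cons {f : (ℕ × ℕ) × α → β} {g : (ℕ × ℕ) × α → List β} (hf : PC a b f)
    (hg : PC a b g) : PC a b (fun p => f p :: g p) :=
  (hf.pair hg).map (CN.of_one Computes.cons)

theorem branch {h : (ℕ × ℕ) × α → ℝ} {f g : (ℕ × ℕ) × α → β} (hh : PC a b h)
    (hf : PC a b f) (hg : PC a b g) : PC a b (fun p => if 0 ≤ h p then f p else g p) := by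
  obtain ⟨K, hK⟩ := hh
  obtain ⟨L, hL⟩ := hf
  obtain ⟨N, hN⟩ := hg
  refine ⟨K + L + N + 1, (CN.branch hK hL hN).le fun p => ?_⟩
  have h1 := sz_pos a b p.1.1 p.1.2
  generalize (p.1.1 + 1) ^ a * (p.1.2 + 1) ^ b = S at *
  split_ifs <;> nlinarith [Nat.zero_le (L * S), Nat.zero_le (N * S)]

theorem caseL {f : (ℕ × ℕ) × α → List β} {g : (ℕ × ℕ) × α → γ}
    {h : (ℕ × ℕ) × (α × β × List β) → γ}
    (hf : PC a b f) (hg : PC a b g) (hh : PC a b h) :
    PC a b (fun p => RRam.caseList (f p) (g p) (fun x t => h (p.1, (p.2, x, t)))) := by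
  obtain ⟨K, hK⟩ := hf
  obtain ⟨L, hL⟩ := hg
  obtain ⟨N, hN⟩ := hh
  -- `h` as a function of `((n, x), b, t)`
  have h1 : CN (fun q : ((ℕ × ℕ) × α) × β × List β => h (q.1.1, (q.1.2, q.2)))
      (fun q => 1 + 1 + (1 + 1 + 1 + 1) + 1 +
        N * ((q.1.1.1 + 1) ^ a * (q.1.1.2 + 1) ^ b)) := by
    refine ((CN.pair (CN.comp CN.fst CN.fst)
      (CN.pair (CN.comp CN.fst CN.snd) CN.snd)).comp hN).le
      fun q => ?_
    exact le_rfl
  have h2 := CN.caseList (β := β) hL h1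
  refine ⟨K + L + N + 20, (CN.comp (CN.pair CN.id hK) h2).le fun p => ?_⟩
  have h3 := sz_pos a b p.1.1 p.1.2
  simp only
  generalize (p.1.1 + 1) ^ a * (p.1.2 + 1) ^ b = S at *
  cases f p with
  | nil =>
    simp only [caseList_nil]
    nlinarith [Nat.zero_le (L * S), Nat.zero_le (N * S)]
  | cons b t =>
    simp only [caseList_cons]
    nlinarith [Nat.zero_le (L * S), Nat.zero_le (N * S)]

/-- A loop with `k` rounds, body depending on an environment; the number of rounds is the first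
component of the argument. -/
theorem loopAux {s : (ℕ × ℕ) × (ε × α) → α} (hs : PC a b s) :
    ∃ K : ℕ, CN (fun p : ℕ × ((ℕ × ℕ) × (ε × α)) =>
        (fun x => s (p.2.1, (p.2.2.1, x)))^[p.1] p.2.2.2)
      (fun p => K * (p.1 + 1) * ((p.2.1.1 + 1) ^ a * (p.2.1.2 + 1) ^ b)) := by
  obtain ⟨K, hK⟩ := hs
  -- body on the state `(nm, e, a)`
  have hb : CN (fun q : (ℕ × ℕ) × (ε × α) => (q.1, (q.2.1, s q)))
      (fun q => 10 + K * ((q.1.1 + 1) ^ a * (q.1.2 + 1) ^ b)) := by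
    refine (CN.pair CN.fst
      (CN.pair (CN.comp CN.snd CN.fst) hK)).le fun q => ?_
    omega
  have hl := CN.loop hb
  have hit : ∀ (i : ℕ) (n : ℕ × ℕ) (e : ε) (x : α),
      (fun q : (ℕ × ℕ) × (ε × α) => (q.1, (q.2.1, s q)))^[i] (n, (e, x))
        = (n, (e, (fun x => s (n, (e, x)))^[i] x)) := by
    intro i
    induction i with
    | zero => intro n e x; rfl
    | succ i ih =>
      intro n e x
      rw [Function.iterate_succ_apply, Function.iterate_succ_apply]
      exact ih n e _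
  refine ⟨K + 14, ?_⟩
  have h2 := (hl.comp CN.snd).comp CN.snd
  have h3 : (fun p : ℕ × ((ℕ × ℕ) × (ε × α)) =>
        (fun x => s (p.2.1, (p.2.2.1, x)))^[p.1] p.2.2.2)
      = fun p : ℕ × ((ℕ × ℕ) × (ε × α)) =>
        ((((fun q : (ℕ × ℕ) × (ε × α) => (q.1, (q.2.1, s q)))^[p.1] p.2)).2).2 := by
    funext p
    obtain ⟨m, n, e, x⟩ := p
    simp only [hit]
  rw [h3]
  refine h2.le ?_
  rintro ⟨m, n, e, x⟩
  simp only [hit]
  rw [Finset.sum_const, Finset.card_range, smul_eq_mul]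
  have h1 := sz_pos a b n.1 n.2
  generalize (n.1 + 1) ^ a * (n.2 + 1) ^ b = S at *
  have h5 : m * (10 + K * S + 1) ≤ (m + 1) * ((11 + K) * S) := by
    apply Nat.mul_le_mul (by omega)
    nlinarith
  have h6 : 2 ≤ (m + 1) * (2 * S) := by nlinarith
  nlinarith

/-- A loop with `n` rounds, with computed environment and initial value. -/
theorem loopN {s : (ℕ × ℕ) × (ε × α) → α} {e : (ℕ × ℕ) × γ → ε} {x : (ℕ × ℕ) × γ → α}
    (hs : PC a b s) (he : PC (a + 1) b e) (hx : PC (a + 1) b x) :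
    PC (a + 1) b (fun p : (ℕ × ℕ) × γ => (fun y => s (p.1, (e p, y)))^[p.1.1] (x p)) := by
  obtain ⟨K, hK⟩ := loopAux hs
  obtain ⟨L, hL⟩ := he.pair hx
  have h1 := CN.comp (CN.pair (CN.comp CN.fst CN.fst) (CN.pair CN.fst hL)) hK
  refine ⟨K + L + 10, h1.le fun p => ?_⟩
  simp only
  have h3 := sz_pos a b p.1.1 p.1.2
  have h4 : (p.1.1 + 1) ^ (a + 1) * (p.1.2 + 1) ^ b
      = (p.1.1 + 1) * ((p.1.1 + 1) ^ a * (p.1.2 + 1) ^ b) := by ring
  rw [h4]
  generalize (p.1.1 + 1) ^ a * (p.1.2 + 1) ^ b = S at *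
  have h5 : 1 ≤ (p.1.1 + 1) * S := by nlinarith
  nlinarith

/-- A loop with `m` rounds, with computed environment and initial value. -/
theorem loopM {s : (ℕ × ℕ) × (ε × α) → α} {e : (ℕ × ℕ) × γ → ε} {x : (ℕ × ℕ) × γ → α}
    (hs : PC a b s) (he : PC a (b + 1) e) (hx : PC a (b + 1) x) :
    PC a (b + 1) (fun p : (ℕ × ℕ) × γ => (fun y => s (p.1, (e p, y)))^[p.1.2] (x p)) := by
  obtain ⟨K, hK⟩ := loopAux hs
  obtain ⟨L, hL⟩ := he.pair hx
  have h1 := CN.comp (CN.pair (CN.comp CN.fst CN.snd) (CN.pair CN.fst hL)) hK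
  refine ⟨K + L + 10, h1.le fun p => ?_⟩
  simp only
  have h3 := sz_pos a b p.1.1 p.1.2
  have h4 : (p.1.1 + 1) ^ a * (p.1.2 + 1) ^ (b + 1)
      = (p.1.2 + 1) * ((p.1.1 + 1) ^ a * (p.1.2 + 1) ^ b) := by ring
  rw [h4]
  generalize (p.1.1 + 1) ^ a * (p.1.2 + 1) ^ b = S at *
  have h5 : 1 ≤ (p.1.2 + 1) * S := by nlinarith
  nlinarith

/-- `k` fold iteration, `k` fixed -/
theorem iter {s : (ℕ × ℕ) × (ε × α) → α} (hs : PC a b s) (k : ℕ) :
    PC a b (fun p : (ℕ × ℕ) × (ε × α) => (fun y => s (p.1, (p.2.1, y)))^[k] p.2.2) := by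
  induction k with
  | zero => exact arg.snd
  | succ k ih =>
    have h1 : PC a b (fun p : (ℕ × ℕ) × (ε × α) => (p.2.1, s p)) := arg.fst.pair hs
    have h2 := comp h1 ih
    refine h2.congr fun p => ?_
    simp only [Function.iterate_succ_apply]

end PC

end Pool.Agent.R563.RRam
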