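import Pool.Agent.R563.RRam.Norms

set_option autoImplicit false

/-! # Random matrices: general facts about product measures -/

noncomputable section

namespace Pool.Agent.R563.RRam

open MeasureTheory Set Matrix
open scoped ENNReal

/-- the law of an `n × n` matrix with independent entries of law `μ` -/
def law (μ : Measure ℝ) (n : ℕ) : Measure (Fin n → Fin n → ℝ) :=
  Measure.pi fun _ => Measure.pi fun _ => μ

instance (μ : Measure ℝ) [IsProbabilityMeasure μ] (n : ℕ) : IsProbabilityMeasure (law μ n) := by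
  unfold law; infer_instance

theorem pi_le_of_sections {α : Type} [MeasurableSpace α] {n : ℕ} (μ : Measure α)
    [IsProbabilityMeasure μ] (j : Fin (n + 1)) {S : Set (Fin (n + 1) → α)}
    (hS : MeasurableSet S) {q : ℝ≥0∞}
    (h : ∀ w : Fin n → α, μ {a | (j.insertNth a w : Fin (n + 1) → α) ∈ S} ≤ q) :
    Measure.pi (fun _ : Fin (n + 1) => μ) S ≤ q := by
  have hmp := (measurePreserving_piFinSuccAbove (fun _ : Fin (n + 1) => μ) j).symm
  rw [← hmp.measure_preimage hS.nullMeasurableSet]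
  have hS' : MeasurableSet ((MeasurableEquiv.piFinSuccAbove (fun _ : Fin (n + 1) => α) j).symm ⁻¹' S) :=
    (MeasurableEquiv.measurable _) hS
  rw [Measure.prod_apply_symm hS']
  calc _ ≤ ∫⁻ _ : Fin n → α, q ∂(Measure.pi fun _ : Fin n => μ) := by
        apply lintegral_mono
        intro w
        exact h w
    _ = q := by simp

theorem pi_comp_swap (μ : Measure ℝ) [IsProbabilityMeasure μ] (n : ℕ) :
    (Measure.pi (fun _ : Fin n × Fin n => μ)).map (fun f p => f (p.2, p.1))
      = Measure.pi (fun _ : Fin n × Fin n => μ) := by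
  symm
  refine Measure.pi_eq fun s hs => ?_
  rw [Measure.map_apply (by fun_prop) (MeasurableSet.univ_pi hs)]
  have h1 : (fun (f : Fin n × Fin n → ℝ) (p : Fin n × Fin n) => f (p.2, p.1)) ⁻¹'
      (Set.univ.pi s) = Set.univ.pi (fun p => s (p.2, p.1)) := by
    ext f
    simp only [Set.mem_preimage, Set.mem_univ_pi]
    constructor
    · intro h p; exact h (p.2, p.1)
    · intro h p; exact h (p.2, p.1)
  rw [h1, Measure.pi_pi]
  exact Fintype.prod_equiv (Equiv.prodComm _ _) _ _ fun p => rfl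

theorem law_eq (μ : Measure ℝ) [IsProbabilityMeasure μ] (n : ℕ) :
    law μ n = (Measure.pi (fun _ : Fin n × Fin n => μ)).map (fun f i j => f (i, j)) := by
  unfold law
  have h := Measure.infinitePi_map_curry (fun (_ : Fin n) (_ : Fin n) => μ)
  rw [Measure.infinitePi_eq_pi] at h
  have h2 : (fun _ : Fin n => Measure.infinitePi fun _ : Fin n => μ)
      = fun _ : Fin n => Measure.pi fun _ : Fin n => μ := by
    funext i
    rw [Measure.infinitePi_eq_pi]
  rw [h2, Measure.infinitePi_eq_pi] at h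
  rw [← h]
  rfl

theorem law_transpose (μ : Measure ℝ) [IsProbabilityMeasure μ] (n : ℕ) :
    (law μ n).map (fun A i j => A j i) = law μ n := by
  conv_lhs => rw [law_eq]
  rw [Measure.map_map (by fun_prop) (by fun_prop)]
  have h1 : ((fun (A : Fin n → Fin n → ℝ) (i j : Fin n) => A j i) ∘
      (fun (f : Fin n × Fin n → ℝ) (i j : Fin n) => f (i, j)))
      = (fun (f : Fin n × Fin n → ℝ) (i j : Fin n) => f (i, j)) ∘
        (fun (f : Fin n × Fin n → ℝ) (p : Fin n × Fin n) => f (p.2, p.1)) := by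
    funext f i j
    rfl
  rw [h1, ← Measure.map_map (by fun_prop) (by fun_prop), pi_comp_swap, ← law_eq]

theorem law_transpose_apply (μ : Measure ℝ) [IsProbabilityMeasure μ] (n : ℕ)
    {S : Set (Fin n → Fin n → ℝ)} (hS : MeasurableSet S) :
    law μ n {A | (fun i j => A j i) ∈ S} = law μ n S := by
  conv_rhs => rw [← law_transpose μ n]
  rw [Measure.map_apply (by fun_prop) hS]
  rfl

/-- the rows are independent -/
theorem law_rows_le (μ : Measure ℝ) [IsProbabilityMeasure μ] (n : ℕ) (k : Fin n)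
    {S : Set (Fin n → ℝ)} {q : ℝ≥0∞} (h : Measure.pi (fun _ : Fin n => μ) S ≤ q) :
    law μ n {A | ∀ i, i ≠ k → A i ∈ S} ≤ q ^ (n - 1) := by
  have h1 : {A : Fin n → Fin n → ℝ | ∀ i, i ≠ k → A i ∈ S}
      = Set.univ.pi (fun i => if i = k then Set.univ else S) := by
    ext A
    simp only [Set.mem_ofPred_eq, Set.mem_univ_pi]
    refine forall_congr' fun i => ?_
    by_cases hi : i = k <;> simp [hi]
  unfold law
  rw [h1, Measure.pi_pi]
  have h2 : ∀ i : Fin n, (Measure.pi (fun _ : Fin n => μ)) (if i = k then Set.univ else S)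
      = if i = k then 1 else (Measure.pi (fun _ : Fin n => μ)) S := by
    intro i
    split_ifs
    · exact measure_univ
    · rfl
  rw [Finset.prod_congr rfl fun i _ => h2 i]
  rw [← Finset.mul_prod_erase Finset.univ _ (Finset.mem_univ k)]
  rw [if_pos rfl, one_mul]
  rw [Finset.prod_congr rfl fun i hi => if_neg (Finset.ne_of_mem_erase hi)]
  rw [Finset.prod_const, Finset.card_erase_of_mem (Finset.mem_univ k), Finset.card_univ,
    Fintype.card_fin]
  exact pow_le_pow_left' h _

/-- a linear form with one large coefficient -/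
theorem pi_dot_le (μ : Measure ℝ) [IsProbabilityMeasure μ]
    (hac : ∀ u : ℝ, μ {x | |x - u| ≤ 1 / 4} ≤ 1 / 2) {n : ℕ} (y : Fin n → ℝ) (j : Fin n)
    {s : ℝ} (hy : 0 < |y j|) (hs : s ≤ |y j| / 4) :
    Measure.pi (fun _ : Fin n => μ) {b | |b ⬝ᵥ y| ≤ s} ≤ 1 / 2 := by
  obtain ⟨k, rfl⟩ : ∃ k, n = k + 1 := ⟨n - 1, by have := j.2; omega⟩
  refine pi_le_of_sections μ j ?_ fun w => ?_
  · apply measurableSet_le _ measurable_const
    unfold dotProduct
    fun_prop
  · refine le_trans (measure_mono ?_) (hac (-(∑ i, w i * y (j.succAbove i)) / y j))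
    intro a ha
    simp only [Set.mem_ofPred_eq] at ha ⊢
    have h1 : (j.insertNth a w : Fin (k + 1) → ℝ) ⬝ᵥ y
        = a * y j + ∑ i, w i * y (j.succAbove i) := by
      unfold dotProduct
      rw [Fin.sum_univ_succAbove _ j]
      simp
    rw [h1] at ha
    have hyj : y j ≠ 0 := abs_pos.1 hy
    have h2 : a - -(∑ i, w i * y (j.succAbove i)) / y j
        = (a * y j + ∑ i, w i * y (j.succAbove i)) / y j := by
      field_simp
      ring
    rw [h2, abs_div, div_le_iff₀ hy]
    linarith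

theorem abs_dot_le {n : ℕ} (u v : Fin n → ℝ) : |u ⬝ᵥ v| ≤ nv u * nv v := by
  have h1 : (u ⬝ᵥ v) ^ 2 ≤ (nv u) ^ 2 * (nv v) ^ 2 := by
    rw [nv_sq, nv_sq]
    exact Finset.sum_mul_sq_le_sq_mul_sq _ _ _
  have h2 : |u ⬝ᵥ v| ^ 2 ≤ (nv u * nv v) ^ 2 := by
    rw [sq_abs, mul_pow]; exact h1
  exact (sq_le_sq₀ (abs_nonneg _) (mul_nonneg (nv_nonneg _) (nv_nonneg _))).1 h2

end Pool.Agent.R563.RRam
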