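import Pool.Agent.R563.RRam.Prob1

set_option autoImplicit false

/-! # Random matrices: the smallest singular value -/

noncomputable section

namespace Pool.Agent.R563.RRam

open MeasureTheory Set Matrix
open scoped ENNReal

/-- the grid -/
def grd (K : ℕ) (q : Fin (2 * K + 1)) : ℝ := ((q : ℕ) : ℝ) / K - 1

/-- sparse vectors with coordinates in the grid -/
def yF {n m : ℕ} (K : ℕ) (F : Fin m → Fin n × Fin (2 * K + 1)) : Fin n → ℝ :=
  ∑ l, Pi.single (F l).1 (grd K (F l).2)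

theorem exists_yF {n : ℕ} (hn : 0 < n) {K : ℕ} (hK : 0 < K) (q : Fin n → Fin (2 * K + 1)) :
    ∀ (m : ℕ) (S : Finset (Fin n)), S.card ≤ m →
      ∃ F : Fin m → Fin n × Fin (2 * K + 1), yF K F = ∑ i ∈ S, Pi.single i (grd K (q i)) := by
  intro m
  induction m with
  | zero =>
    intro S hS
    have : S = ∅ := Finset.card_eq_zero.1 (by omega)
    subst this
    exact ⟨fun l => l.elim0, by simp [yF]⟩
  | succ m ih =>
    intro S hS
    rcases S.eq_empty_or_nonempty with rfl | ⟨i, hi⟩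
    · obtain ⟨F, hF⟩ := ih ∅ (by simp)
      refine ⟨Fin.cons (⟨0, hn⟩, ⟨K, by omega⟩) F, ?_⟩
      unfold yF at hF ⊢
      rw [Fin.sum_univ_succ]
      simp only [Fin.cons_zero, Fin.cons_succ]
      rw [hF]
      have : grd K ⟨K, by omega⟩ = 0 := by
        unfold grd
        have hK' : (K : ℝ) ≠ 0 := by exact_mod_cast hK.ne'
        simp [hK']
      rw [this]
      simp
    · obtain ⟨F, hF⟩ := ih (S.erase i) (by rw [Finset.card_erase_of_mem hi]; omega)
      refine ⟨Fin.cons (i, q i) F, ?_⟩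
      unfold yF at hF ⊢
      rw [Fin.sum_univ_succ]
      simp only [Fin.cons_zero, Fin.cons_succ]
      rw [hF, Finset.add_sum_erase S (fun i => Pi.single i (grd K (q i))) hi]

theorem exists_grd {K : ℕ} (hK : 0 < K) {x : ℝ} (hx : |x| ≤ 1) :
    ∃ q : Fin (2 * K + 1), |x - grd K q| ≤ 1 / K := by
  have hK' : (0 : ℝ) < K := by exact_mod_cast hK
  obtain ⟨h1, h2⟩ := abs_le.1 hx
  have h0 : 0 ≤ (x + 1) * K := by
    apply mul_nonneg (by linarith) hK'.le
  have h3 : ⌊(x + 1) * K⌋₊ < 2 * K + 1 := by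
    rw [Nat.floor_lt h0]
    push_cast
    nlinarith
  refine ⟨⟨⌊(x + 1) * K⌋₊, h3⟩, ?_⟩
  unfold grd
  simp only
  have h4 := Nat.floor_le h0
  have h5 := Nat.lt_floor_add_one ((x + 1) * K)
  have h6 : x - ((⌊(x + 1) * K⌋₊ : ℝ) / K - 1) = ((x + 1) * K - ⌊(x + 1) * K⌋₊) / K := by
    field_simp
    ring
  rw [h6, abs_div, abs_of_pos hK']
  apply div_le_div_of_nonneg_right _ hK'.le
  rw [abs_le]
  constructor <;> linarith

/-- approximation of compressible vectors -/
theorem approx {n : ℕ} (hn : 0 < n) {K : ℕ} (hK : 0 < K) {m : ℕ} (x : Fin n → ℝ)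
    (hx : ∀ i, |x i| ≤ 1) (hm : (Finset.univ.filter fun i => 1 / (K : ℝ) ≤ |x i|).card ≤ m) :
    ∃ F : Fin m → Fin n × Fin (2 * K + 1), ∀ i, |x i - yF K F i| ≤ 1 / K := by
  choose q hq using fun i => exists_grd hK (hx i)
  obtain ⟨F, hF⟩ := exists_yF hn hK q m _ hm
  refine ⟨F, fun i => ?_⟩
  rw [hF]
  have h1 : (∑ j ∈ Finset.univ.filter (fun i => 1 / (K : ℝ) ≤ |x i|),
      (Pi.single j (grd K (q j)) : Fin n → ℝ)) i
      = if 1 / (K : ℝ) ≤ |x i| then grd K (q i) else 0 := by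
    rw [Finset.sum_apply]
    simp only [Pi.single_apply]
    rw [Finset.sum_ite_eq]
    simp
  rw [h1]
  split_ifs with h
  · exact hq i
  · rw [sub_zero]
    exact (not_le.1 h).le

/-- the bad set of matrices: a sparse grid vector is almost orthogonal to all rows but one -/
def CB (n K m : ℕ) : Set (Fin n → Fin n → ℝ) :=
  {A | ∃ (F : Fin m → Fin n × Fin (2 * K + 1)) (k : Fin n), 1 / 2 ≤ nv (yF K F) ∧
    ∀ i, i ≠ k → A i ∈ {b : Fin n → ℝ | |b ⬝ᵥ yF K F| ≤ 1 / (8 * n)}}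

theorem measurable_dot {n : ℕ} (y : Fin n → ℝ) : Measurable fun b : Fin n → ℝ => b ⬝ᵥ y := by
  unfold dotProduct
  fun_prop

theorem measurableSet_CB (n K m : ℕ) : MeasurableSet (CB n K m) := by
  unfold CB
  simp only [measurableSet_setOfPred]
  refine Measurable.exists fun F => Measurable.exists fun k => ?_
  refine Measurable.and measurable_const ?_
  refine Measurable.forall fun i => ?_
  refine Measurable.imp measurable_const ?_
  apply measurableSet_setOfPred.1
  have h : Measurable fun A : Fin n → Fin n → ℝ => |A i ⬝ᵥ yF K F| :=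
    ((measurable_dot _).comp (measurable_pi_apply i)).norm
  exact measurableSet_le h measurable_const

theorem exists_large {n : ℕ} (hn : 0 < n) (y : Fin n → ℝ) (hy : 1 / 2 ≤ nv y) :
    ∃ j, 1 / (2 * (n : ℝ)) ≤ |y j| := by
  by_contra hcon
  push Not at hcon
  have hn' : (1 : ℝ) ≤ n := by exact_mod_cast hn
  have h1 : nv y ^ 2 < 1 / 4 := by
    rw [nv_sq]
    have h2 : ∑ i, y i ^ 2 < ∑ _i : Fin n, (1 / (2 * (n : ℝ))) ^ 2 := by
      apply Finset.sum_lt_sum_of_nonempty ⟨⟨0, hn⟩, Finset.mem_univ _⟩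
      intro i _
      rw [← sq_abs]
      exact pow_lt_pow_left₀ (hcon i) (abs_nonneg _) (by norm_num)
    refine lt_of_lt_of_le h2 ?_
    rw [Finset.sum_const, Finset.card_univ, Fintype.card_fin, nsmul_eq_mul]
    have : (n : ℝ) * (1 / (2 * n)) ^ 2 = 1 / (4 * n) := by
      field_simp
      norm_num
    rw [this]
    apply div_le_div_of_nonneg_left (by norm_num) (by norm_num)
    linarith
  nlinarith

theorem law_CB_le (μ : Measure ℝ) [IsProbabilityMeasure μ]
    (hac : ∀ u : ℝ, μ {x | |x - u| ≤ 1 / 4} ≤ 1 / 2) {n : ℕ} (hn : 0 < n) (K m : ℕ) :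
    law μ n (CB n K m) ≤ ((n * (2 * K + 1)) ^ m * n : ℕ) * (1 / 2) ^ (n - 1) := by
  have h1 : CB n K m ⊆ ⋃ F : Fin m → Fin n × Fin (2 * K + 1), ⋃ k : Fin n,
      {A | 1 / 2 ≤ nv (yF K F) ∧
        ∀ i, i ≠ k → A i ∈ {b : Fin n → ℝ | |b ⬝ᵥ yF K F| ≤ 1 / (8 * n)}} := by
    rintro A ⟨F, k, h⟩
    simp only [Set.mem_iUnion]
    exact ⟨F, k, h⟩
  refine (measure_mono h1).trans ?_
  refine (measure_iUnion_le _).trans ?_
  refine (ENNReal.tsum_le_tsum fun F => measure_iUnion_le _).trans ?_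
  rw [tsum_fintype]
  have h2 : ∀ (F : Fin m → Fin n × Fin (2 * K + 1)) (k : Fin n),
      law μ n {A | 1 / 2 ≤ nv (yF K F) ∧
        ∀ i, i ≠ k → A i ∈ {b : Fin n → ℝ | |b ⬝ᵥ yF K F| ≤ 1 / (8 * n)}}
        ≤ (1 / 2) ^ (n - 1) := by
    intro F k
    by_cases hF : 1 / 2 ≤ nv (yF K F)
    · obtain ⟨j, hj⟩ := exists_large hn _ hF
      have hn' : (0 : ℝ) < n := by exact_mod_cast hn
      have h3 := pi_dot_le μ hac (yF K F) j (s := 1 / (8 * n))
        (lt_of_lt_of_le (by positivity) hj) (by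
          have : 1 / (8 * (n : ℝ)) = (1 / (2 * n)) / 4 := by
            field_simp; norm_num
          rw [this]
          linarith)
      refine le_trans (measure_mono ?_) (law_rows_le μ n k h3)
      intro A hA
      exact hA.2
    · have : {A : Fin n → Fin n → ℝ | 1 / 2 ≤ nv (yF K F) ∧
        ∀ i, i ≠ k → A i ∈ {b : Fin n → ℝ | |b ⬝ᵥ yF K F| ≤ 1 / (8 * n)}} = ∅ := by
        ext A
        simp only [Set.mem_ofPred_eq, Set.mem_empty_iff_false, iff_false, not_and]
        intro h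
        exact absurd h hF
      rw [this]
      simp
  calc _ ≤ ∑ _F : Fin m → Fin n × Fin (2 * K + 1), ∑ _k : Fin n,
        ((1 / 2 : ℝ≥0∞) ^ (n - 1)) := by
        apply Finset.sum_le_sum
        intro F _
        rw [tsum_fintype]
        exact Finset.sum_le_sum fun k _ => h2 F k
    _ = _ := by
        simp only [Finset.sum_const, Finset.card_univ, Fintype.card_fin, nsmul_eq_mul,
          Fintype.card_fun, Fintype.card_prod]
        push_cast
        ring

/-- a normalised compressible vector which is almost orthogonal to all rows but one -/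
theorem mem_CB {n : ℕ} (hn : 0 < n) {K : ℕ} (hK : K = 16 * n ^ 3) {m : ℕ}
    (A : Fin n → Fin n → ℝ) (hA : ∀ i j, |A i j| ≤ n) (x : Fin n → ℝ) (hx : nv x = 1)
    (hm : (Finset.univ.filter fun i => 1 / (K : ℝ) ≤ |x i|).card ≤ m) (k : Fin n)
    (h : ∀ i, i ≠ k → |A i ⬝ᵥ x| ≤ 1 / (16 * n)) : A ∈ CB n K m := by
  have hn' : (1 : ℝ) ≤ n := by exact_mod_cast hn
  have hn0 : (0 : ℝ) < n := by linarith
  have hK0 : 0 < K := by rw [hK]; positivity
  have hKr : (K : ℝ) = 16 * (n : ℝ) ^ 3 := by rw [hK]; push_cast; ring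
  obtain ⟨F, hF⟩ := approx hn hK0 x (fun i => (abs_le_nv x i).trans hx.le) hm
  refine ⟨F, k, ?_, fun i hi => ?_⟩
  · have h1 : nv (x - yF K F) ≤ 1 / 2 := by
      apply nv_le (by norm_num)
      calc ∑ i, (x - yF K F) i ^ 2 ≤ ∑ _i : Fin n, (1 / (K : ℝ)) ^ 2 := by
            apply Finset.sum_le_sum
            intro i _
            rw [← sq_abs]
            exact pow_le_pow_left₀ (abs_nonneg _) (hF i) 2
        _ = n * (1 / (K : ℝ)) ^ 2 := by
            rw [Finset.sum_const, Finset.card_univ, Fintype.card_fin, nsmul_eq_mul]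
        _ = 1 / (256 * (n : ℝ) ^ 5) := by
            rw [hKr]; field_simp; norm_num
        _ ≤ (1 / 2) ^ 2 := by
            rw [div_le_iff₀ (by positivity)]
            have : (1 : ℝ) ≤ (n : ℝ) ^ 5 := one_le_pow₀ hn'
            nlinarith
    have h2 : nv x ≤ nv (yF K F) + nv (x - yF K F) := by
      have := nv_add (yF K F) (x - yF K F)
      rwa [add_sub_cancel] at this
    linarith
  · show |A i ⬝ᵥ yF K F| ≤ 1 / (8 * n)
    have h1 : A i ⬝ᵥ yF K F = A i ⬝ᵥ x - A i ⬝ᵥ (x - yF K F) := by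
      rw [dotProduct_sub]; ring
    have h2 : |A i ⬝ᵥ (x - yF K F)| ≤ 1 / (16 * n) := by
      unfold dotProduct
      calc |∑ j, A i j * (x - yF K F) j| ≤ ∑ j, |A i j * (x - yF K F) j| :=
            Finset.abs_sum_le_sum_abs _ _
        _ ≤ ∑ _j : Fin n, (n : ℝ) * (1 / K) := by
            apply Finset.sum_le_sum
            intro j _
            rw [abs_mul]
            exact mul_le_mul (hA i j) (hF j) (abs_nonneg _) hn0.le
        _ = 1 / (16 * n) := by
            rw [Finset.sum_const, Finset.card_univ, Fintype.card_fin, nsmul_eq_mul, hKr]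
            field_simp
    rw [h1]
    calc |A i ⬝ᵥ x - A i ⬝ᵥ (x - yF K F)| ≤ |A i ⬝ᵥ x| + |A i ⬝ᵥ (x - yF K F)| := abs_sub _ _
      _ ≤ 1 / (16 * n) + 1 / (16 * n) := add_le_add (h i hi) h2
      _ = 1 / (8 * n) := by field_simp; norm_num

/-- row `k` is close to the span of the others -/
def EK (n : ℕ) (k : Fin n) (d : ℝ) : Set (Fin n → Fin n → ℝ) :=
  {A | ∃ c : Fin n → ℝ, c k = 1 ∧ nv (fun j => ∑ i, c i * A i j) < d}

theorem isOpen_EK (n : ℕ) (k : Fin n) (d : ℝ) : IsOpen (EK n k d) := by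
  have : EK n k d = ⋃ c : {c : Fin n → ℝ // c k = 1},
      {A | nv (fun j => ∑ i, c.1 i * A i j) < d} := by
    ext A
    simp [EK]
  rw [this]
  refine isOpen_iUnion fun c => ?_
  apply isOpen_lt _ continuous_const
  unfold nv
  fun_prop

/-- the three bad sets are avoided, and the entries are at most `n` -/
def BD (n : ℕ) : Set (Fin n → Fin n → ℝ) := {A | ∀ i j, |A i j| ≤ n}

theorem measurableSet_BD (n : ℕ) : MeasurableSet (BD n) := by
  unfold BD
  simp only [measurableSet_setOfPred]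
  refine Measurable.forall fun i => Measurable.forall fun j => ?_
  apply measurableSet_setOfPred.1
  refine measurableSet_le ?_ measurable_const
  fun_prop

/-- the set whose measure is estimated by conditioning on all rows but one -/
def SK (n K m : ℕ) (k : Fin n) (d : ℝ) : Set (Fin n → Fin n → ℝ) :=
  (EK n k d ∩ (CB n K m)ᶜ) ∩ BD n

theorem measurableSet_SK (n K m : ℕ) (k : Fin n) (d : ℝ) : MeasurableSet (SK n K m k d) :=
  ((isOpen_EK n k d).measurableSet.inter (measurableSet_CB n K m).compl).inter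
    (measurableSet_BD n)

/-- a unit vector orthogonal to all rows but one -/
theorem exists_normal {n : ℕ} (A : Fin n → Fin n → ℝ) (k : Fin n) :
    ∃ v : Fin n → ℝ, nv v = 1 ∧ ∀ i, i ≠ k → A i ⬝ᵥ v = 0 := by
  have hdet : (Matrix.updateRow (Matrix.of A) k 0).det = 0 :=
    Matrix.det_eq_zero_of_row_eq_zero k fun j => by simp
  obtain ⟨v, hv0, hv⟩ := Matrix.exists_mulVec_eq_zero_iff.2 hdet
  have hpos : 0 < nv v := by
    rcases (nv_nonneg v).lt_or_eq with h | h
    · exact h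
    · exfalso
      apply hv0
      funext i
      have := abs_le_nv v i
      rw [← h] at this
      simpa using this
  refine ⟨(nv v)⁻¹ • v, ?_, fun i hi => ?_⟩
  · rw [nv_smul, abs_of_pos (inv_pos.2 hpos), inv_mul_cancel₀ hpos.ne']
  · rw [dotProduct_smul]
    have h1 := congrFun hv i
    simp only [Matrix.mulVec, Pi.zero_apply] at h1
    rw [Matrix.updateRow_ne hi] at h1
    have h2 : A i ⬝ᵥ v = 0 := h1
    rw [h2]
    simp

theorem law_SK_le (μ : Measure ℝ) [IsProbabilityMeasure μ] {n : ℕ} (hn : 0 < n) {K : ℕ}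
    (hK : K = 16 * n ^ 3) {m : ℕ} (k : Fin n) {η : ℝ≥0∞}
    (hLO : ∀ v : Fin n → ℝ, nv v = 1 →
      m < (Finset.univ.filter fun i => 1 / (K : ℝ) ≤ |v i|).card →
      Measure.pi (fun _ : Fin n => μ) {a | |a ⬝ᵥ v| ≤ 1 / (8 * K)} ≤ η) :
    law μ n (SK n K m k (1 / (8 * K))) ≤ η := by
  obtain ⟨l, rfl⟩ : ∃ l, n = l + 1 := ⟨n - 1, by omega⟩
  unfold law
  refine pi_le_of_sections _ k (measurableSet_SK _ _ _ _ _) fun w => ?_
  by_cases hne : ∃ a0 : Fin (l + 1) → ℝ,
      (k.insertNth a0 w : Fin (l + 1) → Fin (l + 1) → ℝ) ∈ SK (l + 1) K m k (1 / (8 * K))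
  · obtain ⟨a0, ha0⟩ := hne
    obtain ⟨v, hv1, hv2⟩ := exists_normal (k.insertNth a0 w : Fin (l + 1) → Fin (l + 1) → ℝ) k
    have hsp : m < (Finset.univ.filter fun i => 1 / (K : ℝ) ≤ |v i|).card := by
      by_contra hcon
      exact ha0.1.2 (mem_CB hn hK _ ha0.2 v hv1 (not_lt.1 hcon) k fun i hi => by
        rw [hv2 i hi]; simp; positivity)
    refine le_trans (measure_mono ?_) (hLO v hv1 hsp)
    intro a ha
    obtain ⟨⟨⟨c, hc1, hc2⟩, _⟩, _⟩ := ha
    simp only [Set.mem_ofPred_eq]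
    set B : Fin (l + 1) → Fin (l + 1) → ℝ := k.insertNth a w with hB
    have hBk : B k = a := by rw [hB]; simp
    have hBi : ∀ i, i ≠ k → B i ⬝ᵥ v = 0 := by
      intro i hi
      obtain ⟨i', rfl⟩ := Fin.exists_succAbove_eq hi
      have := hv2 _ hi
      simp only [Fin.insertNth_apply_succAbove] at this
      rw [hB]
      simpa using this
    have h1 : a ⬝ᵥ v = (fun j => ∑ i, c i * B i j) ⬝ᵥ v := by
      have h2 : (fun j => ∑ i, c i * B i j) ⬝ᵥ v = ∑ i, c i * (B i ⬝ᵥ v) := by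
        unfold dotProduct
        simp only [Finset.sum_mul, Finset.mul_sum]
        rw [Finset.sum_comm]
        refine Finset.sum_congr rfl fun i _ => Finset.sum_congr rfl fun j _ => by ring
      rw [h2, Finset.sum_eq_single k]
      · rw [hc1, hBk, one_mul]
      · intro i _ hi
        rw [hBi i hi, mul_zero]
      · intro h; exact absurd (Finset.mem_univ k) h
    rw [h1]
    calc |(fun j => ∑ i, c i * B i j) ⬝ᵥ v| ≤ nv (fun j => ∑ i, c i * B i j) * nv v :=
          abs_dot_le _ _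
      _ ≤ 1 / (8 * K) := by rw [hv1, mul_one]; exact hc2.le
  · have : {a : Fin (l + 1) → ℝ | (k.insertNth a w : Fin (l + 1) → Fin (l + 1) → ℝ) ∈
        SK (l + 1) K m k (1 / (8 * K))} = ∅ := by
      ext a
      simp only [Set.mem_ofPred_eq, Set.mem_empty_iff_false, iff_false]
      intro h
      exact hne ⟨a, h⟩
    rw [this]
    simp

/-- at least `m + 1` of the sets `SK` occur -/
def ZS (n K m : ℕ) : Set (Fin n → Fin n → ℝ) :=
  {A | ((m + 1 : ℕ) : ℝ≥0∞) ≤ ∑ k : Fin n, (SK n K m k (1 / (8 * K))).indicator 1 A}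

theorem measurable_sumind (n K m : ℕ) : Measurable fun A : Fin n → Fin n → ℝ =>
    ∑ k : Fin n, (SK n K m k (1 / (8 * K))).indicator (1 : (Fin n → Fin n → ℝ) → ℝ≥0∞) A := by
  refine Finset.measurable_fun_sum _ fun k _ => ?_
  exact measurable_one.indicator (measurableSet_SK n K m k _)

theorem measurableSet_ZS (n K m : ℕ) : MeasurableSet (ZS n K m) :=
  measurableSet_le measurable_const (measurable_sumind n K m)

theorem law_ZS_le (μ : Measure ℝ) [IsProbabilityMeasure μ] {n : ℕ} (hn : 0 < n) {K : ℕ}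
    (hK : K = 16 * n ^ 3) {m : ℕ} {η : ℝ≥0∞}
    (hLO : ∀ v : Fin n → ℝ, nv v = 1 →
      m < (Finset.univ.filter fun i => 1 / (K : ℝ) ≤ |v i|).card →
      Measure.pi (fun _ : Fin n => μ) {a | |a ⬝ᵥ v| ≤ 1 / (8 * K)} ≤ η) :
    law μ n (ZS n K m) ≤ n * η / (m + 1 : ℕ) := by
  have h1 := mul_meas_ge_le_lintegral₀ (μ := law μ n) (measurable_sumind n K m).aemeasurable
    ((m + 1 : ℕ) : ℝ≥0∞)
  have h2 : ∫⁻ A, ∑ k : Fin n, (SK n K m k (1 / (8 * K))).indicator
      (1 : (Fin n → Fin n → ℝ) → ℝ≥0∞) A ∂(law μ n) ≤ n * η := by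
    rw [lintegral_finsetSum _ fun k _ => measurable_one.indicator (measurableSet_SK n K m k _)]
    calc _ ≤ ∑ _k : Fin n, η := by
          apply Finset.sum_le_sum
          intro k _
          rw [lintegral_indicator_one (measurableSet_SK n K m k _)]
          exact law_SK_le μ hn hK k hLO
      _ = n * η := by simp
  rw [ENNReal.le_div_iff_mul_le (Or.inl (by simp)) (Or.inl (by simp)), mul_comm]
  exact h1.trans h2

/-- the good event -/
def EN (n m : ℕ) : Set (Fin n → Fin n → ℝ) :=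
  ((BD n ∩ (CB n (16 * n ^ 3) m)ᶜ) ∩ {A | (fun i j => A j i) ∈ CB n (16 * n ^ 3) m}ᶜ) ∩
    (ZS n (16 * n ^ 3) m)ᶜ

theorem measurableSet_EN (n m : ℕ) : MeasurableSet (EN n m) := by
  unfold EN
  refine ((((measurableSet_BD n).inter (measurableSet_CB _ _ _).compl).inter ?_).inter
    (measurableSet_ZS _ _ _).compl)
  refine MeasurableSet.compl ?_
  have : Measurable fun (A : Fin n → Fin n → ℝ) (i j : Fin n) => A j i := by fun_prop
  exact this (measurableSet_CB _ _ _)

/-- on the good event the smallest singular value is not small -/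
theorem EN_spec {n : ℕ} (hn : 0 < n) {m : ℕ} {A : Fin n → Fin n → ℝ} (hA : A ∈ EN n m) :
    (∀ i j, |A i j| ≤ n) ∧
      ∀ x, 1 / (2048 * (n : ℝ) ^ 6) * nv x ≤ nv ((Matrix.of A)ᵀ *ᵥ x) := by
  obtain ⟨⟨⟨hbd, hcb⟩, hcbt⟩, hz⟩ := hA
  refine ⟨hbd, ?_⟩
  have hn' : (1 : ℝ) ≤ n := by exact_mod_cast hn
  have hn0 : (0 : ℝ) < n := by linarith
  set K : ℕ := 16 * n ^ 3 with hK
  have hKr : (K : ℝ) = 16 * (n : ℝ) ^ 3 := by rw [hK]; push_cast; ring
  have hK0 : (0 : ℝ) < K := by rw [hKr]; positivity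
  -- normalised version
  have key : ∀ x, nv x = 1 → 1 / (2048 * (n : ℝ) ^ 6) ≤ nv ((Matrix.of A)ᵀ *ᵥ x) := by
    intro x hx
    by_contra hcon
    rw [not_le] at hcon
    have hmv : ∀ j, ((Matrix.of A)ᵀ *ᵥ x) j = (fun i => A i j) ⬝ᵥ x := by
      intro j; rfl
    by_cases hm : (Finset.univ.filter fun i => 1 / (K : ℝ) ≤ |x i|).card ≤ m
    · -- compressible
      apply hcbt
      refine mem_CB hn hK _ (fun i j => hbd j i) x hx hm ⟨0, hn⟩ fun i _ => ?_
      have h1 := abs_le_nv ((Matrix.of A)ᵀ *ᵥ x) i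
      rw [hmv] at h1
      refine h1.trans (hcon.le.trans ?_)
      apply div_le_div_of_nonneg_left (by norm_num) (by positivity)
      have : (n : ℝ) ≤ (n : ℝ) ^ 6 := le_self_pow₀ hn' (by norm_num)
      nlinarith
    · -- spread
      apply hz
      rw [not_le] at hm
      have h1 : ∀ k, 1 / (K : ℝ) ≤ |x k| → A ∈ SK n K m k (1 / (8 * K)) := by
        intro k hk
        have hxk : 0 < |x k| := lt_of_lt_of_le (by positivity) hk
        have hxk0 : x k ≠ 0 := abs_pos.1 hxk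
        refine ⟨⟨⟨(x k)⁻¹ • x, ?_, ?_⟩, hcb⟩, hbd⟩
        · simp [hxk0]
        · have h2 : (fun j => ∑ i, ((x k)⁻¹ • x) i * A i j) = (x k)⁻¹ • ((Matrix.of A)ᵀ *ᵥ x) := by
            funext j
            rw [Pi.smul_apply, hmv]
            simp only [dotProduct, Pi.smul_apply, smul_eq_mul, Finset.mul_sum]
            refine Finset.sum_congr rfl fun i _ => by ring
          rw [h2, nv_smul, abs_inv, inv_mul_lt_iff₀ hxk]
          calc nv ((Matrix.of A)ᵀ *ᵥ x) < 1 / (2048 * (n : ℝ) ^ 6) := hcon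
            _ = 1 / (K : ℝ) * (1 / (8 * K)) := by rw [hKr]; field_simp; norm_num
            _ ≤ |x k| * (1 / (8 * K)) := by
                apply mul_le_mul_of_nonneg_right hk
                positivity
      show ((m + 1 : ℕ) : ℝ≥0∞) ≤ ∑ k : Fin n, (SK n K m k (1 / (8 * K))).indicator 1 A
      calc ((m + 1 : ℕ) : ℝ≥0∞)
          ≤ (((Finset.univ.filter fun i => 1 / (K : ℝ) ≤ |x i|).card : ℕ) : ℝ≥0∞) := by
            exact_mod_cast hm
        _ = ∑ k ∈ Finset.univ.filter (fun i => 1 / (K : ℝ) ≤ |x i|), (1 : ℝ≥0∞) := by simp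
        _ = ∑ k ∈ Finset.univ.filter (fun i => 1 / (K : ℝ) ≤ |x i|),
              (SK n K m k (1 / (8 * K))).indicator 1 A := by
            refine Finset.sum_congr rfl fun k hk => ?_
            rw [Set.indicator_of_mem (h1 k (Finset.mem_filter.1 hk).2)]
            rfl
        _ ≤ _ := Finset.sum_le_sum_of_subset (Finset.filter_subset _ _)
  intro x
  rcases (nv_nonneg x).lt_or_eq with h | h
  · have h1 := key ((nv x)⁻¹ • x) (by
      rw [nv_smul, abs_of_pos (inv_pos.2 h), inv_mul_cancel₀ h.ne'])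
    rw [Matrix.mulVec_smul, nv_smul, abs_of_pos (inv_pos.2 h)] at h1
    calc 1 / (2048 * (n : ℝ) ^ 6) * nv x
        ≤ ((nv x)⁻¹ * nv ((Matrix.of A)ᵀ *ᵥ x)) * nv x :=
          mul_le_mul_of_nonneg_right h1 h.le
      _ = nv ((Matrix.of A)ᵀ *ᵥ x) := by field_simp
  · rw [← h, mul_zero]
    exact nv_nonneg _

theorem law_BD_compl_le (μ : Measure ℝ) [IsProbabilityMeasure μ] (n : ℕ) :
    law μ n (BD n)ᶜ ≤ (n : ℝ≥0∞) ^ 2 * μ {x | (n : ℝ) < |x|} := by
  have h1 : (BD n)ᶜ ⊆ ⋃ i : Fin n, ⋃ j : Fin n, {A | (n : ℝ) < |A i j|} := by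
    intro A hA
    simp only [BD, Set.mem_compl_iff, Set.mem_ofPred_eq, not_forall, not_le] at hA
    obtain ⟨i, j, h⟩ := hA
    simp only [Set.mem_iUnion]
    exact ⟨i, j, h⟩
  refine (measure_mono h1).trans ((measure_iUnion_le _).trans ?_)
  refine (ENNReal.tsum_le_tsum fun F => measure_iUnion_le _).trans ?_
  rw [tsum_fintype]
  have h2 : ∀ i j : Fin n, law μ n {A | (n : ℝ) < |A i j|} = μ {x | (n : ℝ) < |x|} := by
    intro i j
    have hms : MeasurableSet {x : ℝ | (n : ℝ) < |x|} :=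
      measurableSet_lt measurable_const measurable_id.norm
    have e1 := measurePreserving_eval (fun _ : Fin n => Measure.pi fun _ : Fin n => μ) i
    have e2 := measurePreserving_eval (fun _ : Fin n => μ) j
    have e3 := (e2.comp e1).measure_preimage hms.nullMeasurableSet
    rw [← e3]
    rfl
  simp only [tsum_fintype, h2]
  simp only [Finset.sum_const, Finset.card_univ, Fintype.card_fin, nsmul_eq_mul]
  rw [← mul_assoc, sq]

/-- the probability of the good event -/
theorem law_EN_compl_le (μ : Measure ℝ) [IsProbabilityMeasure μ]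
    (hac : ∀ u : ℝ, μ {x | |x - u| ≤ 1 / 4} ≤ 1 / 2) {n : ℕ} (hn : 0 < n) {m : ℕ} {η : ℝ≥0∞}
    (hLO : ∀ v : Fin n → ℝ, nv v = 1 →
      m < (Finset.univ.filter fun i => 1 / ((16 * n ^ 3 : ℕ) : ℝ) ≤ |v i|).card →
      Measure.pi (fun _ : Fin n => μ) {a | |a ⬝ᵥ v| ≤ 1 / (8 * ((16 * n ^ 3 : ℕ) : ℝ))} ≤ η) :
    law μ n (EN n m)ᶜ ≤ (n : ℝ≥0∞) ^ 2 * μ {x | (n : ℝ) < |x|}
      + 2 * (((n * (2 * (16 * n ^ 3) + 1)) ^ m * n : ℕ) * (1 / 2) ^ (n - 1))
      + n * η / (m + 1 : ℕ) := by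
  set K : ℕ := 16 * n ^ 3 with hK
  have h1 : (EN n m)ᶜ ⊆ (((BD n)ᶜ ∪ CB n K m) ∪ {A | (fun i j => A j i) ∈ CB n K m})
      ∪ ZS n K m := by
    intro A hA
    by_contra hcon
    apply hA
    simp only [Set.mem_union, not_or, Set.mem_compl_iff, not_not] at hcon
    exact ⟨⟨⟨hcon.1.1.1, hcon.1.1.2⟩, hcon.1.2⟩, hcon.2⟩
  refine (measure_mono h1).trans ((measure_union_le _ _).trans ?_)
  refine add_le_add ?_ (law_ZS_le μ hn hK hLO)
  refine (measure_union_le _ _).trans ?_
  rw [two_mul, ← add_assoc]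
  refine add_le_add ((measure_union_le _ _).trans (add_le_add (law_BD_compl_le μ n) ?_)) ?_
  · exact law_CB_le μ hac hn K m
  · rw [law_transpose_apply μ n (measurableSet_CB n K m)]
    exact law_CB_le μ hac hn K m

end Pool.Agent.R563.RRam
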