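import Pool.Agent.R563.RRam.Prob2
import Pool.Agent.R563.RRam.LOff

set_option autoImplicit false

/-! # Random matrices: the three ensembles -/

noncomputable section

namespace Pool.Agent.R563.RRam

open MeasureTheory Set Matrix Filter Topology
open scoped ENNReal NNReal

/-- the laws to which the argument applies -/
structure Nice (μ : Measure ℝ) : Prop where
  prob : IsProbabilityMeasure μ
  ac : ∀ u : ℝ, μ {x | |x - u| ≤ 1 / 4} ≤ 1 / 2
  tail : ∃ C : ℝ, 0 ≤ C ∧ ∀ n : ℕ, 0 < n → μ {x | (n : ℝ) < |x|} ≤ ENNReal.ofReal (C / n ^ 4)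
  lo : ∃ C : ℝ, 0 ≤ C ∧ ∀ (n m : ℕ), 0 < n → ∀ v : Fin n → ℝ, nv v = 1 →
    m < (Finset.univ.filter fun i => 1 / ((16 * n ^ 3 : ℕ) : ℝ) ≤ |v i|).card →
    Measure.pi (fun _ : Fin n => μ) {a | |a ⬝ᵥ v| ≤ 1 / (8 * ((16 * n ^ 3 : ℕ) : ℝ))}
      ≤ ENNReal.ofReal (C / Real.sqrt (m + 1))

/-- the number of large coordinates -/
def mm (n : ℕ) : ℕ := Nat.sqrt (Nat.sqrt n) ^ 3

theorem ss_le (n : ℕ) : Nat.sqrt (Nat.sqrt n) ^ 4 ≤ n := by
  have h1 := Nat.sqrt_le' n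
  have h2 := Nat.sqrt_le' (Nat.sqrt n)
  calc Nat.sqrt (Nat.sqrt n) ^ 4 = (Nat.sqrt (Nat.sqrt n) ^ 2) ^ 2 := by ring
    _ ≤ (Nat.sqrt n) ^ 2 := Nat.pow_le_pow_left h2 2
    _ ≤ n := h1

theorem lt_ss (n : ℕ) : n < (Nat.sqrt (Nat.sqrt n) + 1) ^ 4 := by
  have h1 := Nat.lt_succ_sqrt' n
  have h2 := Nat.lt_succ_sqrt' (Nat.sqrt n)
  simp only [Nat.succ_eq_add_one] at h1 h2
  calc n < (Nat.sqrt n + 1) ^ 2 := h1
    _ ≤ ((Nat.sqrt (Nat.sqrt n) + 1) ^ 2) ^ 2 := Nat.pow_le_pow_left h2 2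
    _ = _ := by ring

theorem tendsto_ss : Tendsto (fun n : ℕ => Nat.sqrt (Nat.sqrt n)) atTop atTop := by
  refine tendsto_atTop.2 fun b => ?_
  filter_upwards [eventually_ge_atTop (b ^ 4)] with n hn
  by_contra hcon
  rw [not_le] at hcon
  have h1 := lt_ss n
  have h2 : (Nat.sqrt (Nat.sqrt n) + 1) ^ 4 ≤ b ^ 4 := Nat.pow_le_pow_left hcon 4
  omega

/-- the real bound -/
def gb (C1 C2 : ℝ) (n : ℕ) : ℝ :=
  C1 / n ^ 2 + 2 * ((((n * (2 * (16 * n ^ 3) + 1)) ^ mm n * n : ℕ) : ℝ) * (1 / 2) ^ (n - 1))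
    + n * (C2 / Real.sqrt (mm n + 1)) / (mm n + 1)

theorem tendsto_second : Tendsto (fun n : ℕ =>
    2 * ((((n * (2 * (16 * n ^ 3) + 1)) ^ mm n * n : ℕ) : ℝ) * (1 / 2) ^ (n - 1)))
    atTop (𝓝 0) := by
  have h1 : Tendsto (fun n : ℕ => 4 * ((n : ℝ) * (3 / 4 : ℝ) ^ n)) atTop (𝓝 0) := by
    have := tendsto_self_mul_const_pow_of_lt_one (r := (3 / 4 : ℝ)) (by norm_num) (by norm_num)
    simpa using this.const_mul 4
  -- polynomial versus exponential in `s`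
  have h2 : ∀ᶠ s : ℕ in atTop, (33 * 16 ^ 4 : ℝ) * (s : ℝ) ^ 16 ≤ (3 / 2 : ℝ) ^ s := by
    have h3 := tendsto_pow_const_div_const_pow_of_one_lt 16 (r := (3 / 2 : ℝ)) (by norm_num)
    have h4 : ∀ᶠ s : ℕ in atTop, (s : ℝ) ^ 16 / (3 / 2 : ℝ) ^ s < 1 / (33 * 16 ^ 4) :=
      h3.eventually_lt_const (by norm_num)
    filter_upwards [h4] with s hs
    have h5 : (0 : ℝ) < (3 / 2 : ℝ) ^ s := by positivity
    rw [div_lt_div_iff₀ h5 (by norm_num)] at hs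
    linarith
  refine squeeze_zero' (Eventually.of_forall fun n => by positivity) ?_ h1
  filter_upwards [tendsto_ss.eventually h2, tendsto_ss.eventually (eventually_ge_atTop 1),
    eventually_ge_atTop 1] with n h3 h4 h5
  set s := Nat.sqrt (Nat.sqrt n) with hs
  have hs1 : (1 : ℝ) ≤ s := by exact_mod_cast h4
  have hn1 : (1 : ℝ) ≤ n := by exact_mod_cast h5
  have hup : (n : ℝ) ≤ 16 * (s : ℝ) ^ 4 := by
    have h6 : (n : ℝ) ≤ ((s : ℝ) + 1) ^ 4 := by exact_mod_cast (lt_ss n).le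
    calc (n : ℝ) ≤ ((s : ℝ) + 1) ^ 4 := h6
      _ ≤ (2 * (s : ℝ)) ^ 4 := pow_le_pow_left₀ (by positivity) (by linarith) 4
      _ = 16 * (s : ℝ) ^ 4 := by ring
  have h7 : (n : ℝ) * (2 * (16 * (n : ℝ) ^ 3) + 1) ≤ (3 / 2 : ℝ) ^ s := by
    calc (n : ℝ) * (2 * (16 * (n : ℝ) ^ 3) + 1) ≤ 33 * (n : ℝ) ^ 4 := by
          have : (n : ℝ) ≤ (n : ℝ) ^ 4 := le_self_pow₀ hn1 (by norm_num)
          nlinarith
      _ ≤ 33 * (16 * (s : ℝ) ^ 4) ^ 4 := by gcongr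
      _ = (33 * 16 ^ 4 : ℝ) * (s : ℝ) ^ 16 := by ring
      _ ≤ _ := h3
  have h8 : ((n : ℝ) * (2 * (16 * (n : ℝ) ^ 3) + 1)) ^ (s ^ 3) ≤ (3 / 2 : ℝ) ^ n := by
    calc ((n : ℝ) * (2 * (16 * (n : ℝ) ^ 3) + 1)) ^ (s ^ 3)
        ≤ ((3 / 2 : ℝ) ^ s) ^ (s ^ 3) := pow_le_pow_left₀ (by positivity) h7 _
      _ = (3 / 2 : ℝ) ^ (s ^ 4) := by rw [← pow_mul]; congr 1; ring
      _ ≤ (3 / 2 : ℝ) ^ n := pow_le_pow_right₀ (by norm_num) (ss_le n)
  have h9 : (1 / 2 : ℝ) ^ (n - 1) = 2 * (1 / 2 : ℝ) ^ n := by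
    obtain ⟨k, rfl⟩ : ∃ k, n = k + 1 := ⟨n - 1, by omega⟩
    simp only [Nat.add_sub_cancel, pow_succ]
    ring
  rw [h9]
  push_cast
  have h10 : (mm n : ℕ) = s ^ 3 := rfl
  rw [h10]
  calc 2 * (((n : ℝ) * (2 * (16 * (n : ℝ) ^ 3) + 1)) ^ (s ^ 3) * n * (2 * (1 / 2) ^ n))
      ≤ 2 * ((3 / 2 : ℝ) ^ n * n * (2 * (1 / 2) ^ n)) := by gcongr
    _ = 4 * ((n : ℝ) * ((3 / 2 : ℝ) ^ n * (1 / 2) ^ n)) := by ring
    _ = 4 * ((n : ℝ) * (3 / 4 : ℝ) ^ n) := by rw [← mul_pow]; norm_num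

theorem tendsto_third (C2 : ℝ) (hC : 0 ≤ C2) : Tendsto (fun n : ℕ =>
    (n : ℝ) * (C2 / Real.sqrt (mm n + 1)) / (mm n + 1)) atTop (𝓝 0) := by
  have h1 : Tendsto (fun n : ℕ => 16 * C2 / Real.sqrt (Nat.sqrt (Nat.sqrt n) : ℝ))
      atTop (𝓝 0) := by
    apply Tendsto.div_atTop tendsto_const_nhds
    have := (Real.tendsto_sqrt_atTop.comp tendsto_natCast_atTop_atTop).comp tendsto_ss
    exact this
  refine squeeze_zero' (Eventually.of_forall fun n => by positivity) ?_ h1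
  filter_upwards [tendsto_ss.eventually (eventually_ge_atTop 1)] with n h4
  set s := Nat.sqrt (Nat.sqrt n) with hs
  have hs1 : (1 : ℝ) ≤ s := by exact_mod_cast h4
  have hup : (n : ℝ) ≤ 16 * (s : ℝ) ^ 4 := by
    have h6 : (n : ℝ) ≤ ((s : ℝ) + 1) ^ 4 := by exact_mod_cast (lt_ss n).le
    calc (n : ℝ) ≤ ((s : ℝ) + 1) ^ 4 := h6
      _ ≤ (2 * (s : ℝ)) ^ 4 := pow_le_pow_left₀ (by positivity) (by linarith) 4
      _ = 16 * (s : ℝ) ^ 4 := by ring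
  have h10 : ((mm n : ℕ) : ℝ) = (s : ℝ) ^ 3 := by
    have : mm n = s ^ 3 := rfl
    rw [this]; push_cast; ring
  rw [h10]
  have hss : 0 < Real.sqrt s := Real.sqrt_pos.2 (by linarith)
  have hsq : Real.sqrt s ^ 2 = s := Real.sq_sqrt (by linarith)
  have h11 : (s : ℝ) * Real.sqrt s ≤ Real.sqrt ((s : ℝ) ^ 3 + 1) := by
    apply Real.le_sqrt_of_sq_le
    rw [mul_pow, hsq]
    nlinarith
  have h12 : (0 : ℝ) < (s : ℝ) * Real.sqrt s := by positivity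
  calc (n : ℝ) * (C2 / Real.sqrt ((s : ℝ) ^ 3 + 1)) / ((s : ℝ) ^ 3 + 1)
      ≤ (16 * (s : ℝ) ^ 4) * (C2 / ((s : ℝ) * Real.sqrt s)) / ((s : ℝ) ^ 3) := by
        apply div_le_div₀ (by positivity) _ (by positivity) (by linarith)
        apply mul_le_mul hup _ (by positivity) (by positivity)
        exact div_le_div_of_nonneg_left hC h12 h11
    _ = 16 * C2 / Real.sqrt s := by
        field_simp

theorem tendsto_gb (C1 C2 : ℝ) (hC : 0 ≤ C2) : Tendsto (gb C1 C2) atTop (𝓝 0) := by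
  have h1 : Tendsto (fun n : ℕ => C1 / (n : ℝ) ^ 2) atTop (𝓝 0) := by
    apply Tendsto.div_atTop tendsto_const_nhds
    exact (tendsto_pow_atTop (by norm_num)).comp tendsto_natCast_atTop_atTop
  have := (h1.add tendsto_second).add (tendsto_third C2 hC)
  rw [add_zero, add_zero] at this
  exact this

/-- the good event has probability tending to one -/
theorem tendsto_law_EN {μ : Measure ℝ} (hμ : Nice μ) :
    Tendsto (fun n => law μ n (EN n (mm n))) atTop (𝓝 1) := by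
  have := hμ.prob
  obtain ⟨C1, hC1, hC1'⟩ := hμ.tail
  obtain ⟨C2, hC2, hC2'⟩ := hμ.lo
  have h1 : ∀ n : ℕ, 0 < n → law μ n (EN n (mm n))ᶜ ≤ ENNReal.ofReal (gb C1 C2 n) := by
    intro n hn
    have hn' : (0 : ℝ) < n := by exact_mod_cast hn
    refine (law_EN_compl_le μ hμ.ac hn (hC2' n (mm n) hn)).trans ?_
    unfold gb
    rw [ENNReal.ofReal_add (by positivity) (by positivity),
      ENNReal.ofReal_add (by positivity) (by positivity)]
    refine add_le_add (add_le_add ?_ ?_) ?_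
    · calc (n : ℝ≥0∞) ^ 2 * μ {x | (n : ℝ) < |x|}
          ≤ (n : ℝ≥0∞) ^ 2 * ENNReal.ofReal (C1 / n ^ 4) := by gcongr; exact hC1' n hn
        _ = ENNReal.ofReal (C1 / n ^ 2) := by
            rw [show ((n : ℝ≥0∞)) = ENNReal.ofReal (n : ℝ) by simp,
              ← ENNReal.ofReal_pow hn'.le, ← ENNReal.ofReal_mul (by positivity)]
            congr 1
            field_simp
    · rw [ENNReal.ofReal_mul (by norm_num), ENNReal.ofReal_mul (by positivity),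
        ENNReal.ofReal_pow (by norm_num)]
      have e1 : ENNReal.ofReal 2 = 2 := by simp
      have e2 : ENNReal.ofReal (1 / 2) = 1 / 2 := by
        rw [ENNReal.ofReal_div_of_pos (by norm_num)]; simp
      rw [e1, e2, ENNReal.ofReal_natCast]
    · rw [ENNReal.ofReal_div_of_pos (x := (n : ℝ) * (C2 / Real.sqrt (mm n + 1))) (by positivity),
        ENNReal.ofReal_mul hn'.le, ENNReal.ofReal_natCast]
      have : ENNReal.ofReal ((mm n : ℝ) + 1) = ((mm n + 1 : ℕ) : ℝ≥0∞) := by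
        rw [← ENNReal.ofReal_natCast]; push_cast; rfl
      rw [this]
  have h2 : Tendsto (fun n => law μ n (EN n (mm n))ᶜ) atTop (𝓝 0) := by
    have h3 : Tendsto (fun n => ENNReal.ofReal (gb C1 C2 n)) atTop (𝓝 0) := by
      have := ENNReal.tendsto_ofReal (tendsto_gb C1 C2 hC2)
      simpa using this
    refine tendsto_of_tendsto_of_tendsto_of_le_of_le' tendsto_const_nhds h3
      (Eventually.of_forall fun n => bot_le) ?_
    filter_upwards [eventually_gt_atTop 0] with n hn using h1 n hn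
  have h3 : ∀ n, law μ n (EN n (mm n)) = 1 - law μ n (EN n (mm n))ᶜ := by
    intro n
    have := prob_compl_eq_one_sub (μ := law μ n) (measurableSet_EN n (mm n))
    rw [this, ENNReal.sub_sub_cancel ENNReal.one_ne_top prob_le_one]
  simp only [h3]
  have h4 : Tendsto (fun n => (1 : ℝ≥0∞) - law μ n (EN n (mm n))ᶜ) atTop (𝓝 (1 - 0)) :=
    ENNReal.Tendsto.sub tendsto_const_nhds h2 (Or.inl ENNReal.one_ne_top)
  simpa using h4

end Pool.Agent.R563.RRam
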