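import Pool.Agent.R563.RRam.Prob3

set_option autoImplicit false

/-! # The three ensembles satisfy the hypotheses -/

noncomputable section

namespace Pool.Agent.R563.RRam

open MeasureTheory Set Matrix Filter Topology ProbabilityTheory
open scoped ENNReal NNReal

/-- the uniform law on `{a, b}` (for `a ≠ b`) -/
def twoPoint (a b : ℝ) : Measure ℝ := (1 / 2 : ℝ≥0∞) • (Measure.dirac a + Measure.dirac b)

/-- the fair coin -/
def coin : Measure Bool := (1 / 2 : ℝ≥0∞) • Measure.count

theorem coin_singleton (s : Bool) : coin {s} = 1 / 2 := by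
  simp [coin]

instance : IsProbabilityMeasure coin := by
  constructor
  have h1 : (Set.univ : Set Bool) = ↑(Finset.univ : Finset Bool) := Finset.coe_univ.symm
  rw [h1, ← sum_measure_singleton]
  simp only [coin_singleton]
  rw [Finset.sum_const, Finset.card_univ, Fintype.card_bool, nsmul_eq_mul, Nat.cast_two,
    one_div, ENNReal.mul_inv_cancel (by norm_num) (by norm_num)]

theorem twoPoint_eq (a b : ℝ) : twoPoint a b = coin.map (fun s => if s then a else b) := by
  have hm : Measurable (fun s : Bool => if s then a else b) := measurable_of_finite _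
  ext S hS
  rw [Measure.map_apply hm hS]
  unfold twoPoint coin
  rw [Measure.smul_apply, Measure.smul_apply, Measure.add_apply, Measure.dirac_apply' _ hS,
    Measure.dirac_apply' _ hS, Measure.count_apply (hm hS)]
  congr 1
  by_cases ha : a ∈ S <;> by_cases hb : b ∈ S
  · have : (fun s : Bool => if s then a else b) ⁻¹' S = Set.univ := by
      ext s; cases s <;> simp [ha, hb]
    rw [this, Set.encard_univ]
    simp [ha, hb]
    norm_num
  · have : (fun s : Bool => if s then a else b) ⁻¹' S = {true} := by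
      ext s; cases s <;> simp [ha, hb]
    rw [this, Set.encard_singleton]
    simp [ha, hb]
  · have : (fun s : Bool => if s then a else b) ⁻¹' S = {false} := by
      ext s; cases s <;> simp [ha, hb]
    rw [this, Set.encard_singleton]
    simp [ha, hb]
  · have : (fun s : Bool => if s then a else b) ⁻¹' S = ∅ := by
      ext s; cases s <;> simp [ha, hb]
    rw [this]
    simp [ha, hb]

instance (a b : ℝ) : IsProbabilityMeasure (twoPoint a b) := by
  rw [twoPoint_eq]
  exact Measure.isProbabilityMeasure_map (measurable_of_finite _).aemeasurable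

theorem pi_coin (n : ℕ) (T : Set (Fin n → Bool)) [DecidablePred (· ∈ T)] :
    Measure.pi (fun _ : Fin n => coin) T
      = ((Finset.univ.filter (· ∈ T)).card : ℝ≥0∞) * (1 / 2) ^ n := by
  have h1 : T = ↑(Finset.univ.filter (· ∈ T)) := by ext; simp
  conv_lhs => rw [h1]
  rw [← sum_measure_singleton]
  have h2 : ∀ s : Fin n → Bool, Measure.pi (fun _ : Fin n => coin) {s} = (1 / 2) ^ n := by
    intro s
    rw [Measure.pi_singleton]
    simp [coin_singleton]
  simp only [h2]
  rw [Finset.sum_const, nsmul_eq_mul]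

theorem pi_twoPoint (a b : ℝ) (n : ℕ) {S : Set (Fin n → ℝ)} (hS : MeasurableSet S) :
    Measure.pi (fun _ : Fin n => twoPoint a b) S
      = Measure.pi (fun _ : Fin n => coin) {s | (fun i => if s i then a else b) ∈ S} := by
  have h1 : (fun _ : Fin n => twoPoint a b)
      = fun _ : Fin n => coin.map (fun s : Bool => if s then a else b) := by
    funext i; exact twoPoint_eq a b
  rw [h1]
  have h2 := Measure.pi_map_pi (μ := fun _ : Fin n => coin)
    (f := fun (_ : Fin n) (s : Bool) => if s then a else b)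
    (fun i => (measurable_of_finite _).aemeasurable)
  rw [← h2, Measure.map_apply (measurable_of_finite _) hS]
  rfl

theorem lo_twoPoint {a b : ℝ} (hab : 1 ≤ |a - b|) : ∃ C : ℝ, 0 ≤ C ∧
    ∀ (n m : ℕ), 0 < n → ∀ v : Fin n → ℝ, nv v = 1 →
    m < (Finset.univ.filter fun i => 1 / ((16 * n ^ 3 : ℕ) : ℝ) ≤ |v i|).card →
    Measure.pi (fun _ : Fin n => twoPoint a b)
      {x | |x ⬝ᵥ v| ≤ 1 / (8 * ((16 * n ^ 3 : ℕ) : ℝ))}
      ≤ ENNReal.ofReal (C / Real.sqrt (m + 1)) := by
  have hLO := LOff.lo
  set K : ℝ := 1 with hKdef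
  have hK : 0 < K := one_pos
  refine ⟨2 * K, by positivity, fun n m hn v _ hm => ?_⟩
  have hn' : (0 : ℝ) < n := by exact_mod_cast hn
  set τ : ℝ := 1 / ((16 * n ^ 3 : ℕ) : ℝ) with hτ
  have hτ0 : 0 < τ := by rw [hτ]; push_cast; positivity
  have hR : 1 / (8 * ((16 * n ^ 3 : ℕ) : ℝ)) = τ / 8 := by
    rw [hτ]; push_cast; field_simp
  have hms : MeasurableSet {x : Fin n → ℝ | |x ⬝ᵥ v| ≤ τ / 8} :=
    measurableSet_le (measurable_dot v).norm measurable_const
  rw [hR, pi_twoPoint a b n hms, pi_coin]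
  have hab0 : 0 < |a - b| := by linarith
  have h1 := hLO (Fin n) (fun i => (a - b) / 2 * v i) (|a - b| / 2 * τ) (m + 1) (by positivity)
    (by omega) (by
      refine le_trans hm (Finset.card_le_card ?_)
      intro i hi
      rw [Finset.mem_filter] at hi ⊢
      refine ⟨hi.1, ?_⟩
      rw [abs_mul, abs_div, abs_two]
      exact mul_le_mul_of_nonneg_left hi.2 (by positivity)) (τ / 8)
      (-((a + b) / 2 * ∑ i, v i)) (by positivity)
  have h2 : (Finset.univ.filter fun s : Fin n → Bool =>
      s ∈ {s : Fin n → Bool | (fun i => if s i then a else b) ∈ {x : Fin n → ℝ | |x ⬝ᵥ v| ≤ τ / 8}})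
      = Finset.univ.filter (fun s : Fin n → Bool =>
        |∑ i, (if s i then (a - b) / 2 * v i else -((a - b) / 2 * v i))
          - -((a + b) / 2 * ∑ i, v i)| ≤ τ / 8) := by
    refine Finset.filter_congr fun s _ => ?_
    show |(fun i => if s i then a else b) ⬝ᵥ v| ≤ τ / 8 ↔ _
    have e1 : ((fun i => if s i then a else b) : Fin n → ℝ) ⬝ᵥ v
        = ∑ i, (if s i then (a - b) / 2 * v i else -((a - b) / 2 * v i))
          - -((a + b) / 2 * ∑ i, v i) := by
      rw [sub_neg_eq_add, Finset.mul_sum, ← Finset.sum_add_distrib]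
      unfold dotProduct
      refine Finset.sum_congr rfl fun i _ => ?_
      beta_reduce
      split_ifs <;> ring
    rw [e1]
  rw [h2]
  have h3 : τ / 8 / (|a - b| / 2 * τ) ≤ 1 / 4 := by
    rw [div_le_iff₀ (by positivity)]
    nlinarith
  have h4 : ((Finset.univ.filter (fun s : Fin n → Bool =>
        |∑ i, (if s i then (a - b) / 2 * v i else -((a - b) / 2 * v i))
          - -((a + b) / 2 * ∑ i, v i)| ≤ τ / 8)).card : ℝ)
      ≤ 2 * K / Real.sqrt (m + 1) * 2 ^ n := by
    refine h1.trans ?_
    rw [Fintype.card_fin]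
    push_cast
    apply mul_le_mul_of_nonneg_right _ (by positivity)
    apply div_le_div_of_nonneg_right _ (Real.sqrt_nonneg _)
    nlinarith
  have h5 : ((Finset.univ.filter (fun s : Fin n → Bool =>
        |∑ i, (if s i then (a - b) / 2 * v i else -((a - b) / 2 * v i))
          - -((a + b) / 2 * ∑ i, v i)| ≤ τ / 8)).card : ℝ≥0∞)
      ≤ ENNReal.ofReal (2 * K / Real.sqrt (m + 1) * 2 ^ n) := by
    rw [← ENNReal.ofReal_natCast]
    exact ENNReal.ofReal_le_ofReal h4
  calc _ ≤ ENNReal.ofReal (2 * K / Real.sqrt (m + 1) * 2 ^ n) * (1 / 2) ^ n := by gcongr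
    _ = ENNReal.ofReal (2 * K / Real.sqrt (m + 1)) := by
      have e2 : (1 / 2 : ℝ≥0∞) ^ n = ENNReal.ofReal ((1 / 2 : ℝ) ^ n) := by
        rw [ENNReal.ofReal_pow (by norm_num), ENNReal.ofReal_div_of_pos (by norm_num)]
        simp
      rw [e2, ← ENNReal.ofReal_mul (by positivity), mul_assoc, ← mul_pow]
      norm_num

theorem nice_twoPoint {a b : ℝ} (hab : 1 ≤ |a - b|) (ha : |a| ≤ 1) (hb : |b| ≤ 1) :
    Nice (twoPoint a b) where
  prob := inferInstance
  ac := by
    intro u
    have hm : MeasurableSet {x : ℝ | |x - u| ≤ 1 / 4} :=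
      measurableSet_le (by fun_prop) measurable_const
    unfold twoPoint
    rw [Measure.smul_apply, Measure.add_apply, Measure.dirac_apply' _ hm,
      Measure.dirac_apply' _ hm, smul_eq_mul]
    have h1 : ¬ (a ∈ {x : ℝ | |x - u| ≤ 1 / 4} ∧ b ∈ {x : ℝ | |x - u| ≤ 1 / 4}) := by
      rintro ⟨h1, h2⟩
      have h1' : |a - u| ≤ 1 / 4 := h1
      have h2' : |b - u| ≤ 1 / 4 := h2
      have h3 : |a - b| ≤ |a - u| + |b - u| := by
        have := abs_sub (a - u) (b - u)
        rwa [show a - u - (b - u) = a - b by ring] at this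
      linarith
    calc (1 / 2 : ℝ≥0∞) * (Set.indicator {x : ℝ | |x - u| ≤ 1 / 4} 1 a
          + Set.indicator {x : ℝ | |x - u| ≤ 1 / 4} 1 b) ≤ 1 / 2 * 1 := by
          gcongr
          by_cases h2 : a ∈ {x : ℝ | |x - u| ≤ 1 / 4}
          · have h3 : b ∉ {x : ℝ | |x - u| ≤ 1 / 4} := fun h => h1 ⟨h2, h⟩
            rw [Set.indicator_of_mem h2, Set.indicator_of_notMem h3]
            simp
          · rw [Set.indicator_of_notMem h2, zero_add]
            exact Set.indicator_le_self' (by simp) _
      _ = 1 / 2 := mul_one _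
  tail := by
    refine ⟨0, le_rfl, fun n hn => ?_⟩
    have hn' : (1 : ℝ) ≤ n := by exact_mod_cast hn
    have hm : MeasurableSet {x : ℝ | (n : ℝ) < |x|} :=
      measurableSet_lt measurable_const measurable_id.norm
    unfold twoPoint
    rw [Measure.smul_apply, Measure.add_apply, Measure.dirac_apply' _ hm,
      Measure.dirac_apply' _ hm]
    have h1 : a ∉ {x : ℝ | (n : ℝ) < |x|} := by
      intro h
      have h' : (n : ℝ) < |a| := h
      linarith
    have h2 : b ∉ {x : ℝ | (n : ℝ) < |x|} := by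
      intro h
      have h' : (n : ℝ) < |b| := h
      linarith
    rw [Set.indicator_of_notMem h1, Set.indicator_of_notMem h2]
    simp
  lo := lo_twoPoint hab

theorem gauss_interval (u s : ℝ) :
    gaussianReal 0 1 {x | |x - u| ≤ s} ≤ ENNReal.ofReal s := by
  rw [gaussianReal_apply 0 one_ne_zero]
  have h1 : ∀ x : ℝ, gaussianPDF 0 1 x ≤ ENNReal.ofReal (1 / 2) := by
    intro x
    unfold gaussianPDF
    apply ENNReal.ofReal_le_ofReal
    rw [gaussianPDFReal]
    have h2 : Real.exp (-(x - 0) ^ 2 / (2 * ((1 : ℝ≥0) : ℝ))) ≤ 1 := by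
      apply Real.exp_le_one_iff.2
      apply div_nonpos_of_nonpos_of_nonneg
      · nlinarith [sq_nonneg (x - 0)]
      · simp
    have h3 : (2 : ℝ) ≤ Real.sqrt (2 * Real.pi * ((1 : ℝ≥0) : ℝ)) := by
      apply Real.le_sqrt_of_sq_le
      have := Real.pi_gt_three
      simp
      linarith
    have h4 : (Real.sqrt (2 * Real.pi * ((1 : ℝ≥0) : ℝ)))⁻¹ ≤ 1 / 2 := by
      rw [inv_eq_one_div]
      exact div_le_div_of_nonneg_left (by norm_num) (by norm_num) h3
    calc _ ≤ (Real.sqrt (2 * Real.pi * ((1 : ℝ≥0) : ℝ)))⁻¹ * 1 :=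
          mul_le_mul_of_nonneg_left h2 (by positivity)
      _ ≤ 1 / 2 := by rw [mul_one]; exact h4
  calc ∫⁻ x in {x | |x - u| ≤ s}, gaussianPDF 0 1 x
      ≤ ∫⁻ _ in {x | |x - u| ≤ s}, ENNReal.ofReal (1 / 2) := lintegral_mono fun x => h1 x
    _ = ENNReal.ofReal (1 / 2) * volume {x | |x - u| ≤ s} := by simp
    _ ≤ ENNReal.ofReal s := by
        have h5 : {x : ℝ | |x - u| ≤ s} = Set.Icc (u - s) (u + s) := by
          ext x
          simp only [Set.mem_ofPred_eq, Set.mem_Icc, abs_le]
          constructor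
          · rintro ⟨h1, h2⟩; constructor <;> linarith
          · rintro ⟨h1, h2⟩; constructor <;> linarith
        rw [h5, Real.volume_Icc, ← ENNReal.ofReal_mul (by norm_num)]
        apply ENNReal.ofReal_le_ofReal
        linarith

theorem nice_gaussian : Nice (gaussianReal 0 1) where
  prob := inferInstance
  ac := by
    intro u
    refine (gauss_interval u (1 / 4)).trans ?_
    have : (1 / 2 : ℝ≥0∞) = ENNReal.ofReal (1 / 2) := by
      rw [ENNReal.ofReal_div_of_pos (by norm_num)]; simp
    rw [this]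
    exact ENNReal.ofReal_le_ofReal (by norm_num)
  tail := by
    have hL : MemLp (fun x : ℝ => x) 4 (gaussianReal 0 1) := by
      have := memLp_id_gaussianReal (μ := 0) (v := 1) 4
      exact this
    have h1 := hL.eLpNorm_lt_top
    set N := eLpNorm (fun x : ℝ => x) 4 (gaussianReal 0 1) with hN
    refine ⟨(N ^ (4 : ℝ)).toReal, ENNReal.toReal_nonneg, fun n hn => ?_⟩
    have hn' : (0 : ℝ) < n := by exact_mod_cast hn
    have h2 := mul_meas_ge_le_pow_eLpNorm' (gaussianReal 0 1) (p := 4) (by norm_num)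
      (by norm_num) hL.aestronglyMeasurable (n : ℝ≥0∞)
    have h3 : gaussianReal 0 1 {x | (n : ℝ) < |x|}
        ≤ gaussianReal 0 1 {x | (n : ℝ≥0∞) ≤ ‖x‖ₑ} := by
      refine measure_mono fun x hx => ?_
      have hx' : (n : ℝ) < |x| := hx
      show (n : ℝ≥0∞) ≤ ‖x‖ₑ
      rw [← ofReal_norm, ← ENNReal.ofReal_natCast]
      exact ENNReal.ofReal_le_ofReal hx'.le
    have h4 : N ^ (4 : ℝ) ≠ ⊤ := ENNReal.rpow_ne_top_of_nonneg (by norm_num) h1.ne
    have h5 : ((4 : ℝ≥0∞)).toReal = 4 := by simp
    rw [h5] at h2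
    have h6 : (n : ℝ≥0∞) ^ (4 : ℝ) = ENNReal.ofReal ((n : ℝ) ^ 4) := by
      rw [ENNReal.ofReal_pow hn'.le, ENNReal.ofReal_natCast]
      norm_cast
    rw [h6] at h2
    rw [ENNReal.ofReal_div_of_pos (by positivity), ENNReal.ofReal_toReal h4]
    rw [ENNReal.le_div_iff_mul_le (Or.inl (by positivity)) (Or.inl ENNReal.ofReal_ne_top),
      mul_comm]
    exact le_trans (mul_le_mul_right h3 _) h2
  lo := by
    refine ⟨1, zero_le_one, fun n m hn v hv hm => ?_⟩
    have hn' : (1 : ℝ) ≤ n := by exact_mod_cast hn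
    obtain ⟨j, hj⟩ := exists_large hn v (by rw [hv]; norm_num)
    have hj0 : 0 < |v j| := lt_of_lt_of_le (by positivity) hj
    have hmn : ((m : ℝ) + 1) ≤ n := by
      have h1 : m + 1 ≤ n := by
        refine le_trans hm ?_
        refine (Finset.card_filter_le _ _).trans ?_
        rw [Finset.card_univ, Fintype.card_fin]
      exact_mod_cast h1
    set R : ℝ := 1 / (8 * ((16 * n ^ 3 : ℕ) : ℝ)) with hR
    have hR' : R = 1 / (128 * (n : ℝ) ^ 3) := by rw [hR]; push_cast; congr 1; ring
    have hR0 : 0 < R := by rw [hR']; positivity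
    obtain ⟨l, rfl⟩ : ∃ l, n = l + 1 := ⟨n - 1, by omega⟩
    refine pi_le_of_sections _ j
      (measurableSet_le (measurable_dot v).norm measurable_const) fun w => ?_
    refine le_trans (measure_mono (t := {x | |x - -(∑ i, w i * v (j.succAbove i)) / v j|
      ≤ R / |v j|}) ?_) ?_
    · intro a ha
      have ha' : |(j.insertNth a w : Fin (l + 1) → ℝ) ⬝ᵥ v| ≤ R := ha
      show |a - -(∑ i, w i * v (j.succAbove i)) / v j| ≤ R / |v j|
      have h1 : (j.insertNth a w : Fin (l + 1) → ℝ) ⬝ᵥ v
          = a * v j + ∑ i, w i * v (j.succAbove i) := by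
        unfold dotProduct
        rw [Fin.sum_univ_succAbove _ j]
        simp
      rw [h1] at ha'
      have hyj : v j ≠ 0 := abs_pos.1 hj0
      have h2 : a - -(∑ i, w i * v (j.succAbove i)) / v j
          = (a * v j + ∑ i, w i * v (j.succAbove i)) / v j := by
        field_simp
        ring
      rw [h2, abs_div]
      exact div_le_div_of_nonneg_right ha' hj0.le
    · refine (gauss_interval _ _).trans (ENNReal.ofReal_le_ofReal ?_)
      set N : ℝ := ((l + 1 : ℕ) : ℝ) with hN
      have hsq : Real.sqrt (m + 1) ≤ N := by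
        rw [Real.sqrt_le_left (by linarith)]
        nlinarith
      calc R / |v j| ≤ R / (1 / (2 * N)) := div_le_div_of_nonneg_left hR0.le (by positivity) hj
        _ = 1 / (64 * N ^ 2) := by rw [hR']; field_simp; norm_num
        _ ≤ 1 / N := by
            apply div_le_div_of_nonneg_left (by norm_num) (by positivity)
            nlinarith
        _ ≤ 1 / Real.sqrt (m + 1) :=
            div_le_div_of_nonneg_left (by norm_num) (Real.sqrt_pos.2 (by positivity)) hsq

end Pool.Agent.R563.RRam
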