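import Pool.Agent.R563.RRam.Core

set_option autoImplicit false

/-! # The algorithm for matrices with a known lower bound for the smallest singular value -/

noncomputable section

namespace Pool.Agent.R563.RRam

open scoped Matrix.Norms.L2Operator
open Matrix

/-- the real number `n` -/
def natR (n : ℕ) : ℝ := (fun x : ℝ => x + 1)^[n] 0

theorem natR_eq (n : ℕ) : natR n = n := by
  unfold natR
  induction n with
  | zero => simp
  | succ n ih => rw [Function.iterate_succ_apply', ih]; push_cast; ring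

theorem pc_natR {α : Type} {a b : ℕ} : PC (a + 1) b (fun p : (ℕ × ℕ) × α => natR p.1.1) :=
  PC.loopN (s := fun p : (ℕ × ℕ) × (ℕ × ℝ) => p.2.2 + 1) (e := fun _ => 0)
    (x := fun _ => (0 : ℝ)) (PC.arg.snd.add PC.one) PC.natZero PC.zero

/-- the entries divided by `c` -/
def divRows (n : ℕ) (c : ℝ) (rows : List (List ℝ)) : List (List ℝ) :=
  (rows.take n).map fun r => (r.take n).map fun x => x / c

theorem pc_divRows {α : Type} {a b : ℕ} {c : (ℕ × ℕ) × α → ℝ}
    {rows : (ℕ × ℕ) × α → List (List ℝ)} (hc : PC (a + 2) b c) (hr : PC (a + 2) b rows) :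
    PC (a + 2) b (fun p => divRows p.1.1 (c p) (rows p)) := by
  have h2 : PC (a + 1) b (fun q : (ℕ × ℕ) × (ℝ × List ℝ) =>
      (q.2.2.take q.1.1).map fun x => x / q.2.1) :=
    PC.mapTake (f := fun q : (ℕ × ℕ) × (ℝ × ℝ) => q.2.2 / q.2.1) (PC.arg.snd.div PC.arg.fst)
      PC.arg.fst PC.arg.snd
  exact PC.mapTake h2 hc hr

theorem divRows_spec {n : ℕ} (c : ℝ) (M : Matrix (Fin n) (Fin n) ℝ) :
    divRows n c (rowsOf M) = rowsOf (c⁻¹ • M) := by
  unfold divRows rowsOf
  rw [take_ofFn, List.map_ofFn]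
  congr 1
  funext i
  simp only [Function.comp]
  rw [take_ofFn, List.map_ofFn]
  congr 1
  funext j
  simp only [Function.comp, Matrix.smul_apply, smul_eq_mul]
  rw [div_eq_inv_mul]

/-- the algorithm with given precision `m` -/
def solveWith (p : (ℕ × ℕ) × (List (List ℝ) × List ℝ)) : List ℝ :=
  tmul p.1.1 (1 / natR p.1.1 ^ 4) p.2.1
    (core p.1.1 p.1.2 (divRows p.1.1 (natR p.1.1 ^ 2) p.2.1) p.2.2).2

theorem pc_solveWith : PC 2 2 solveWith :=
  pc_tmul (a := 0) (PC.one.div (pc_natR.pow 4)) PC.arg.fst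
    (PC.comp (f := fun p : (ℕ × ℕ) × (List (List ℝ) × List ℝ) =>
      (divRows p.1.1 (natR p.1.1 ^ 2) p.2.1, p.2.2))
      ((pc_divRows (a := 0) (pc_natR.pow 2) PC.arg.fst).pair PC.arg.snd) pc_core).snd

/-- Correctness for a given precision. -/
theorem solveWith_spec {n m : ℕ} (hm : 2 ≤ m) (hn : 1 ≤ n) (A : Matrix (Fin n) (Fin n) ℝ)
    (b : Fin n → ℝ) (hA : ∀ i j, |A i j| ≤ n) {r ε : ℝ} (hr : 0 < r)
    (hAr : ∀ x, r * nv x ≤ nv (Aᵀ *ᵥ x)) (hε : 0 < ε)
    (hnm : (n : ℝ) ≤ pw m) (h1 : 2 * n ^ 4 / (r ^ 2 * ε) ≤ pw m) (h2 : 2 / ε ≤ pw m) :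
    ∃ x : Fin n → ℝ, solveWith ((n, m), (rowsOf A, List.ofFn b)) = List.ofFn x ∧
      nv (A *ᵥ x - b) ≤ ε * nv b := by
  have hp := pw_pos m
  have hn' : (1 : ℝ) ≤ n := by exact_mod_cast hn
  have hn0 : (0 : ℝ) < n := by linarith
  have hp1 : 1 ≤ pw m := hn'.trans hnm
  set M : Matrix (Fin n) (Fin n) ℝ := ((n : ℝ) ^ 2)⁻¹ • A with hM
  have hM1 : ‖M‖ ≤ 1 := by
    have : ‖M‖ ≤ n * (n : ℝ)⁻¹ := by
      refine opNorm_le_of_entries (by positivity) fun i j => ?_
      simp only [hM, Matrix.smul_apply, smul_eq_mul]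
      rw [abs_mul, abs_of_pos (by positivity)]
      calc ((n : ℝ) ^ 2)⁻¹ * |A i j| ≤ ((n : ℝ) ^ 2)⁻¹ * n :=
            mul_le_mul_of_nonneg_left (hA i j) (by positivity)
        _ = (n : ℝ)⁻¹ := by field_simp
    rwa [mul_inv_cancel₀ hn0.ne'] at this
  obtain ⟨R, y, z, hc1, hc2, hc3, -⟩ := core_spec M hM1 hm hnm b
  have hMA : A = (n : ℝ) ^ 2 • M := by
    rw [hM, smul_smul, mul_inv_cancel₀ (by positivity), one_smul]
  refine ⟨fun k => ∑ i, 1 / (n : ℝ) ^ 4 * y i * A i k, ?_, ?_⟩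
  · unfold solveWith
    simp only
    rw [natR_eq, divRows_spec, ← hM, hc1]
    simp only
    rw [tmul_spec]
  · have e1 : (fun k => ∑ i, 1 / (n : ℝ) ^ 4 * y i * A i k) = (1 / (n : ℝ) ^ 4) • (Aᵀ *ᵥ y) := by
      funext k
      simp only [Pi.smul_apply, smul_eq_mul, Matrix.mulVec, dotProduct, Matrix.transpose_apply]
      rw [Finset.mul_sum]
      exact Finset.sum_congr rfl fun i _ => by ring
    have e2 : A *ᵥ (fun k => ∑ i, 1 / (n : ℝ) ^ 4 * y i * A i k) = (M * Mᵀ) *ᵥ y := by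
      have hA1 : ∀ v, A *ᵥ v = (n : ℝ) ^ 2 • (M *ᵥ v) := fun v => by
        rw [← Matrix.smul_mulVec, ← hMA]
      have hA2 : ∀ v, Aᵀ *ᵥ v = (n : ℝ) ^ 2 • (Mᵀ *ᵥ v) := fun v => by
        rw [← Matrix.smul_mulVec, ← Matrix.transpose_smul, ← hMA]
      rw [e1, Matrix.mulVec_smul, hA1, hA2, Matrix.mulVec_smul, smul_smul, smul_smul,
        Matrix.mulVec_mulVec]
      have : 1 / (n : ℝ) ^ 4 * ((n : ℝ) ^ 2 * (n : ℝ) ^ 2) = 1 := by field_simp
      rw [mul_assoc, this, one_smul]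
    rw [e2]
    have e3 : (M * Mᵀ) *ᵥ y - b = (M * Mᵀ) *ᵥ (y - z) - ((1 - M * Mᵀ) ^ (2 ^ m)) *ᵥ b := by
      rw [Matrix.mulVec_sub, hc2]
      abel
    rw [e3]
    -- the norm of the power
    set s : ℝ := r ^ 2 / (n : ℝ) ^ 4 with hs
    have hs0 : 0 < s := by positivity
    have hsM : ∀ x, s * nv x ^ 2 ≤ nv (Mᵀ *ᵥ x) ^ 2 := by
      intro x
      rw [hM, Matrix.transpose_smul, Matrix.smul_mulVec, nv_smul, abs_of_pos (by positivity),
        mul_pow, hs]
      have h3 := hAr x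
      have h4 : (r * nv x) ^ 2 ≤ nv (Aᵀ *ᵥ x) ^ 2 :=
        pow_le_pow_left₀ (mul_nonneg hr.le (nv_nonneg x)) h3 2
      calc r ^ 2 / (n : ℝ) ^ 4 * nv x ^ 2 = (((n : ℝ) ^ 2)⁻¹) ^ 2 * (r * nv x) ^ 2 := by
            field_simp
        _ ≤ (((n : ℝ) ^ 2)⁻¹) ^ 2 * nv (Aᵀ *ᵥ x) ^ 2 :=
            mul_le_mul_of_nonneg_left h4 (by positivity)
    have hs1 : s ≤ 1 := by
      have h5 := hsM (Pi.single ⟨0, hn⟩ 1)
      have h6 := nv_mulVec Mᵀ (Pi.single ⟨0, hn⟩ 1)
      have h7 : nv (Pi.single (⟨0, hn⟩ : Fin n) (1 : ℝ) : Fin n → ℝ) = 1 := by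
        have : nv (Pi.single (⟨0, hn⟩ : Fin n) (1 : ℝ) : Fin n → ℝ) ^ 2 = 1 := by
          rw [nv_sq, Finset.sum_eq_single (⟨0, hn⟩ : Fin n)]
          · simp
          · intro k _ hk
            simp [hk]
          · simp
        have h0 := nv_nonneg (Pi.single (⟨0, hn⟩ : Fin n) (1 : ℝ) : Fin n → ℝ)
        nlinarith
      rw [h7, norm_transpose] at h6
      rw [h7] at h5
      have h8 := nv_nonneg (Mᵀ *ᵥ (Pi.single (⟨0, hn⟩ : Fin n) (1 : ℝ)))
      nlinarith
    have hpow : ‖(1 - M * Mᵀ) ^ (2 ^ m)‖ ≤ ε / 2 := by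
      have h5 : ‖1 - M * Mᵀ‖ ≤ 1 - s := norm_one_sub hs1 hM1 hsM
      calc ‖(1 - M * Mᵀ) ^ (2 ^ m)‖ ≤ ‖1 - M * Mᵀ‖ ^ (2 ^ m) := norm_pow_le' _ (by positivity)
        _ ≤ (1 - s) ^ (2 ^ m) := pow_le_pow_left₀ (norm_nonneg _) h5 _
        _ ≤ (Real.exp (-s)) ^ (2 ^ m) := by
            apply pow_le_pow_left₀ (by linarith)
            have := Real.add_one_le_exp (-s)
            linarith
        _ = Real.exp (-(s * pw m)) := by
            rw [← Real.exp_nat_mul, pw_eq]
            congr 1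
            push_cast
            ring
        _ ≤ 1 / (s * pw m) := by
            rw [Real.exp_neg, ← one_div]
            apply one_div_le_one_div_of_le (by positivity)
            have := Real.add_one_le_exp (s * pw m)
            linarith
        _ ≤ ε / 2 := by
            rw [div_le_iff₀ (by positivity)]
            have h6 : 2 / (s * ε) ≤ pw m := by
              refine le_trans (le_of_eq ?_) h1
              rw [hs]
              field_simp
            rw [div_le_iff₀ (by positivity)] at h6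
            nlinarith
    have hb0 := nv_nonneg b
    have hMM : ‖M * Mᵀ‖ ≤ 1 := by
      calc ‖M * Mᵀ‖ ≤ ‖M‖ * ‖Mᵀ‖ := norm_mul_le _ _
        _ ≤ 1 := by rw [norm_transpose]; nlinarith [norm_nonneg M]
    have hyz : nv ((M * Mᵀ) *ᵥ (y - z)) ≤ ε / 2 * nv b := by
      calc nv ((M * Mᵀ) *ᵥ (y - z)) ≤ ‖M * Mᵀ‖ * nv (y - z) := nv_mulVec _ _
        _ ≤ 1 * nv (y - z) := mul_le_mul_of_nonneg_right hMM (nv_nonneg _)
        _ ≤ (pw m ^ 2)⁻¹ * nv b := by rw [one_mul]; exact hc3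
        _ ≤ ε / 2 * nv b := by
            apply mul_le_mul_of_nonneg_right _ hb0
            have h6 : (pw m)⁻¹ ≤ ε / 2 := by
              rw [inv_le_comm₀ hp (by positivity), inv_div]
              exact h2
            calc (pw m ^ 2)⁻¹ ≤ (pw m)⁻¹ := by
                  apply inv_anti₀ hp
                  nlinarith
              _ ≤ ε / 2 := h6
    calc nv ((M * Mᵀ) *ᵥ (y - z) - ((1 - M * Mᵀ) ^ (2 ^ m)) *ᵥ b)
        ≤ nv ((M * Mᵀ) *ᵥ (y - z)) + nv (((1 - M * Mᵀ) ^ (2 ^ m)) *ᵥ b) := nv_sub _ _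
      _ ≤ ε / 2 * nv b + ε / 2 * nv b := by
          apply add_le_add hyz
          exact (nv_mulVec _ _).trans (mul_le_mul_of_nonneg_right hpow hb0)
      _ = ε * nv b := by ring

/-- state of the search for the precision: `(W, j, T)` -/
def precStep (s : ℝ × ℕ × ℝ) : ℝ × ℕ × ℝ := (s.1 + s.1, s.2.1 + 1, s.2.2)

theorem precStep_iter (k : ℕ) (T : ℝ) : precStep^[k] (4, 2, T) = (2 ^ (k + 2), k + 2, T) := by
  induction k with
  | zero => norm_num
  | succ k ih =>
    rw [Function.iterate_succ_apply', ih]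
    simp only [precStep]
    refine Prod.ext ?_ rfl
    simp only
    ring

/-- for the state `s` the number of rounds of the loop `while W ≤ T` -/
def precN (s : ℝ × ℕ × ℝ) : ℕ := if s.1 ≤ 0 then 0 else
  sInf {k : ℕ | s.2.2 < 2 ^ k * s.1}

theorem precStep_iter' (k : ℕ) (s : ℝ × ℕ × ℝ) :
    precStep^[k] s = (2 ^ k * s.1, s.2.1 + k, s.2.2) := by
  induction k with
  | zero => simp
  | succ k ih =>
    rw [Function.iterate_succ_apply', ih]
    simp only [precStep]
    refine Prod.ext ?_ rfl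
    simp only
    ring

theorem exists_pow (a T : ℝ) (ha : 0 < a) : ∃ k : ℕ, T < 2 ^ k * a := by
  obtain ⟨k, hk⟩ := pow_unbounded_of_one_lt (T / a) (by norm_num : (1 : ℝ) < 2)
  exact ⟨k, by rwa [div_lt_iff₀ ha] at hk⟩

/-- the precision: the least `m ≥ 2` with `T < 2 ^ m` -/
def prec (T : ℝ) : ℕ := (precStep^[precN (4, 2, T)] (4, 2, T)).2.1

theorem prec_spec (T : ℝ) : prec T = precN (4, 2, T) + 2 ∧ T < 2 ^ prec T ∧
    (prec T = 2 ∨ 2 ^ (prec T - 1) ≤ T) := by
  have h1 : prec T = precN (4, 2, T) + 2 := by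
    unfold prec
    rw [precStep_iter]
  have h2 : precN (4, 2, T) = sInf {k : ℕ | T < 2 ^ k * 4} := by
    unfold precN
    rw [if_neg (by norm_num)]
  have hne : {k : ℕ | T < 2 ^ k * 4}.Nonempty := exists_pow 4 T (by norm_num)
  refine ⟨h1, ?_, ?_⟩
  · have h3 := Nat.sInf_mem hne
    rw [← h2] at h3
    rw [h1, pow_add]
    calc T < 2 ^ precN (4, 2, T) * 4 := h3
      _ = _ := by norm_num
  · rcases Nat.eq_zero_or_pos (precN (4, 2, T)) with h3 | h3
    · left; omega
    · right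
      have h4 : precN (4, 2, T) - 1 ∉ {k : ℕ | T < 2 ^ k * 4} := by
        apply Nat.notMem_of_lt_sInf
        rw [← h2]
        omega
      simp only [Set.mem_ofPred_eq, not_lt] at h4
      refine le_trans (le_of_eq ?_) h4
      rw [h1, show precN (4, 2, T) + 2 - 1 = (precN (4, 2, T) - 1) + 2 by omega, pow_add]
      norm_num

/-- the cost of the computation of the precision -/
theorem computes_prec : Computes prec (fun T => ((60 * prec T : ℕ) : ℕ∞)) := by
  -- body
  have hs : CN precStep (fun _ => 20) := by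
    refine CN.le (CN.pair (CN.comp (CN.pair CN.fst CN.fst) (CN.of_one Computes.add))
      (CN.pair (CN.comp (CN.comp CN.snd CN.fst) (CN.of_one Computes.succ))
        (CN.comp CN.snd CN.snd))) (fun _ => by norm_num)
  -- condition
  have hh : CN (fun s : ℝ × ℕ × ℝ => if 0 ≤ (-s.1) then (-1 : ℝ) else s.2.2 - s.1)
      (fun _ => 20) := by
    have hone : CN (fun _ : ℝ × ℕ × ℝ => (1 : ℝ)) (fun _ => 1) := CN.of_one Computes.one
    have hzero : CN (fun _ : ℝ × ℕ × ℝ => (0 : ℝ)) (fun _ => 4) := by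
      have := CN.comp (CN.pair hone hone) (CN.of_one Computes.sub)
      simpa using this
    have hneg : CN (fun s : ℝ × ℕ × ℝ => -s.1) (fun _ => 7) := by
      have := CN.comp (CN.pair hzero (CN.fst (α := ℝ) (β := ℕ × ℝ))) (CN.of_one Computes.sub)
      simpa using this
    have hm1 : CN (fun s : ℝ × ℕ × ℝ => (-1 : ℝ)) (fun _ => 7) := by
      have := CN.comp (CN.pair hzero hone) (CN.of_one Computes.sub)
      simpa using this
    have hsub : CN (fun s : ℝ × ℕ × ℝ => s.2.2 - s.1) (fun _ => 5) :=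
      CN.comp (CN.pair (CN.comp CN.snd CN.snd) CN.fst) (CN.of_one Computes.sub)
    refine (CN.branch hneg hm1 hsub).le fun s => ?_
    split_ifs <;> norm_num
  have hw := Computes.whileLoop precN Set.univ hs hh (by
    intro s _
    by_cases h0 : s.1 ≤ 0
    · have h1 : precN s = 0 := by unfold precN; rw [if_pos h0]
      rw [h1]
      refine ⟨fun i hi => absurd hi (Nat.not_lt_zero i), ?_⟩
      simp [h0]
    · have h1 : precN s = sInf {k : ℕ | s.2.2 < 2 ^ k * s.1} := by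
        unfold precN; rw [if_neg h0]
      push Not at h0
      have hne : {k : ℕ | s.2.2 < 2 ^ k * s.1}.Nonempty := exists_pow _ _ h0
      have hpos : ∀ k : ℕ, ¬ (0 ≤ -(2 ^ k * s.1)) := by
        intro k
        have : 0 < 2 ^ k * s.1 := by positivity
        linarith
      constructor
      · intro i hi
        rw [precStep_iter']
        simp only [hpos i, if_false]
        have h4 : i ∉ {k : ℕ | s.2.2 < 2 ^ k * s.1} := by
          apply Nat.notMem_of_lt_sInf
          rw [← h1]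
          exact hi
        simp only [Set.mem_ofPred_eq, not_lt] at h4
        linarith
      · rw [precStep_iter']
        simp only [hpos _, if_false]
        have h3 := Nat.sInf_mem hne
        rw [← h1] at h3
        simp only [Set.mem_ofPred_eq] at h3
        linarith)
  -- the initial state
  have hone : CN (fun _ : ℝ => (1 : ℝ)) (fun _ => 1) := CN.of_one Computes.one
  have htwo : CN (fun _ : ℝ => (2 : ℝ)) (fun _ => 4) := by
    have := CN.comp (CN.pair hone hone) (CN.of_one Computes.add)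
    norm_num at this
    exact this
  have hfour : CN (fun _ : ℝ => (4 : ℝ)) (fun _ => 10) := by
    have := CN.comp (CN.pair htwo htwo) (CN.of_one Computes.add)
    norm_num at this
    exact this
  have hn2 : CN (fun _ : ℝ => (2 : ℕ)) (fun _ => 3) :=
    CN.comp (CN.comp (CN.of_one Computes.zero) (CN.of_one Computes.succ))
      (CN.of_one Computes.succ)
  have hinit : CN (fun T : ℝ => ((4 : ℝ), (2 : ℕ), T)) (fun _ => 15) :=
    CN.pair hfour (CN.pair hn2 CN.id)
  have hfin : CN (fun s : ℝ × ℕ × ℝ => s.2.1) (fun _ => 2) := CN.comp CN.snd CN.fst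
  have h := Computes.comp (Computes.comp hinit hw) hfin
  refine Computes.le h fun T => ?_
  obtain ⟨h1, -, -⟩ := prec_spec T
  simp only [Set.mem_univ, if_true]
  rw [Finset.sum_const, Finset.card_range]
  have e : ((15 : ℕ) : ℕ∞) + ((precN (4, 2, T)) • (((20 : ℕ) : ℕ∞) + 1 + ((20 : ℕ) : ℕ∞))
      + (((20 : ℕ) : ℕ∞) + 1)) + ((2 : ℕ) : ℕ∞)
      = ((15 + (precN (4, 2, T) * 41 + 21) + 2 : ℕ) : ℕ∞) := by
    push_cast
    rw [nsmul_eq_mul]
    norm_num
  rw [e]
  norm_cast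
  rw [h1]
  omega

end Pool.Agent.R563.RRam
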