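import Pool.Agent.R563.RRam.Algo

set_option autoImplicit false

/-! # What the parts of the algorithm compute -/

noncomputable section

namespace Pool.Agent.R563.RRam

theorem pw_eq (m : ℕ) : pw m = 2 ^ m := by
  unfold pw
  induction m with
  | zero => simp
  | succ m ih =>
    rw [Function.iterate_succ_apply', ih]
    ring

theorem pw_pos (m : ℕ) : 0 < pw m := by rw [pw_eq]; positivity

theorem flStep_iter (T : ℕ) : ∀ (z acc : ℝ), 0 ≤ z → z < 2 ^ T →
    (flStep^[T] (z, 2 ^ T / 2, acc)).2.2 = acc + (⌊z⌋ : ℤ) := by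
  induction T with
  | zero =>
    intro z acc h0 h1
    have : ⌊z⌋ = 0 := Int.floor_eq_zero_iff.2 ⟨h0, by simpa using h1⟩
    simp [this]
  | succ T ih =>
    intro z acc h0 h1
    rw [Function.iterate_succ_apply]
    have e : (2 : ℝ) ^ (T + 1) / 2 = 2 ^ T := by rw [pow_succ]; ring
    rw [e]
    by_cases h : 0 ≤ z - 2 ^ T
    · have e1 : flStep (z, 2 ^ T, acc) = (z - 2 ^ T, 2 ^ T / 2, acc + 2 ^ T) := by
        simp only [flStep, h, if_true]
      rw [e1, ih (z - 2 ^ T) (acc + 2 ^ T) h (by rw [pow_succ] at h1; linarith)]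
      have e2 : ⌊z - 2 ^ T⌋ = ⌊z⌋ - 2 ^ T := by
        have := Int.floor_sub_intCast z ((2 : ℤ) ^ T)
        push_cast at this
        exact this
      rw [e2]
      push_cast
      ring
    · have e1 : flStep (z, 2 ^ T, acc) = (z, 2 ^ T / 2, acc) := by
        simp only [flStep, h, if_false]
      rw [e1]
      exact ih z acc h0 (by linarith)

theorem fl_spec (m : ℕ) (z : ℝ) (h0 : 0 ≤ z) (h1 : z < pw m ^ 19) : fl m z = (⌊z⌋ : ℤ) := by
  unfold fl
  rw [← Function.iterate_mul]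
  rw [pw_eq] at h1 ⊢
  have e : ((2 : ℝ) ^ m) ^ 19 = 2 ^ (19 * m) := by rw [← pow_mul, mul_comm]
  rw [e] at h1 ⊢
  have := flStep_iter (19 * m) z 0 h0 h1
  rw [this]
  simp

section ofFn

variable {n : ℕ} {β γ δ : Type}

theorem take_ofFn (u : Fin n → β) : (List.ofFn u).take n = List.ofFn u :=
  List.take_of_length_le (by simp)

theorem zipWith_ofFn (f : β → γ → δ) (u : Fin n → β) (v : Fin n → γ) :
    List.zipWith f (List.ofFn u) (List.ofFn v) = List.ofFn fun i => f (u i) (v i) := by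
  apply List.ext_getElem
  · simp
  · intro i h1 h2
    simp

theorem foldl_add (l : List ℝ) (c : ℝ) : l.foldl (fun x y => x + y) c = c + l.sum := by
  induction l generalizing c with
  | nil => simp
  | cons x t ih => rw [List.foldl_cons, ih, List.sum_cons]; ring

theorem sumL_ofFn (u : Fin n → ℝ) : sumL n (List.ofFn u) = ∑ i, u i := by
  unfold sumL
  rw [take_ofFn, foldl_add, List.sum_ofFn]
  simp

theorem dot_ofFn (u v : Fin n → ℝ) : dot n (List.ofFn u) (List.ofFn v) = ∑ i, u i * v i := by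
  unfold dot
  rw [take_ofFn, zipWith_ofFn, sumL_ofFn]

theorem axpy_ofFn (c : ℝ) (u v : Fin n → ℝ) :
    axpy n c (List.ofFn u) (List.ofFn v) = List.ofFn fun i => c * u i + v i := by
  unfold axpy
  rw [take_ofFn, zipWith_ofFn]

theorem zeros_eq (n : ℕ) : zeros n = List.ofFn fun _ : Fin n => (0 : ℝ) := by
  unfold zeros
  have : ∀ k : ℕ, (fun l : List ℝ => 0 :: l)^[k] [] = List.ofFn fun _ : Fin k => (0 : ℝ) := by
    intro k
    induction k with
    | zero => simp
    | succ k ih =>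
      rw [Function.iterate_succ_apply', ih, List.ofFn_succ]
  exact this n

end ofFn

/-- packed sums are small -/
theorem packed_lt {X : ℝ} (hX : 1 ≤ X) : ∀ {n : ℕ} (D : Fin n → ℝ), (∀ j, 0 ≤ D j) →
    (∀ j, D j ≤ X - 1) → 0 ≤ ∑ j, D j / X ^ (j : ℕ) ∧ ∑ j, D j / X ^ (j : ℕ) < X := by
  intro n
  induction n with
  | zero => intro D _ _; simp; linarith
  | succ n ih =>
    intro D h0 h1
    have hX0 : 0 < X := by linarith
    obtain ⟨h2, h3⟩ := ih (fun j => D j.succ) (fun j => h0 _) (fun j => h1 _)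
    have e : ∑ j : Fin (n + 1), D j / X ^ (j : ℕ)
        = D 0 + (∑ j : Fin n, D j.succ / X ^ (j : ℕ)) / X := by
      rw [Fin.sum_univ_succ, Finset.sum_div]
      simp only [Fin.val_zero, pow_zero, div_one, Fin.val_succ]
      congr 1
      refine Finset.sum_congr rfl fun j _ => ?_
      rw [pow_succ, div_div]
    rw [e]
    have h4 : (∑ j : Fin n, D j.succ / X ^ (j : ℕ)) / X < 1 := by
      rw [div_lt_one hX0]
      exact h3
    have h5 : 0 ≤ (∑ j : Fin n, D j.succ / X ^ (j : ℕ)) / X := by positivity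
    exact ⟨by linarith [h0 0], by linarith [h1 0]⟩

theorem unStep_iter (m : ℕ) : ∀ {n : ℕ} (D : Fin n → ℤ) (out : List ℝ), (∀ j, 0 ≤ D j) →
    (∀ j, (D j : ℝ) ≤ pw m ^ 19 - 1) →
    ((unStep m)^[n] (∑ j, (D j : ℝ) / (pw m ^ 19) ^ (j : ℕ), out)).2
      = (List.ofFn fun j => (D j : ℝ)).reverse ++ out := by
  have hX1 : 1 ≤ pw m ^ 19 := by
    rw [pw_eq]
    exact one_le_pow₀ (one_le_pow₀ (by norm_num))
  have hX0 : 0 < pw m ^ 19 := by linarith
  intro n
  induction n with
  | zero => intro D out _ _; simp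
  | succ n ih =>
    intro D out h0 h1
    rw [Function.iterate_succ_apply]
    obtain ⟨h2, h3⟩ := packed_lt hX1 (fun j : Fin n => (D j.succ : ℝ))
      (fun j => by exact_mod_cast h0 _) (fun j => h1 _)
    obtain ⟨h2', h3'⟩ := packed_lt hX1 (fun j : Fin (n + 1) => (D j : ℝ))
      (fun j => by exact_mod_cast h0 _) (fun j => h1 _)
    have e : ∑ j : Fin (n + 1), (D j : ℝ) / (pw m ^ 19) ^ (j : ℕ)
        = D 0 + (∑ j : Fin n, (D j.succ : ℝ) / (pw m ^ 19) ^ (j : ℕ)) / pw m ^ 19 := by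
      rw [Fin.sum_univ_succ, Finset.sum_div]
      simp only [Fin.val_zero, pow_zero, div_one, Fin.val_succ]
      congr 1
      refine Finset.sum_congr rfl fun j _ => ?_
      rw [pow_succ, div_div]
    have hfl : fl m (∑ j : Fin (n + 1), (D j : ℝ) / (pw m ^ 19) ^ (j : ℕ)) = D 0 := by
      rw [fl_spec m _ h2' h3', e]
      have : ⌊(D 0 : ℝ) + (∑ j : Fin n, (D j.succ : ℝ) / (pw m ^ 19) ^ (j : ℕ)) / pw m ^ 19⌋
          = D 0 := by
        rw [Int.floor_intCast_add, Int.floor_eq_zero_iff.2, add_zero]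
        exact ⟨by positivity, by rw [div_lt_one hX0]; exact h3⟩
      rw [this]
    have e2 : unStep m (∑ j : Fin (n + 1), (D j : ℝ) / (pw m ^ 19) ^ (j : ℕ), out)
        = (∑ j : Fin n, (D j.succ : ℝ) / (pw m ^ 19) ^ (j : ℕ), (D 0 : ℝ) :: out) := by
      unfold unStep
      simp only [hfl]
      congr 1
      rw [e, add_sub_cancel_left, div_mul_cancel₀ _ hX0.ne']
    rw [e2, ih (fun j => D j.succ) _ (fun j => h0 _) (fun j => h1 _), List.ofFn_succ]
    simp

theorem unpack_spec (n m : ℕ) (D : Fin n → ℤ) (h0 : ∀ j, 0 ≤ D j)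
    (h1 : ∀ j, (D j : ℝ) ≤ pw m ^ 19 - 1) :
    unpack n m (∑ j, (D j : ℝ) / (pw m ^ 19) ^ (j : ℕ)) = List.ofFn fun j => (D j : ℝ) := by
  unfold unpack
  rw [unStep_iter m D [] h0 h1, List.append_nil, List.take_of_length_le (by simp),
    List.reverse_reverse]

theorem offs_spec (n m : ℕ) :
    offs n m = ∑ j : Fin n, pw m ^ 18 / (pw m ^ 19) ^ (j : ℕ) := by
  unfold offs
  generalize pw m ^ 19 = X
  generalize pw m ^ 18 = H
  have : ∀ (k : ℕ) (s c : ℝ), (fun s : ℝ × ℝ => (s.1 + H * s.2, s.2 / X))^[k] (s, c)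
      = (s + ∑ j : Fin k, H * c / X ^ (j : ℕ), c / X ^ k) := by
    intro k
    induction k with
    | zero => intro s c; simp
    | succ k ih =>
      intro s c
      rw [Function.iterate_succ_apply, ih]
      simp only [Fin.sum_univ_succ, Fin.val_zero, pow_zero, div_one, Fin.val_succ]
      refine Prod.ext ?_ ?_
      · simp only
        rw [add_assoc]
        congr 2
        refine Finset.sum_congr rfl fun j _ => ?_
        rw [pow_succ, mul_div_assoc', div_div, mul_comm X]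
      · simp only
        rw [pow_succ, div_div, mul_comm X]
  rw [this n 0 1]
  simp

theorem packW_fold (n : ℕ) (X : ℝ) : ∀ {r : ℕ} (M : Fin r → Fin n → ℝ) (w : Fin n → ℝ) (c : ℝ),
    (List.ofFn fun i => List.ofFn (M i)).foldl
      (fun (s : List ℝ × ℝ) r => (axpy n s.2 r s.1, s.2 / X)) (List.ofFn w, c)
      = (List.ofFn fun k => w k + ∑ i : Fin r, c / X ^ (i : ℕ) * M i k, c / X ^ r) := by
  intro r
  induction r with
  | zero => intro M w c; simp
  | succ r ih =>
    intro M w c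
    rw [List.ofFn_succ, List.foldl_cons, axpy_ofFn, ih (fun i => M i.succ)]
    refine Prod.ext ?_ ?_
    · simp only
      congr 1
      funext k
      rw [Fin.sum_univ_succ]
      simp only [Fin.val_zero, pow_zero, div_one, Fin.val_succ]
      have : ∀ i : Fin r, c / X / X ^ (i : ℕ) * M i.succ k
          = c / X ^ ((i : ℕ) + 1) * M i.succ k := by
        intro i
        rw [pow_succ, div_div, mul_comm X]
      simp only [this]
      ring
    · simp only
      rw [pow_succ, div_div, mul_comm X]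

/-- the list of the rows of a matrix -/
def rowsOf {n : ℕ} (M : Matrix (Fin n) (Fin n) ℝ) : List (List ℝ) :=
  List.ofFn fun i => List.ofFn fun j => M i j

theorem packW_spec {n : ℕ} (m : ℕ) (M : Matrix (Fin n) (Fin n) ℝ) :
    packW n m (rowsOf M) = List.ofFn fun k => ∑ i, M i k / (pw m ^ 19) ^ (i : ℕ) := by
  unfold packW rowsOf
  rw [take_ofFn, zeros_eq]
  have := packW_fold n (pw m ^ 19) (fun i j => M i j) (fun _ => 0) 1
  rw [this]
  simp only
  congr 1
  funext k
  rw [zero_add]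
  refine Finset.sum_congr rfl fun i _ => ?_
  ring

theorem prodRows_fold {β γ : Type} (X : ℝ) (f : ℝ → β → γ) : ∀ {r : ℕ} (l : Fin r → β)
    (out : List γ) (c : ℝ),
    (List.ofFn l).foldl (fun (s : List γ × ℝ) r => (f s.2 r :: s.1, s.2 / X)) (out, c)
      = ((List.ofFn fun i => f (c / X ^ (i : ℕ)) (l i)).reverse ++ out, c / X ^ r) := by
  intro r
  induction r with
  | zero => intro l out c; simp
  | succ r ih =>
    intro l out c
    rw [List.ofFn_succ, List.foldl_cons, ih]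
    refine Prod.ext ?_ ?_
    · simp only
      rw [List.ofFn_succ]
      simp only [Fin.val_zero, pow_zero, div_one, Fin.val_succ, List.reverse_cons,
        List.append_assoc, List.singleton_append]
      congr 3
      funext i
      rw [pow_succ, div_div, mul_comm X]
    · simp only
      rw [pow_succ, div_div, mul_comm X]

theorem scale_spec (m : ℕ) (g : ℤ) (h : |(g : ℝ)| ≤ pw m ^ 18) (hm : 1 ≤ m) :
    scale m (g + pw m ^ 18) = (⌊(g : ℝ) / pw m ^ 8⌋ : ℤ) := by
  unfold scale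
  have hp := pw_pos m
  have h2 : (2 : ℝ) ≤ pw m := by
    rw [pw_eq]
    calc (2 : ℝ) = 2 ^ 1 := by norm_num
      _ ≤ 2 ^ m := pow_le_pow_right₀ (by norm_num) hm
  rw [abs_le] at h
  have h8 : 1 ≤ pw m ^ 8 := one_le_pow₀ (by linarith)
  have h19 : 2 * pw m ^ 18 ≤ pw m ^ 19 := by
    rw [pow_succ (pw m) 18]
    nlinarith [pow_pos hp 18]
  rw [fl_spec m _ (div_nonneg (by linarith) (by positivity)) ?_]
  · have e10 : ((2 ^ (10 * m) : ℤ) : ℝ) = pw m ^ 10 := by
      rw [pw_eq]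
      push_cast
      rw [← pow_mul, mul_comm m 10]
    have e : ((g : ℝ) + pw m ^ 18) / pw m ^ 8 = (g : ℝ) / pw m ^ 8 + ((2 ^ (10 * m) : ℤ) : ℝ) := by
      have : pw m ^ 18 = pw m ^ 10 * pw m ^ 8 := by rw [← pow_add]
      rw [add_div, this, mul_div_cancel_right₀ _ (by positivity), e10]
    rw [e, Int.floor_add_intCast]
    have : pw m ^ 18 / pw m ^ 8 = ((2 ^ (10 * m) : ℤ) : ℝ) := by
      have : pw m ^ 18 = pw m ^ 10 * pw m ^ 8 := by rw [← pow_add]
      rw [this, mul_div_cancel_right₀ _ (by positivity), e10]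
    rw [this]
    push_cast
    ring
  · rw [div_lt_iff₀ (by positivity)]
    calc (g : ℝ) + pw m ^ 18 ≤ 2 * pw m ^ 18 := by linarith
      _ ≤ pw m ^ 19 := h19
      _ < pw m ^ 19 * pw m ^ 8 := by
        have : 1 < pw m ^ 8 := by
          calc (1 : ℝ) < 2 ^ 8 := by norm_num
            _ ≤ pw m ^ 8 := pow_le_pow_left₀ (by norm_num) h2 8
        nlinarith [pow_pos hp 19]

/-- one product step -/
theorem prodRows_spec {n m : ℕ} (hm : 2 ≤ m) (sg q : ℝ) (M : Matrix (Fin n) (Fin n) ℝ)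
    (G : Fin n → Fin n → ℤ)
    (hG : ∀ i j, sg * ∑ k, M i k * M j k + (if i = j then q else 0) = G i j)
    (hb : ∀ i j, |(G i j : ℝ)| ≤ pw m ^ 18) :
    prodRows n m sg q (rowsOf M)
      = rowsOf (Matrix.of fun i j => ((⌊(G i j : ℝ) / pw m ^ 8⌋ : ℤ) : ℝ)) := by
  have hp := pw_pos m
  have h4 : (4 : ℝ) ≤ pw m := by
    rw [pw_eq]
    calc (4 : ℝ) = 2 ^ 2 := by norm_num
      _ ≤ 2 ^ m := pow_le_pow_right₀ (by norm_num) hm
  unfold prodRows
  have htake : (rowsOf M).take n = rowsOf M := take_ofFn _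
  rw [htake]
  have hf := prodRows_fold (pw m ^ 19)
    (fun c r => newRow n m (packW n m (rowsOf M)) (offs n m) sg q c r)
    (fun i => List.ofFn fun j => M i j) [] 1
  unfold rowsOf at hf ⊢
  rw [hf]
  simp only [List.append_nil]
  rw [List.take_of_length_le (by simp), List.reverse_reverse]
  congr 1
  funext i
  have hpk := packW_spec m M
  unfold rowsOf at hpk
  rw [hpk]
  unfold newRow
  rw [dot_ofFn, offs_spec]
  have e : sg * ∑ k, M i k * ∑ j, M j k / (pw m ^ 19) ^ (j : ℕ)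
        + q * (1 / (pw m ^ 19) ^ (i : ℕ)) + ∑ j : Fin n, pw m ^ 18 / (pw m ^ 19) ^ (j : ℕ)
      = ∑ j : Fin n, ((G i j + 2 ^ (18 * m) : ℤ) : ℝ) / (pw m ^ 19) ^ (j : ℕ) := by
    have e1 : ∀ j : Fin n, ((G i j + 2 ^ (18 * m) : ℤ) : ℝ) / (pw m ^ 19) ^ (j : ℕ)
        = sg * (∑ k, M i k * M j k) / (pw m ^ 19) ^ (j : ℕ)
          + (if i = j then q / (pw m ^ 19) ^ (j : ℕ) else 0)
          + pw m ^ 18 / (pw m ^ 19) ^ (j : ℕ) := by
      intro j
      push_cast
      rw [← hG i j]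
      have e3 : (2 : ℝ) ^ (18 * m) = pw m ^ 18 := by rw [pw_eq, ← pow_mul, mul_comm]
      rw [e3]
      split_ifs <;> ring
    simp only [e1]
    rw [Finset.sum_add_distrib, Finset.sum_add_distrib, Finset.sum_ite_eq Finset.univ i,
      if_pos (Finset.mem_univ i)]
    congr 1
    congr 1
    · rw [Finset.mul_sum]
      simp only [Finset.mul_sum, Finset.sum_div]
      rw [Finset.sum_comm]
      refine Finset.sum_congr rfl fun j _ => Finset.sum_congr rfl fun k _ => ?_
      ring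
    · ring
  rw [e, unpack_spec n m (fun j => G i j + 2 ^ (18 * m))]
  · rw [take_ofFn, List.map_ofFn]
    congr 1
    funext j
    simp only [Function.comp, Matrix.of_apply]
    push_cast
    have e3 : (2 : ℝ) ^ (18 * m) = pw m ^ 18 := by rw [pw_eq, ← pow_mul, mul_comm]
    rw [e3, scale_spec m (G i j) (hb i j) (by omega)]
  · intro j
    have h1 := (abs_le.1 (hb i j)).1
    have e3 : (2 : ℝ) ^ (18 * m) = pw m ^ 18 := by rw [pw_eq, ← pow_mul, mul_comm]
    have : (0 : ℝ) ≤ ((G i j + 2 ^ (18 * m) : ℤ) : ℝ) := by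
      push_cast
      rw [e3]
      linarith
    exact_mod_cast this
  · intro j
    have h1 := (abs_le.1 (hb i j)).2
    have e3 : (2 : ℝ) ^ (18 * m) = pw m ^ 18 := by rw [pw_eq, ← pow_mul, mul_comm]
    push_cast
    rw [e3]
    have h18 : 1 ≤ pw m ^ 18 := one_le_pow₀ (by linarith)
    have : pw m ^ 19 = pw m ^ 18 * pw m := pow_succ _ _
    nlinarith

theorem upd_spec {n : ℕ} (m : ℕ) (M : Matrix (Fin n) (Fin n) ℝ) (y : Fin n → ℝ) :
    upd n m (rowsOf M) (List.ofFn y)
      = List.ofFn fun i => y i + (∑ j, M i j * y j) / pw m ^ 8 := by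
  unfold upd rowsOf
  rw [take_ofFn, zipWith_ofFn]
  congr 1
  funext i
  rw [dot_ofFn]

theorem roundRows_spec {n m : ℕ} (hm : 1 ≤ m) (M : Matrix (Fin n) (Fin n) ℝ)
    (h : ∀ i j, |M i j| ≤ 1) :
    roundRows n m (rowsOf M)
      = rowsOf (Matrix.of fun i j => ((⌊pw m ^ 8 * M i j⌋ : ℤ) : ℝ)) := by
  unfold roundRows rowsOf
  rw [take_ofFn, List.map_ofFn]
  congr 1
  funext i
  simp only [Function.comp]
  rw [take_ofFn, List.map_ofFn]
  congr 1
  funext j
  simp only [Function.comp, Matrix.of_apply]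
  have hp := pw_pos m
  have h2 : (2 : ℝ) ≤ pw m := by
    rw [pw_eq]
    calc (2 : ℝ) = 2 ^ 1 := by norm_num
      _ ≤ 2 ^ m := pow_le_pow_right₀ (by norm_num) hm
  have h8 : 0 < pw m ^ 8 := by positivity
  obtain ⟨h3, h4⟩ := abs_le.1 (h i j)
  rw [fl_spec m _ (by nlinarith) ?_]
  · have e : pw m ^ 8 * M i j + pw m ^ 8 = pw m ^ 8 * M i j + ((2 ^ (8 * m) : ℤ) : ℝ) := by
      push_cast
      rw [pw_eq, ← pow_mul, mul_comm m 8]
    rw [e, Int.floor_add_intCast]
    push_cast
    rw [pw_eq, ← pow_mul, mul_comm m 8]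
    ring
  · have h5 : pw m ^ 8 * M i j + pw m ^ 8 ≤ 2 * pw m ^ 8 := by nlinarith
    have h6 : 2 * pw m ^ 8 < pw m ^ 19 := by
      have : pw m ^ 19 = pw m ^ 8 * pw m ^ 11 := by rw [← pow_add]
      rw [this]
      have h7 : (2 : ℝ) < pw m ^ 11 := by
        calc (2 : ℝ) < 2 ^ 11 := by norm_num
          _ ≤ pw m ^ 11 := pow_le_pow_left₀ (by norm_num) h2 11
      nlinarith
    linarith

theorem tmul_fold (n : ℕ) (c : ℝ) : ∀ {r : ℕ} (M : Fin r → Fin n → ℝ) (y : Fin r → ℝ)
    (x : Fin n → ℝ),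
    (List.ofFn fun i => ((List.ofFn fun j => M i j), y i)).foldl
      (fun x (p : List ℝ × ℝ) => axpy n (c * p.2) p.1 x) (List.ofFn x)
      = List.ofFn fun k => x k + ∑ i, c * y i * M i k := by
  intro r
  induction r with
  | zero => intro M y x; simp
  | succ r ih =>
    intro M y x
    rw [List.ofFn_succ, List.foldl_cons]
    simp only
    rw [axpy_ofFn, ih (fun i => M i.succ) (fun i => y i.succ)]
    congr 1
    funext k
    rw [Fin.sum_univ_succ]
    ring

theorem tmul_spec {n : ℕ} (c : ℝ) (M : Matrix (Fin n) (Fin n) ℝ) (y : Fin n → ℝ) :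
    tmul n c (rowsOf M) (List.ofFn y) = List.ofFn fun k => ∑ i, c * y i * M i k := by
  unfold tmul rowsOf
  rw [take_ofFn, zipWith_ofFn, take_ofFn, zeros_eq]
  have := tmul_fold n c (fun i j => M i j) y (fun _ => 0)
  rw [this]
  simp

end Pool.Agent.R563.RRam
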